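import Pool.Agent.P.MP_27b523_gt.Poset

open Set Function

namespace Pool.Agent.P.MP_27b523_gt

theorem exists_fresh {T κ D : Type} [Fintype D] (Q : T → (D → κ) → Prop)
    (h : ¬ Set.Countable {t | ∃ e, Q t e}) : ∃ (σ : Finset D) (e0 : D → κ),
      ∀ (Z : Finset κ) (A : Finset T), ∃ t, t ∉ A ∧ ∃ e, Q t e ∧ (∀ d ∈ σ, e d = e0 d) ∧
        ∀ d, d ∉ σ → e d ∉ Z := by
  classical
  have hne0 : {t | ∃ e, Q t e}.Nonempty := by
    by_contra hn
    rw [Set.not_nonempty_iff_eq_empty] at hn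
    exact h (hn ▸ Set.countable_empty)
  obtain ⟨t0, e00, -⟩ := hne0
  have hf : ∀ t : T, ∃ e : D → κ, (∃ e, Q t e) → Q t e := by
    intro t
    by_cases ht : ∃ e, Q t e
    · obtain ⟨e, he⟩ := ht
      exact ⟨e, fun _ => he⟩
    · exact ⟨e00, fun h => absurd h ht⟩
  choose f hf using hf
  let good : Finset D → Prop := fun σ =>
    ∃ e0 : D → κ, ¬ Set.Countable {t | (∃ e, Q t e) ∧ ∀ d ∈ σ, f t d = e0 d}
  have hne : (Finset.univ.filter good).Nonempty := by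
    refine ⟨∅, Finset.mem_filter.2 ⟨Finset.mem_univ _, e00, ?_⟩⟩
    simpa using h
  obtain ⟨σ, hσ, hmax⟩ := Finset.exists_max_image (Finset.univ.filter good) Finset.card hne
  obtain ⟨e0, he0⟩ := (Finset.mem_filter.1 hσ).2
  refine ⟨σ, e0, fun Z A => ?_⟩
  set J := {t | (∃ e, Q t e) ∧ ∀ d ∈ σ, f t d = e0 d} with hJ
  have hbad : ∀ d, d ∉ σ → ∀ α : κ, Set.Countable {t | t ∈ J ∧ f t d = α} := by
    intro d hd α
    by_contra hc
    have hg : good (insert d σ) := by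
      refine ⟨Function.update e0 d α, fun hc' => hc (hc'.mono ?_)⟩
      rintro t ⟨⟨h1, h2⟩, h3⟩
      refine ⟨h1, fun d' hd' => ?_⟩
      rcases Finset.mem_insert.1 hd' with rfl | hd'
      · simp [h3]
      · have : d' ≠ d := fun h => hd (h ▸ hd')
        simp [Function.update_of_ne this, h2 d' hd']
    have := hmax _ (Finset.mem_filter.2 ⟨Finset.mem_univ _, hg⟩)
    rw [Finset.card_insert_of_notMem hd] at this
    omega
  have hcount : Set.Countable ((A : Set T) ∪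
      ⋃ d ∈ (σᶜ : Finset D), ⋃ α ∈ Z, {t | t ∈ J ∧ f t d = α}) := by
    refine (A.countable_toSet).union ?_
    refine Set.Countable.biUnion (σᶜ : Finset D).countable_toSet fun d hd => ?_
    refine Set.Countable.biUnion Z.countable_toSet fun α _ => ?_
    exact hbad d (by simpa using hd) α
  have : ¬ J ⊆ ((A : Set T) ∪ ⋃ d ∈ (σᶜ : Finset D), ⋃ α ∈ Z, {t | t ∈ J ∧ f t d = α}) :=
    fun hs => he0 (hcount.mono hs)
  rw [Set.not_subset] at this
  obtain ⟨t, htJ, ht⟩ := this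
  refine ⟨t, fun hA => ht (Or.inl hA), f t, hf t htJ.1, htJ.2, fun d hd hZ => ht (Or.inr ?_)⟩
  simp only [Set.mem_iUnion]
  exact ⟨d, by simpa using hd, f t d, hZ, htJ, rfl⟩

variable {O L J : Type} [LinearOrder O] [OrderBot O] [LinearOrder L] [WellFoundedLT L]

namespace Data

variable {d : Data O L J}

variable (d) in
/-- compatible conditions -/
def Compat (p q : Raw L J) : Prop := ∃ r, d.Valid r ∧ d.Le r p ∧ d.Le r q

theorem Compat.symm {p q : Raw L J} (h : d.Compat p q) : d.Compat q p :=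
  let ⟨r, h1, h2, h3⟩ := h; ⟨r, h1, h3, h2⟩

theorem ccc {S : Set (Raw L J)} (hS : ∀ p ∈ S, d.Valid p)
    (h : S.Pairwise fun p q => ¬ d.Compat p q) : S.Countable := by
  classical
  by_contra hc
  let Q : (θ : Σ n : ℕ, Fin n → Finset Elt) → Raw L J → (Fin θ.1 → L) → Prop := fun θ p e =>
    p ∈ S ∧ Injective e ∧ (∀ β a, (β, a) ∈ p.1 ↔ ∃ i, e i = β ∧ a ∈ θ.2 i) ∧
      ∀ β j, (β, j) ∈ p.2 → β ∈ range e
  have h1 : ∀ p ∈ S, ∃ θ e, Q θ p e := by
    intro p hp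
    let E : Finset L := p.1.image Prod.fst ∪ p.2.image Prod.fst
    let e : Fin E.card → L := fun i => (E.equivFin.symm i).1
    have he : ∀ β ∈ E, β ∈ range e := fun β hβ => ⟨E.equivFin ⟨β, hβ⟩, by simp [e]⟩
    refine ⟨⟨E.card, fun i => (p.1.filter fun x => x.1 = e i).image Prod.snd⟩, e, hp,
      fun i j hij => E.equivFin.symm.injective (Subtype.ext hij), fun β a => ?_, fun β j hj =>
      he β (Finset.mem_union_right _ (Finset.mem_image_of_mem _ hj))⟩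
    constructor
    · intro ha
      obtain ⟨i, rfl⟩ := he β (Finset.mem_union_left _ (Finset.mem_image_of_mem _ ha))
      exact ⟨i, rfl, Finset.mem_image.2 ⟨_, Finset.mem_filter.2 ⟨ha, rfl⟩, rfl⟩⟩
    · rintro ⟨i, rfl, hi⟩
      obtain ⟨⟨β, b⟩, h1, rfl⟩ := Finset.mem_image.1 hi
      obtain ⟨h2, h3⟩ := Finset.mem_filter.1 h1
      simp only at h3
      rwa [← h3]
  have h2 : ∃ θ, ¬ {p | ∃ e, Q θ p e}.Countable := by
    by_contra hcon
    push Not at hcon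
    exact hc ((countable_iUnion hcon).mono fun p hp => mem_iUnion.2 (h1 p hp))
  obtain ⟨θ, hθ⟩ := h2
  obtain ⟨σ, e0, hF⟩ := exists_fresh _ hθ
  obtain ⟨p1, -, e1, ⟨a1, a2, a3, a4⟩, a5, -⟩ := hF ∅ ∅
  obtain ⟨p2, hne, e2, ⟨b1, b2, b3, b4⟩, b5, b6⟩ := hF (Finset.univ.image e1) {p1}
  have hne' : p2 ≠ p1 := by simpa using hne
  have c1 : d.Le (un p1 p2) p1 := by
    refine le_of_agree (fun _ h => mem_un1.2 (Or.inl h)) (fun _ h => mem_un2.2 (Or.inl h))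
      fun β a ha ha' => ?_
    obtain ⟨i, rfl, hi⟩ := (b3 β a).1 ((mem_un1.1 ha).resolve_left ha')
    have hi' : i ∉ σ := fun h => ha' ((a3 _ a).2 ⟨i, (a5 i h).trans (b5 i h).symm, hi⟩)
    have : e2 i ∉ range e1 := fun ⟨k, hk⟩ =>
      b6 i hi' (Finset.mem_image.2 ⟨k, Finset.mem_univ _, hk⟩)
    exact ⟨fun b hb => this (let ⟨k, hk, _⟩ := (a3 _ b).1 hb; ⟨k, hk⟩),
      fun j hj => this (a4 _ j hj)⟩
  have c2 : d.Le (un p1 p2) p2 := by
    refine le_of_agree (fun _ h => mem_un1.2 (Or.inr h)) (fun _ h => mem_un2.2 (Or.inr h))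
      fun β a ha ha' => ?_
    obtain ⟨i, rfl, hi⟩ := (a3 β a).1 ((mem_un1.1 ha).resolve_right ha')
    have : e1 i ∉ range e2 := by
      rintro ⟨k, hk⟩
      have hk' : k ∈ σ := by
        by_contra hk'
        exact b6 k hk' (Finset.mem_image.2 ⟨i, Finset.mem_univ _, hk.symm⟩)
      have : k = i := a2 ((a5 k hk').trans ((b5 k hk').symm.trans hk))
      subst this
      exact ha' ((b3 _ a).2 ⟨k, hk, hi⟩)
    exact ⟨fun b hb => this (let ⟨k, hk, _⟩ := (b3 _ b).1 hb; ⟨k, hk⟩),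
      fun j hj => this (b4 _ j hj)⟩
  exact h a1 b1 hne'.symm ⟨_, valid_un (hS _ a1) (hS _ b1) c1 c2, c1, c2⟩

theorem exists_antichain (B : Set (Raw L J)) (hB : ∀ p ∈ B, d.Valid p) :
    ∃ B0 ⊆ B, B0.Countable ∧ (B0.Pairwise fun p q => ¬ d.Compat p q) ∧
      ∀ r ∈ B, ∃ w ∈ B0, d.Compat r w := by
  obtain ⟨m, hm⟩ := zorn_subset {S | S ⊆ B ∧ S.Pairwise fun p q => ¬ d.Compat p q}
    fun c hc hch => ⟨⋃₀ c, ⟨sUnion_subset fun t ht => (hc ht).1,
      (pairwise_sUnion hch.directedOn).2 fun t ht => (hc ht).2⟩, fun _ => subset_sUnion_of_mem⟩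
  refine ⟨m, hm.prop.1, ccc (fun p hp => hB p (hm.prop.1 hp)) hm.prop.2, hm.prop.2, fun r hr => ?_⟩
  by_contra hcon
  push Not at hcon
  have h1 : insert r m ∈ {S | S ⊆ B ∧ S.Pairwise fun p q => ¬ d.Compat p q} :=
    ⟨insert_subset hr hm.prop.1, hm.prop.2.insert fun b hb _ =>
      ⟨hcon b hb, fun h => hcon b hb h.symm⟩⟩
  have h2 := hm.le_of_ge h1 (subset_insert r m) (mem_insert r m)
  exact hcon r h2 ⟨r, hB r hr, le_refl r, le_refl r⟩

variable (d) in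
/-- conditions of the subposet given by `A` -/
def PA (A : Set L) (p : Raw L J) : Prop := d.Valid p ∧ d.InA A p

theorem PA.mono {A B : Set L} {p : Raw L J} (h : d.PA A p) (hAB : A ⊆ B) : d.PA B p :=
  ⟨h.1, h.2.mono hAB⟩

theorem pa_res {A : Set L} (hA : d.Closed A) {p : Raw L J} (h : d.Valid p) :
    d.PA A (d.res A p) := ⟨h.res hA, res_inA _ _⟩

variable (d) in
/-- dense subsets of the `B`-poset are predense below `l` -/
def QProp (B : Set L) (l : L) : Prop :=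
  ∀ E : Raw L J → Prop, (∀ r, d.PA B r → ∃ r', d.PA B r' ∧ d.Le r' r ∧ E r') →
    ∀ p, d.Valid p → SuppIn p (Iic l) →
      ∃ q r, d.Valid q ∧ SuppIn q (Iic l) ∧ d.Le q p ∧ d.Le q r ∧ E r

theorem qProp_Iic (l : L) : d.QProp (Iic l) l := by
  intro E hE p h1 h2
  obtain ⟨r, a1, a2, a3⟩ := hE p ⟨h1, h1.inA (isLowerSet_Iic l) h2⟩
  exact ⟨r, r, a1.1, a1.2.suppIn, a2, le_refl r, a3⟩

/-- construction of names for reals -/
theorem mkName {B : Set L} (hB : d.Closed B) {l : L} (hBl : B ⊆ Iic l) (hQ : d.QProp B l)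
    (bt bf : ℕ → Raw L J → Prop)
    (hd : ∀ n r, d.PA B r → ∃ r', d.PA B r' ∧ d.Le r' r ∧ (bt n r' ∨ bf n r'))
    (he : ∀ n r w w', d.PA B r → d.PA B w → d.PA B w' → d.Le r w → d.Le r w' → bt n w →
      ¬ bf n w') :
    ∃ y : ℕ → ℕ → Raw L J × Bool, d.NameOK l y ∧ ∀ n m, d.InA B (y n m).1 ∧
      ((y n m).2 = true → bt n (y n m).1) ∧ ((y n m).2 = false → bf n (y n m).1) := by
  classical
  have h1 : ∀ n, ∃ f : ℕ → Raw L J, (∀ m, d.PA B (f m) ∧ (bt n (f m) ∨ bf n (f m))) ∧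
      ∀ r, d.PA B r → ∃ r', d.PA B r' ∧ d.Le r' r ∧ ∃ m, d.Le r' (f m) := by
    intro n
    obtain ⟨B0, a1, a2, -, a3⟩ := exists_antichain {r | d.PA B r ∧ (bt n r ∨ bf n r)}
      fun p hp => hp.1.1
    have key : ∀ r, d.PA B r → ∃ r', d.PA B r' ∧ d.Le r' r ∧ ∃ w ∈ B0, d.Le r' w := by
      intro r hr
      obtain ⟨r1, b1, b2, b3⟩ := hd n r hr
      obtain ⟨w, hw, q, c1, c2, c3⟩ := a3 r1 ⟨b1, b3⟩
      exact ⟨_, pa_res hB c1, (c2.trans b2).res hr.2, w, hw, c3.res (a1 hw).1.2⟩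
    obtain ⟨_, -, -, w, hw, -⟩ := key _ ⟨valid_empty, inA_empty B⟩
    obtain ⟨f, rfl⟩ := a2.exists_eq_range ⟨w, hw⟩
    refine ⟨f, fun m => a1 (mem_range_self m), fun r hr => ?_⟩
    obtain ⟨r', c1, c2, _, ⟨m, rfl⟩, c3⟩ := key r hr
    exact ⟨r', c1, c2, m, c3⟩
  choose f hf1 hf2 using h1
  refine ⟨fun n m => (f n m, decide (bt n (f n m))), ⟨fun n m =>
    ⟨(hf1 n m).1.2.suppIn.mono hBl, (hf1 n m).1.1⟩, fun n p h1 h2 => ?_,
    fun n m m' q h1 h2 h3 h4 => ?_⟩, fun n m => ⟨(hf1 n m).1.2, by simp, fun h => ?_⟩⟩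
  · obtain ⟨q, r, a1, a2, a3, a4, m, a5⟩ := hQ _ (hf2 n) p h2 h1
    exact ⟨q, m, a2, a1, a3, a4.trans a5⟩
  · have a1 := pa_res hB h2
    have a2 := h3.res (hf1 n m).1.2
    have a3 := h4.res (hf1 n m').1.2
    simp only [decide_eq_decide]
    constructor
    · intro h
      exact (hf1 n m').2.resolve_right (he n _ _ _ a1 (hf1 n m).1 (hf1 n m').1 a2 a3 h)
    · intro h
      exact (hf1 n m).2.resolve_right (he n _ _ _ a1 (hf1 n m').1 (hf1 n m).1 a3 a2 h)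
  · exact (hf1 n m).2.resolve_left (by simpa using h)

end Data

end Pool.Agent.P.MP_27b523_gt
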