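import Pool.Agent.P.MP_27b523_gt.Pres

/-!
The compactness step and the preservation theorem.
-/

open Set Function

namespace Pool.Agent.P.MP_27b523_gt

variable {O L J : Type} [LinearOrder O] [OrderBot O] [LinearOrder L]

/-- the cylinder `u|l` intersected with the generic real at `β` is inside `W` -/
def Cyl (r : Raw L J) (β : L) (l : ℕ) (u : ℕ → Bool) (W : Clop) : Prop :=
  ∃ c ∈ W, c.1 ≤ l ∧ ∀ n < c.1, (n ∈ c.2 → u n = true ∧ InT r β n) ∧
    (n ∉ c.2 → u n = false ∨ OutT r β n)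

namespace Data

/-- bar inductive covering -/
inductive Cov (d : Data O L J) (D : Raw L J → Finset (J × Clop) → ℕ → Prop) (T : Finset J)
    (j0 : J) (β : L) (r : Raw L J) (C' : Finset (J × Clop)) (m : ℕ) : ℕ → (ℕ → Bool) → Prop
  | base (l : ℕ) (u : ℕ → Bool) (r0 : Raw L J) (C : Finset (J × Clop)) (m0 : ℕ) : D r0 C m0 →
    d.Le r r0 → m0 ≤ m → (∀ x ∈ C, x.1 ∈ T → x ∈ C') → (∀ W, (j0, W) ∈ C → Cyl r β l u W) →
    Cov d D T j0 β r C' m l u
  | split (l : ℕ) (u : ℕ → Bool) : Cov d D T j0 β r C' m (l + 1) (update u l false) →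
    Cov d D T j0 β r C' m (l + 1) (update u l true) → Cov d D T j0 β r C' m l u

variable {d : Data O L J} {D : Raw L J → Finset (J × Clop) → ℕ → Prop} {T : Finset J}
  {j0 : J} {β : L}

theorem Cov.mono {r r' : Raw L J} {C1 C2 : Finset (J × Clop)} {m m' l : ℕ} {u : ℕ → Bool}
    (h : d.Cov D T j0 β r C1 m l u) (hr : d.Le r' r) (hC : C1 ⊆ C2) (hm : m ≤ m') :
    ∀ u' : ℕ → Bool, (∀ n < l, u' n = u n) → d.Cov D T j0 β r' C2 m' l u' := by
  induction h with
  | base l u r0 C m0 h1 h2 h3 h4 h5 =>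
    intro u' hu
    refine .base l u' r0 C m0 h1 (hr.trans h2) (h3.trans hm) (fun x hx hx' => hC (h4 x hx hx'))
      fun W hW => ?_
    obtain ⟨c, a1, a2, a3⟩ := h5 W hW
    refine ⟨c, a1, a2, fun n hn => ?_⟩
    rw [hu n (hn.trans_le a2)]
    exact ⟨fun h => ⟨((a3 n hn).1 h).1, hr.inT ((a3 n hn).1 h).2⟩,
      fun h => ((a3 n hn).2 h).imp id hr.outT⟩
  | split l u _ _ ih1 ih2 =>
    intro u' hu
    have : ∀ b, ∀ n < l + 1, update u' l b n = update u l b n := by
      intro b n hn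
      rcases lt_or_eq_of_le (Nat.le_of_lt_succ hn) with h | rfl
      · rw [update_of_ne h.ne, update_of_ne h.ne, hu n h]
      · simp
    exact .split l u' (ih1 _ (this _)) (ih2 _ (this _))

variable [WellFoundedLT L]

theorem NameOK.decide {j : J} (h : d.NameOK (d.τ (d.η j)) (d.z j)) {q : Raw L J}
    (hq : d.Valid q) (hs : SuppIn q (Iic (d.τ (d.η j)))) (n : ℕ) :
    ∃ q' b, d.Valid q' ∧ SuppIn q' (Iic (d.τ (d.η j))) ∧ d.Le q' q ∧ d.Zd q' j n b := by
  obtain ⟨q', m, a1, a2, a3, a4⟩ := h.2.1 n q hs hq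
  exact ⟨q', _, a2, a1, a3, m, rfl, a4⟩

theorem Cov.transfer {r : Raw L J} {C' : Finset (J × Clop)} {m l : ℕ} {u : ℕ → Bool}
    (hj : d.NameOK (d.τ (d.η j0)) (d.z j0)) (h : d.Cov D T j0 (d.τ (d.η j0)) r C' m l u) :
    ∀ q, d.Valid q → SuppIn q (Iic (d.τ (d.η j0))) → d.Le q r → (∀ n < l, d.Zd q j0 n (u n)) →
      ∃ q' r0 C m0, d.Valid q' ∧ SuppIn q' (Iic (d.τ (d.η j0))) ∧ d.Le q' q ∧ D r0 C m0 ∧
        d.Le q' r0 ∧ m0 ≤ m ∧ (∀ x ∈ C, x.1 ∈ T → x ∈ C') ∧ ∀ W, (j0, W) ∈ C → d.YW q' j0 W := by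
  induction h with
  | base l u r0 C m0 h1 h2 h3 h4 h5 =>
    intro q a1 a2 a3 a4
    refine ⟨q, r0, C, m0, a1, a2, le_refl q, h1, a3.trans h2, h3, h4, fun W hW => ?_⟩
    obtain ⟨c, b1, b2, b3⟩ := h5 W hW
    refine ⟨c, b1, fun n hn => ⟨fun h => ?_, fun h => ?_⟩⟩
    · obtain ⟨c1, c2⟩ := (b3 n hn).1 h
      exact ⟨c1 ▸ a4 n (hn.trans_le b2), a3.inT c2⟩
    · rcases (b3 n hn).2 h with c1 | c1
      · exact Or.inl (c1 ▸ a4 n (hn.trans_le b2))
      · exact Or.inr (a3.outT c1)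
  | split l u _ _ ih1 ih2 =>
    intro q a1 a2 a3 a4
    obtain ⟨q1, b, b1, b2, b3, b4⟩ := hj.decide a1 a2 l
    have : ∀ n < l + 1, d.Zd q1 j0 n (update u l b n) := by
      intro n hn
      rcases lt_or_eq_of_le (Nat.le_of_lt_succ hn) with h | rfl
      · rw [update_of_ne h.ne]; exact (a4 n h).mono b3
      · simpa using b4
    cases b
    · obtain ⟨q', r0, C, m0, c1, c2, c3, c4⟩ := ih1 q1 b1 b2 (b3.trans a3) this
      exact ⟨q', r0, C, m0, c1, c2, c3.trans b3, c4⟩
    · obtain ⟨q', r0, C, m0, c1, c2, c3, c4⟩ := ih2 q1 b1 b2 (b3.trans a3) this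
      exact ⟨q', r0, C, m0, c1, c2, c3.trans b3, c4⟩

variable (d) in
/-- the leftmost uncovered branch -/
def Br (B : Set L) (cov : Raw L J → ℕ → (ℕ → Bool) → Prop) (r : Raw L J) :
    ℕ → (ℕ → Bool) → Prop
  | 0, _ => True
  | l + 1, u => Br B cov r l u ∧ (u l = true → cov r (l + 1) (update u l false)) ∧
      (u l = false → ∀ r', d.PA B r' → d.Le r' r → ¬ cov r' (l + 1) u)

section br
variable {B : Set L} {cov : Raw L J → ℕ → (ℕ → Bool) → Prop}
  (hcov : ∀ r r' l u u', cov r l u → d.Le r' r → (∀ n < l, u' n = u n) → cov r' l u')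
include hcov

theorem Br.mono {r r' : Raw L J} (hr : d.Le r' r) {l : ℕ} {u u' : ℕ → Bool}
    (h : d.Br B cov r l u) (hu : ∀ n < l, u' n = u n) : d.Br B cov r' l u' := by
  induction l with
  | zero => trivial
  | succ l ih =>
    refine ⟨ih h.1 fun n hn => hu n (by omega), fun h1 => ?_, fun h1 r'' h2 h3 h4 => ?_⟩
    · refine hcov _ _ _ _ _ (h.2.1 (hu l (by omega) ▸ h1)) hr fun n hn => ?_
      rcases lt_or_eq_of_le (Nat.le_of_lt_succ hn) with h | rfl
      · rw [update_of_ne h.ne, update_of_ne h.ne, hu n hn]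
      · simp
    · exact h.2.2 (hu l (by omega) ▸ h1) r'' h2 (h3.trans hr)
        (hcov _ _ _ _ _ h4 (le_refl _) fun n hn => (hu n hn).symm)

omit hcov in
theorem Br.of_le {r : Raw L J} {l l' : ℕ} {u : ℕ → Bool} (h : d.Br B cov r l u) (hl : l' ≤ l) :
    d.Br B cov r l' u := by
  induction hl with
  | refl => exact h
  | step _ ih => exact ih h.1

theorem Br.unique {r : Raw L J} (hr : d.PA B r) {l : ℕ} {u u' : ℕ → Bool}
    (h : d.Br B cov r l u) (h' : d.Br B cov r l u') : ∀ n < l, u n = u' n := by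
  induction l with
  | zero => intro n hn; omega
  | succ l ih =>
    have ih' := ih h.1 h'.1
    have key : ∀ v v' : ℕ → Bool, d.Br B cov r (l + 1) v → d.Br B cov r (l + 1) v' →
        (∀ n < l, v n = v' n) → v l = true → v' l = false → False := by
      intro v v' a1 a2 a3 a4 a5
      refine a2.2.2 a5 r hr (le_refl r) (hcov _ _ _ _ _ (a1.2.1 a4) (le_refl r) fun n hn => ?_)
      rcases lt_or_eq_of_le (Nat.le_of_lt_succ hn) with h | rfl
      · rw [update_of_ne h.ne, a3 n h]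
      · simpa using a5
    intro n hn
    rcases lt_or_eq_of_le (Nat.le_of_lt_succ hn) with h1 | rfl
    · exact ih' n h1
    · cases h2 : u n <;> cases h3 : u' n
      · rfl
      · exact (key u' u h' h (fun n hn => (ih' n hn).symm) h3 h2).elim
      · exact (key u u' h h' ih' h2 h3).elim
      · rfl

theorem br_dense (l : ℕ) {r : Raw L J} (hr : d.PA B r) :
    ∃ r' u, d.PA B r' ∧ d.Le r' r ∧ d.Br B cov r' l u := by
  induction l with
  | zero => exact ⟨r, fun _ => false, hr, le_refl r, trivial⟩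
  | succ l ih =>
    obtain ⟨r1, u, a1, a2, a3⟩ := ih
    by_cases h : ∃ r2, d.PA B r2 ∧ d.Le r2 r1 ∧ cov r2 (l + 1) (update u l false)
    · obtain ⟨r2, b1, b2, b3⟩ := h
      refine ⟨r2, update u l true, b1, b2.trans a2, Br.mono hcov b2 a3 fun n hn =>
        update_of_ne hn.ne _ _, fun _ => by rwa [update_idem], fun h => by simp at h⟩
    · push Not at h
      exact ⟨r1, update u l false, a1, a2, Br.mono hcov (le_refl _) a3 fun n hn =>
        update_of_ne hn.ne _ _, fun h => by simp at h, fun _ => h⟩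

theorem Br.not_cov
    (hsplit : ∀ r l u, cov r (l + 1) (update u l false) → cov r (l + 1) (update u l true) →
      cov r l u) {r0 : Raw L J} (h0 : ∀ r u, d.PA B r → d.Le r r0 → ¬ cov r 0 u)
    {r : Raw L J} (hr : d.Le r r0) {l : ℕ} {u : ℕ → Bool} (h : d.Br B cov r l u) :
    ∀ r', d.PA B r' → d.Le r' r → ¬ cov r' l u := by
  induction l with
  | zero => exact fun r' h1 h2 => h0 r' u h1 (h2.trans hr)
  | succ l ih =>
    intro r' h1 h2 h3
    cases h4 : u l
    · exact h.2.2 h4 r' h1 h2 h3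
    · refine ih h.1 r' h1 h2 (hsplit _ _ _ (hcov _ _ _ _ _ (h.2.1 h4) h2 fun _ _ => rfl) ?_)
      rwa [← h4, update_eq_self]

end br

variable {A : Set L}

theorem st_compact (hA : d.Closed A) {β : L} (h : d.St A (Iic β) (Iio β)) :
    d.St A (Iic β) (Iic β) := by
  classical
  intro p T c n0 D hp hpI hT hc hD
  have hQ := qProp_of_st h
  have hB : d.Closed (A ∩ Iic β) := hA.inter (closed_lower (isLowerSet_Iic β))
  induction hk : (T.filter fun j => d.τ (d.η j) = β).card generalizing T D with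
  | zero =>
    refine h p T c n0 D hp hpI (fun j hj => ⟨(hT j hj).1, lt_of_le_of_ne (hT j hj).2.1 fun e => ?_,
      (hT j hj).2.2⟩) hc hD
    rw [Finset.card_eq_zero, Finset.filter_eq_empty_iff] at hk
    exact hk hj e
  | succ k ih =>
    obtain ⟨j0, hj0⟩ : (T.filter fun j => d.τ (d.η j) = β).Nonempty := by
      rw [← Finset.card_pos, hk]; omega
    obtain ⟨hj1, rfl⟩ := Finset.mem_filter.1 hj0
    obtain ⟨n, hn, r, C', m, q, a1, a2, a3, a4, a5, a6, a7⟩ := ih (T.erase j0)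
      (fun n r C' m => d.Cov (D n) (T.erase j0) j0 (d.τ (d.η j0)) r C' m 0 fun _ => false)
      (fun j hj => hT j (Finset.mem_of_mem_erase hj)) (by
        intro n r0 σ h1 h2 h3
        by_contra hcon
        let cov : Raw L J → ℕ → (ℕ → Bool) → Prop := fun r l u => ∃ C' m,
          d.Cov (D n) (T.erase j0) j0 (d.τ (d.η j0)) r C' m l u ∧
            ∀ x ∈ C', x.1 ∈ T.erase j0 → d.YW r (σ x.1) x.2
        have hcov : ∀ r r' l u u', cov r l u → d.Le r' r → (∀ n < l, u' n = u n) → cov r' l u' :=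
          fun r r' l u u' ⟨C', m, b1, b2⟩ b3 b4 =>
            ⟨C', m, b1.mono b3 subset_rfl le_rfl u' b4, fun x hx hx' => (b2 x hx hx').mono b3⟩
        have hsplit : ∀ r l u, cov r (l + 1) (update u l false) →
            cov r (l + 1) (update u l true) → cov r l u :=
          fun r l u ⟨C1, m1, b1, b2⟩ ⟨C2, m2, b3, b4⟩ => ⟨C1 ∪ C2, max m1 m2,
            .split l u (b1.mono (le_refl r) Finset.subset_union_left (le_max_left _ _) _
              fun _ _ => rfl) (b3.mono (le_refl r) Finset.subset_union_right (le_max_right _ _) _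
              fun _ _ => rfl),
            fun x hx hx' => (Finset.mem_union.1 hx).elim (b2 x · hx') (b4 x · hx')⟩
        have h0 : ∀ r u, d.PA (A ∩ Iic (d.τ (d.η j0))) r → d.Le r r0 → ¬ cov r 0 u :=
          fun r u b1 b2 ⟨C', m, b3, b4⟩ => hcon ⟨r, C', m,
            b3.mono (le_refl r) subset_rfl le_rfl _ (by simp), b1, b2, b4⟩
        obtain ⟨y, hy1, hy2⟩ := mkName hB inter_subset_right hQ
          (fun n r => ∃ u, d.Br (A ∩ Iic (d.τ (d.η j0))) cov r (n + 1) u ∧ u n = true)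
          (fun n r => ∃ u, d.Br (A ∩ Iic (d.τ (d.η j0))) cov r (n + 1) u ∧ u n = false)
          (fun n r hr => by
            obtain ⟨r', u, b1, b2, b3⟩ := br_dense hcov (n + 1) hr
            refine ⟨r', b1, b2, ?_⟩
            cases h : u n
            exacts [Or.inr ⟨u, b3, h⟩, Or.inl ⟨u, b3, h⟩])
          (fun n r w w' b1 _ _ b2 b3 ⟨u, b4, b5⟩ ⟨u', b6, b7⟩ => by
            have := Br.unique hcov b1 (Br.mono hcov b2 b4 fun _ _ => rfl)
              (Br.mono hcov b3 b6 fun _ _ => rfl) n (by omega)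
            rw [b5, b7] at this
            exact absurd this (by simp))
        obtain ⟨j', e1, e2⟩ := d.surj (d.η j0) y
        obtain ⟨r, C, m, b1, b2, b3, b4⟩ := hD n r0 (update σ j0 j') h1 h2 fun j hj => by
          by_cases e : j = j0
          · subst e
            rw [update_self]
            refine ⟨e1, ⟨e1 ▸ (hT j hj).1, fun n m => ?_⟩, by rw [e1, e2]; exact hy1⟩
            rw [e2]
            exact (hy2 n m).1.mono inter_subset_left
          · rw [update_of_ne e]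
            exact h3 j (Finset.mem_erase.2 ⟨e, hj⟩)
        let l := C.sup fun x => x.2.sup Prod.fst
        obtain ⟨r', u, c1, c2, c3⟩ := br_dense hcov l b2
        refine Br.not_cov hcov hsplit h0 (c2.trans b3) c3 r' c1 (le_refl _)
          ⟨C, m, .base l u r C m b1 c2 le_rfl (fun x hx _ => hx) fun W hW => ?_,
            fun x hx hx' => ?_⟩
        · obtain ⟨c, d1, d2⟩ := b4 _ hW hj1
          rw [update_self] at d2
          have hl : c.1 ≤ l := (Finset.le_sup (f := Prod.fst) d1).trans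
            (Finset.le_sup (f := fun x : J × Clop => x.2.sup Prod.fst) hW)
          have key : ∀ n < c.1, ∀ b, d.Zd' d.Le r j' n b → u n = b := by
            rintro n hn b ⟨m', f1, f2⟩
            rw [e2] at f1 f2
            have f3 : ∃ u', d.Br (A ∩ Iic (d.τ (d.η j0))) cov (y n m').1 (n + 1) u' ∧ u' n = b := by
              cases b
              exacts [(hy2 n m').2.2 f1, (hy2 n m').2.1 f1]
            obtain ⟨u', f4, f5⟩ := f3
            rw [← f5]
            exact Br.unique hcov c1 (c3.of_le (by omega))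
              (Br.mono hcov (c2.trans f2) f4 fun _ _ => rfl) n (by omega)
          refine ⟨c, d1, hl, fun n hn => ⟨fun h => ?_, fun h => ?_⟩⟩
          · obtain ⟨f1, f2⟩ := (d2 n hn).1 h
            exact ⟨key n hn _ f1, c2.inT (e1 ▸ f2)⟩
          · rcases (d2 n hn).2 h with f1 | f1
            · exact Or.inl (key n hn _ f1)
            · exact Or.inr (c2.outT (e1 ▸ f1))
        · have := b4 x hx (Finset.mem_of_mem_erase hx')
          rw [update_of_ne (Finset.ne_of_mem_erase hx')] at this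
          exact this.mono c2) (by
        rw [Finset.filter_erase, Finset.card_erase_of_mem hj0, hk]; rfl)
    obtain ⟨q', r0, C, m0, b1, b2, b3, b4, b5, b6, b7, b8⟩ :=
      a1.transfer (hT j0 hj1).2.2 q a2 a3 a5 (by simp)
    refine ⟨n, hn, r0, C, m0, q', b4, b1, b2, b3.trans a4, b5, fun x hx hx' => ?_, fun γ hγ => ?_⟩
    · by_cases e : x.1 = j0
      · rw [e]
        exact b8 x.2 (by rw [← e]; exact hx)
      · have := Finset.mem_erase.2 ⟨e, hx'⟩
        exact (a6 x (b7 x hx this) this).mono b3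
    · obtain ⟨c1, a, c2, c3⟩ := b3.omit (a7 γ hγ)
      exact ⟨fun a ha => (c1 a ha).imp id b6.trans, a, c2, b6.trans c3⟩

theorem st_Iic (hA : d.Closed A) (β : L) : d.St A (Iic β) (Iic β) := by
  induction β using WellFoundedLT.induction with
  | ind β ih =>
  have h1 : d.St A (Iio β) (Iio β) := st_lower (isLowerSet_Iio β) ih
  refine st_compact hA ?_
  by_cases hβ : β ∈ A
  exacts [st_succ_mem hA hβ h1, st_succ_not_mem hA hβ h1]

/-- the preservation theorem -/
theorem preservation (hA : d.Closed A) {p : Raw L J} (hp : d.Valid p) (c : Finset L)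
    (hc : ∀ γ ∈ c, γ ∉ A ∧ d.IsCohen γ) (n0 : ℕ) (D : ℕ → Raw L J → ℕ → Prop)
    (hD : ∀ n r, d.PA A r → ∃ r' m, d.PA A r' ∧ d.Le r' r ∧ D n r' m) :
    ∃ n ≥ n0, ∃ r m q, D n r m ∧ d.Valid q ∧ d.Le q p ∧ d.Le q r ∧ ∀ γ ∈ c, Omit q γ n m := by
  obtain ⟨n, hn, r, C, m, q, a1, a2, -, a3, a4, -, a5⟩ :=
    st_lower (A := A) isLowerSet_univ (fun γ _ => st_Iic hA γ) p ∅ c n0 (fun n r _ m => D n r m)
      hp ⟨by simp, by simp⟩ (by simp) (fun γ hγ => ⟨trivial, hc γ hγ⟩) fun n r0 σ b1 _ _ => by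
        rw [inter_univ] at b1 ⊢
        obtain ⟨r, m, c1, c2, c3⟩ := hD n r0 b1
        exact ⟨r, ∅, m, c3, c1, c2, by simp⟩
  exact ⟨n, hn, r, m, q, a1, a2, a3, a4, a5⟩

end Data

end Pool.Agent.P.MP_27b523_gt
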