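import Pool.Agent.Lib.Helper87.CodeDefs

namespace Pool.Agent.P.MP_27b523_gt

open Set Pool.Agent.Lib.Helper87 Coded

/-- the Cantor space, identified with the power set of `ℕ` -/
abbrev Cantor : Type := ℕ → Bool

/-- the finite subsets of `ℕ` -/
def FinSets : Set Cantor := {x | {n | x n}.Finite}

section
variable {T : Type}

/-- all members of `𝒰` are relatively open subsets of `Z` -/
def OpenFam [TopologicalSpace T] (Z : Set T) (𝒰 : Set (Set T)) : Prop :=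
  ∀ U ∈ 𝒰, ∃ V, IsOpen V ∧ U = Z ∩ V

def OmegaCover (Z : Set T) (𝒰 : Set (Set T)) : Prop :=
  Z ∉ 𝒰 ∧ ∀ F ⊆ Z, F.Finite → ∃ U ∈ 𝒰, F ⊆ U

def GammaCover (Z : Set T) (𝒰 : Set (Set T)) : Prop :=
  𝒰.Infinite ∧ ∀ z ∈ Z, {U ∈ 𝒰 | z ∉ U}.Finite

variable [TopologicalSpace T] [Coded T]

/-- `Y` has the `γ`-property in `M` -/
def GammaProp (M : Set ZFSet.{0}) (Y : Set T) : Prop :=
  ∀ 𝒰 : Set (Set T), code 𝒰 ∈ M → OpenFam Y 𝒰 → OmegaCover Y 𝒰 →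
    ∃ 𝒱 ⊆ 𝒰, code 𝒱 ∈ M ∧ GammaCover Y 𝒱

/-- `Z` satisfies `S₁(Γ,Ω)` in `M` -/
def S1GammaOmega (M : Set ZFSet.{0}) (Z : Set T) : Prop :=
  ∀ 𝒰 : ℕ → Set (Set T), code 𝒰 ∈ M → (∀ n, OpenFam Z (𝒰 n) ∧ GammaCover Z (𝒰 n)) →
    ∃ U : ℕ → Set T, code U ∈ M ∧ (∀ n, U n ∈ 𝒰 n) ∧ OmegaCover Z (range U)

end

/-- `X` is `κ`-fin-unbounded in `M` -/
def FinUnbounded (M : Set ZFSet.{0}) (κ : ZFSet.{0}) (X : Set Cantor) : Prop :=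
  (∀ x ∈ X, {n | x n}.Infinite) ∧ CardLE M κ (code X) ∧
    ∀ d : Cantor, code d ∈ M → {n | d n}.Infinite →
      ∃ S ⊆ X, code S ∈ M ∧ (∃ α ∈ κ, CardLE M (code S) α) ∧ ∀ F ⊆ X \ S, F.Finite →
        {i | ∀ x ∈ F, ∀ n ∈ Ico (Nat.nth (d ·) i) (Nat.nth (d ·) (i + 1)), ¬ x n}.Infinite

end Pool.Agent.P.MP_27b523_gt
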