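import Pool.Agent.P.MP_27b523_gt.Compact

/-!
Density arguments in the ground model, closed countable sets, and existence of the data.
-/

open Set Function

namespace Pool.Agent.P.MP_27b523_gt

variable {O L J : Type} [LinearOrder O] [OrderBot O] [LinearOrder L] [WellFoundedLT L]

namespace Data

variable {d : Data O L J}

omit [WellFoundedLT L] in
theorem τ_mono {ξ ξ' : O} (h : ξ < ξ') : d.τ ξ < d.τ ξ' := d.τ_lt _ _ (by rwa [d.blk_τ])

theorem nameOK_const (l : L) (b : ℕ → Bool) : d.NameOK l fun n _ => ((∅, ∅), b n) :=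
  ⟨fun _ _ => ⟨⟨by simp, by simp⟩, valid_empty⟩,
    fun _ p h1 h2 => ⟨p, 0, h1, h2, le_refl p, le_empty p⟩, fun _ _ _ _ _ _ _ _ => rfl⟩

theorem exists_top_side {ξ ξ' : O} (h : ξ < ξ') :
    ∃ j, d.η j = ξ ∧ (∀ n m, d.z j n m = ((∅, ∅), true)) ∧ d.SideOK (d.τ ξ') j := by
  obtain ⟨j, h1, h2⟩ := d.surj ξ fun _ _ => ((∅, ∅), true)
  refine ⟨j, h1, fun n m => by rw [h2], by rwa [h1, d.blk_τ], fun _ n m => by rw [h2], ?_⟩
  rw [h2]
  exact nameOK_const _ fun _ => true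

theorem Adm.towOK {ξ : O} {a : Elt} {p : Raw L J} (h : d.Adm (d.τ ξ) a p) : TowOK a :=
  let ⟨_, h1, _⟩ := h; ((d.Rn_tower _ _ _).1 h1).1

theorem adm_tower {ξ : O} {a : Elt} (h : TowOK a) (p : Raw L J) : d.Adm (d.τ ξ) a p :=
  ⟨_, (d.Rn_tower _ _ _).2 ⟨h, rfl⟩, ⟨by simp, by simp⟩, valid_empty, le_empty p⟩

omit [WellFoundedLT L] in
theorem YW.inT {q : Raw L J} {j : J} {a : Elt} (h : d.YW q j a.2.2) (ha : TowOK a) :
    InT q (d.τ (d.η j)) a.1 := by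
  obtain ⟨c, h1, h2⟩ := h
  exact ((h2 _ (ha c h1).1).1 (ha c h1).2).2

variable (d) in
/-- extension at a tower coordinate by exactly one element -/
def ExtTower (ξ : O) : Prop :=
  ∀ p, d.Valid p → ∀ k0, ∃ q a, d.Valid q ∧ d.Le q p ∧ k0 ≤ a.1 ∧ (d.τ ξ, a) ∈ q.1 ∧
    (∀ b, (d.τ ξ, b) ∈ q.1 → b = a ∨ (d.τ ξ, b) ∈ p.1) ∧
    ∀ γ, d.τ ξ < γ → (∀ b, (γ, b) ∈ q.1 → (γ, b) ∈ p.1) ∧ ∀ j, (γ, j) ∈ q.2 → (γ, j) ∈ p.2

theorem common_elt {ξ : O} (ih : ∀ η < ξ, d.ExtTower η) {p : Raw L J} (hp : d.Valid p)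
    (H : Finset O) (hH : ∀ η ∈ H, η < ξ) (k0 : ℕ) :
    ∃ q k, d.Valid q ∧ d.Le q p ∧ k0 ≤ k ∧ ∀ η ∈ H, InT q (d.τ η) k := by
  classical
  rcases H.eq_empty_or_nonempty with rfl | hne
  · exact ⟨p, k0, hp, le_refl p, le_rfl, by simp⟩
  let η0 := H.max' hne
  have h1 : ∀ η : {η // η < η0}, ∃ j, d.η j = η.1 ∧ d.SideOK (d.τ η0) j := fun η =>
    let ⟨j, a, _, b⟩ := exists_top_side (d := d) η.2; ⟨j, a, b⟩
  choose f hf using h1
  obtain ⟨a1, a2⟩ := add_sides hp ((H.subtype (· < η0)).image fun η => (d.τ η0, f η))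
    fun β j hj => by
      obtain ⟨η, -, e⟩ := Finset.mem_image.1 hj
      obtain ⟨rfl, rfl⟩ := Prod.mk.inj e
      exact (hf η).2
  obtain ⟨q, a, b1, b2, b3, b4, -⟩ := ih η0 (hH _ (H.max'_mem hne)) _ a1
    (max k0 (p.1.sup (fun x => x.2.1) + 1))
  have b5 : (d.τ η0, a) ∉ (un p (∅, (H.subtype (· < η0)).image fun η => (d.τ η0, f η))).1 := by
    intro h
    have h' := (mem_un1.1 h).resolve_right (by simp)
    have := Finset.le_sup (f := fun x : L × Elt => x.2.1) h'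
    have := le_of_max_le_right b3
    simp only at *
    omega
  refine ⟨q, a.1, b1, b2.trans a2, le_of_max_le_left b3, fun η hη => ?_⟩
  rcases lt_or_eq_of_le (H.le_max' η hη) with h | h
  · have := (b2.yw b4 b5 (j := f ⟨η, h⟩) (mem_un2.2 (Or.inr (Finset.mem_image.2
      ⟨⟨η, h⟩, Finset.mem_subtype.2 hη, rfl⟩)))).inT (b1.adm b4).towOK
    rwa [(hf _).1] at this
  · exact ⟨a, h ▸ b4, rfl⟩

theorem extTower [WellFoundedLT O] (ξ : O) : d.ExtTower ξ := by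
  classical
  induction ξ using WellFoundedLT.induction with
  | ind ξ ih =>
  intro p hp k0
  obtain ⟨q0, k, a1, a2, a3, a4⟩ := common_elt ih hp
    ((p.2.filter fun x => x.1 = d.τ ξ).image fun x => d.η x.2) (fun η hη => by
      obtain ⟨⟨β, j⟩, h1, rfl⟩ := Finset.mem_image.1 hη
      obtain ⟨h2, h3⟩ := Finset.mem_filter.1 h1
      simp only at h3
      subst h3
      simpa [d.blk_τ] using (hp.side h2).1) (max k0 (p.1.sup (fun x => x.2.1) + 1))
  have hlow := isLowerSet_Iio (d.τ ξ)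
  obtain ⟨b1, b2, b3⟩ := amalg hlow (a1.res (closed_lower hlow)) (res_suppIn _ _) hp
    ((a2.trans (le_res _ p)).res (res_inA _ _))
  set q2 := un (d.res (Iio (d.τ ξ)) q0) p with hq2
  let a : Elt := (k, 0, ((Finset.range (k + 1)).powerset.filter fun u => k ∈ u).image
    fun u => (k + 1, u))
  have ha : TowOK a := by
    intro c hc
    obtain ⟨u, h1, rfl⟩ := Finset.mem_image.1 hc
    exact ⟨Nat.lt_succ_self k, (Finset.mem_filter.1 h1).2⟩
  have hge : ∀ γ, d.τ ξ ≤ γ → (∀ b, (γ, b) ∈ q2.1 → (γ, b) ∈ p.1) ∧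
      ∀ j, (γ, j) ∈ q2.2 → (γ, j) ∈ p.2 := fun γ hγ =>
    ⟨fun b hb => (mem_un1.1 hb).resolve_left fun h => absurd (mem_res1.1 h).2 (not_lt.2 hγ),
      fun b hb => (mem_un2.1 hb).resolve_left fun h => absurd (mem_res2.1 h).2.1 (not_lt.2 hγ)⟩
  obtain ⟨c1, c2⟩ := add_elt b1 (adm_tower (ξ := ξ) ha q2) (fun b hb => by
      have := Finset.le_sup (f := fun x : L × Elt => x.2.1) ((hge _ le_rfl).1 b hb)
      have := le_of_max_le_right a3
      simp only [a] at *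
      omega) (fun j hj => by
      have hj' := (hge _ le_rfl).2 j hj
      have hs := hp.side hj'
      have hz := hs.2.1 (by rw [d.blk_τ])
      have hin : InT q2 (d.τ (d.η j)) k := b2.inT ((a4 _ (Finset.mem_image.2
        ⟨_, Finset.mem_filter.2 ⟨hj', rfl⟩, rfl⟩)).res hs.lt)
      refine ⟨(k + 1, (Finset.range (k + 1)).filter (InT q2 (d.τ (d.η j)))), Finset.mem_image.2
        ⟨_, Finset.mem_filter.2 ⟨Finset.mem_powerset.2 (Finset.filter_subset _ _),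
          Finset.mem_filter.2 ⟨by simp, hin⟩⟩, rfl⟩, fun n hn => ⟨fun h => ?_, fun h => ?_⟩⟩
      · exact ⟨⟨0, by rw [hz], by rw [hz]; exact le_empty _⟩, (Finset.mem_filter.1 h).2⟩
      · have h' : ¬ InT q2 (d.τ (d.η j)) n := fun h' =>
          h (Finset.mem_filter.2 ⟨Finset.mem_range.2 hn, h'⟩)
        obtain ⟨b, h1, h2⟩ := hin
        refine Or.inr ⟨fun b' hb' e => h' ⟨b', hb', e⟩, b, h1, ?_⟩
        have : n ≠ k := fun e => h' ⟨b, h1, h2.trans e.symm⟩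
        simp only at hn
        omega)
  refine ⟨_, a, c1, c2.trans b3, le_of_max_le_left a3,
    mem_un1.2 (Or.inr (Finset.mem_singleton_self _)), fun b hb => ?_, fun γ hγ => ⟨fun b hb => ?_,
      fun j hj => (hge γ hγ.le).2 j ((mem_un2.1 hj).resolve_right (by simp))⟩⟩
  · rcases mem_un1.1 hb with hb | hb
    · exact Or.inr ((hge _ le_rfl).1 b hb)
    · exact Or.inl (by simpa using hb)
  · rcases mem_un1.1 hb with hb | hb
    · exact (hge γ hγ.le).1 b hb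
    · simp only [Finset.mem_singleton, Prod.mk.injEq] at hb
      exact absurd hb.1 hγ.ne'

theorem ext_cohen {γ : L} (h : d.IsCohen γ) {p : Raw L J} (hp : d.Valid p) (k0 : ℕ) :
    ∃ q a, d.Valid q ∧ d.Le q p ∧ k0 ≤ a.1 ∧ (γ, a) ∈ q.1 := by
  obtain ⟨c1, c2⟩ := add_elt (a := (max k0 (p.1.sup (fun x => x.2.1) + 1), 0, ∅)) hp (h.adm _ _)
    (fun b hb => by
      have := Finset.le_sup (f := fun x : L × Elt => x.2.1) hb
      simp only at *
      omega) fun j hj => absurd (hp.side hj) (h.not_side j)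
  exact ⟨_, _, c1, c2, le_max_left _ _, mem_un1.2 (Or.inr (Finset.mem_singleton_self _))⟩

/-- a condition living on one tower coordinate -/
noncomputable def stemAt (β : L) (S : Finset Elt) : Raw L J :=
  open Classical in (S.image fun b => (β, b), ∅)

omit [WellFoundedLT L] in
theorem mem_stemAt {β γ : L} {S : Finset Elt} {b : Elt} :
    (γ, b) ∈ (stemAt (J := J) β S).1 ↔ γ = β ∧ b ∈ S := by
  simp only [stemAt, Finset.mem_image, Prod.mk.injEq]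
  constructor
  · rintro ⟨_, h, rfl, rfl⟩
    exact ⟨rfl, h⟩
  · rintro ⟨rfl, h⟩
    exact ⟨b, h, rfl, rfl⟩

/-- the stem of `p` at `β` -/
noncomputable def stem (p : Raw L J) (β : L) : Finset Elt :=
  (p.1.filter fun x => x.1 = β).image Prod.snd

omit [WellFoundedLT L] in
theorem mem_stem {p : Raw L J} {β : L} {b : Elt} : b ∈ stem p β ↔ (β, b) ∈ p.1 := by
  simp only [stem, Finset.mem_image, Finset.mem_filter, Prod.exists, exists_eq_right]

/-- joining a condition below `τ ξ` with the stem at `τ ξ` of a condition -/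
theorem un_stem {ξ : O} {q r : Raw L J} (hq : d.Valid q) (hr : d.Valid r)
    (hs : SuppIn r (Iio (d.τ ξ))) (h : d.Le q r) :
    d.Valid (un r (stemAt (d.τ ξ) (stem q (d.τ ξ)))) ∧
      d.Le q (un r (stemAt (d.τ ξ) (stem q (d.τ ξ)))) ∧
      d.Le (un r (stemAt (d.τ ξ) (stem q (d.τ ξ)))) r ∧
      SuppIn (un r (stemAt (d.τ ξ) (stem q (d.τ ξ)))) (Iic (d.τ ξ)) := by
  have hv : d.Valid (stemAt (d.τ ξ) (stem q (d.τ ξ))) := by
    refine valid_intro (fun β a ha => ?_) (by simp [stemAt])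
    obtain ⟨rfl, h⟩ := mem_stemAt.1 ha
    exact adm_tower (hq.adm (mem_stem.1 h)).towOK _
  obtain ⟨a1, a2, -⟩ := amalg (isLowerSet_Iio (d.τ ξ)) hr hs hv (le_of_agree
    (fun ⟨β, a⟩ ha => absurd (mem_res1.1 ha).2 (by simp [(mem_stemAt.1 (res_sub1 ha)).1]))
    (fun ⟨β, a⟩ ha => absurd (res_sub2 ha) (by simp [stemAt])) fun β a _ _ =>
      ⟨fun b hb => absurd (mem_res1.1 hb).2 (by simp [(mem_stemAt.1 (res_sub1 hb)).1]),
        fun b hb => absurd (res_sub2 hb) (by simp [stemAt])⟩)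
  refine ⟨a1, le_intro (fun ⟨β, a⟩ ha => ?_) (fun x hx => ?_) fun β a ha ha' => ?_, a2,
    (hs.mono Iio_subset_Iic_self).un ⟨fun β a ha => (mem_stemAt.1 ha).1.le, by simp [stemAt]⟩⟩
  · rcases mem_un1.1 ha with ha | ha
    · exact h.sub1 ha
    · obtain ⟨rfl, h⟩ := mem_stemAt.1 ha
      exact mem_stem.1 h
  · exact h.sub2 ((mem_un2.1 hx).resolve_right (by simp [stemAt]))
  · have h1 : β ≠ d.τ ξ := fun e =>
      ha' (mem_un1.2 (Or.inr (mem_stemAt.2 ⟨e, mem_stem.2 (e ▸ ha)⟩)))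
    have h2 : (β, a) ∉ r.1 := fun h => ha' (mem_un1.2 (Or.inl h))
    exact ⟨fun b hb => h.lt ha h2 ((mem_un1.1 hb).resolve_right fun h => h1 (mem_stemAt.1 h).1),
      fun j hj => h.yw ha h2 ((mem_un2.1 hj).resolve_right (by simp [stemAt]))⟩

variable (d) in
/-- witnesses for admissibility at a selector coordinate -/
def selRn (ξ : O) (b0 : Elt → Set (Raw L J)) (a : Elt) : Set (Raw L J) :=
  {w | ∃ r ∈ b0 a, ∃ S : Finset Elt, w = un r (stemAt (d.τ ξ) S) ∧ d.Le w r ∧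
    Omit w (d.τ ξ) a.1 a.2.1}

omit [WellFoundedLT L] in
theorem selRn_countable (ξ : O) {b0 : Elt → Set (Raw L J)} (h : ∀ a, (b0 a).Countable) (a : Elt) :
    (d.selRn ξ b0 a).Countable := by
  refine ((h a).biUnion fun r _ => countable_range fun S : Finset Elt =>
    un r (stemAt (d.τ ξ) S)).mono ?_
  rintro w ⟨r, h1, S, rfl, -⟩
  exact mem_biUnion h1 (mem_range_self S)

theorem sel_adm {ξ : O} {β : L} {b0 : Elt → Set (Raw L J)} (hβ : d.Rn β = d.selRn ξ b0)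
    {p : Raw L J} (hp : d.Valid p) {a : Elt} (ha : (β, a) ∈ p.1) :
    (∃ r ∈ b0 a, d.Le p r) ∧ Omit p (d.τ ξ) a.1 a.2.1 := by
  obtain ⟨w, h1, -, -, h2⟩ := hp.adm ha
  rw [hβ] at h1
  obtain ⟨r, h3, S, -, h4, h5⟩ := h1
  exact ⟨⟨r, h3, h2.trans h4⟩, h2.omit h5⟩

theorem sel_dense [WellFoundedLT O] {ξ : O} {β : L} {b0 : Elt → Set (Raw L J)}
    (hb0 : ∀ a, ∀ r ∈ b0 a, d.Valid r ∧ SuppIn r (Iio (d.τ ξ)))
    (hβ : d.Rn β = d.selRn ξ b0) (hβ1 : d.blk β = ξ) (hβ2 : d.τ ξ < β) {p : Raw L J}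
    (hp : d.Valid p)
    (hΨ : ∀ F : Finset J, (∀ j ∈ F, d.SideOK β j) → ∀ k, ∃ q m W r, d.Valid q ∧ d.Le q p ∧
      r ∈ b0 (k, m, W) ∧ d.Le q r ∧ ∀ j ∈ F, d.YW q j W) (k0 : ℕ) :
    ∃ q a, d.Valid q ∧ d.Le q p ∧ k0 ≤ a.1 ∧ (β, a) ∈ q.1 := by
  classical
  let k := max k0 (p.1.sup (fun x => x.2.1) + 1)
  have hk : ∀ γ b, (γ, b) ∈ p.1 → b.1 < k := fun γ b hb => by
    have := Finset.le_sup (f := fun x : L × Elt => x.2.1) hb
    simp only [k] at *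
    omega
  obtain ⟨q1, m, W, r, a1, a2, a3, a4, a5⟩ := hΨ
    ((p.2.filter fun x => x.1 = β).image Prod.snd) (fun j hj => by
      obtain ⟨⟨γ, j⟩, h1, rfl⟩ := Finset.mem_image.1 hj
      obtain ⟨h2, h3⟩ := Finset.mem_filter.1 h1
      simp only at h3
      subst h3
      exact hp.side h2) k
  have hlow := isLowerSet_Iio (d.τ ξ)
  obtain ⟨b1, b2, b3⟩ := amalg hlow (a1.res (closed_lower hlow)) (res_suppIn _ _) hp
    ((a2.trans (le_res _ p)).res (res_inA _ _))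
  set q3 := un (d.res (Iio (d.τ ξ)) q1) p with hq3
  have hge : ∀ γ, d.τ ξ ≤ γ → (∀ b, (γ, b) ∈ q3.1 → (γ, b) ∈ p.1) ∧
      ∀ j, (γ, j) ∈ q3.2 → (γ, j) ∈ p.2 := fun γ hγ =>
    ⟨fun b hb => (mem_un1.1 hb).resolve_left fun h => absurd (mem_res1.1 h).2 (not_lt.2 hγ),
      fun b hb => (mem_un2.1 hb).resolve_left fun h => absurd (mem_res2.1 h).2.1 (not_lt.2 hγ)⟩
  obtain ⟨q4, a', c1, c2, c3, c4, c5, c6⟩ := extTower ξ q3 b1 m
  have hr := hb0 _ r a3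
  have c7 : d.Le q4 r := c2.trans (b2.trans (a4.res (hr.1.inA hlow hr.2)))
  obtain ⟨d1, d2, d3, d4⟩ := un_stem c1 hr.1 hr.2 c7
  obtain ⟨e1, e2⟩ := add_elt (β := β) (a := (k, m, W)) c1
    ⟨_, by
      rw [hβ]
      refine ⟨r, a3, _, rfl, d3, fun b hb => ?_, a', mem_un1.2 (Or.inr (mem_stemAt.2
        ⟨rfl, mem_stem.2 c4⟩)), c3⟩
      rcases c5 b (d2.sub1 hb) with rfl | h
      · exact Or.inr c3
      · exact Or.inl (hk _ _ ((hge _ le_rfl).1 b h)),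
      d4.mono fun x hx => lt_of_le_of_lt hx hβ2, d1, d2⟩
    (fun b hb => hk _ _ ((hge _ hβ2.le).1 b ((c6 β hβ2).1 b hb))) (fun j hj => by
      have hj' := (hge _ hβ2.le).2 j ((c6 β hβ2).2 j hj)
      have hs := hp.side hj'
      exact ((a5 j (Finset.mem_image.2 ⟨_, Finset.mem_filter.2 ⟨hj', rfl⟩, rfl⟩)).res
        (hs.2.2.aname hlow (τ_mono (hβ1 ▸ hs.1)))).mono (c2.trans b2))
  exact ⟨_, _, e1, e2.trans (c2.trans b3), le_max_left _ _,
    mem_un1.2 (Or.inr (Finset.mem_singleton_self _))⟩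

omit [WellFoundedLT L] in
theorem exists_supp_bound {S : Set (Raw L J)} (hS : S.Countable) :
    ∃ ξ ≠ ⊥, ∀ r ∈ S, SuppIn r (Iio (d.τ ξ)) := by
  obtain ⟨ξ, h1, h2⟩ := d.bdd (⋃ r ∈ S, (Prod.fst '' (r.1 : Set (L × Elt)) ∪
    Prod.fst '' (r.2 : Set (L × J)))) (hS.biUnion fun r _ =>
      ((r.1.countable_toSet).image _).union ((r.2.countable_toSet).image _))
  exact ⟨ξ, h1, fun r hr => ⟨fun β a h => h2 β (mem_biUnion hr (Or.inl ⟨_, h, rfl⟩)),
    fun β a h => h2 β (mem_biUnion hr (Or.inr ⟨_, h, rfl⟩))⟩⟩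

theorem _root_.Pool.Agent.P.MP_27b523_gt.exists_countable_closure {X : Type*} (f : X → Set X)
    (hf : ∀ x, (f x).Countable) {S : Set X} (hS : S.Countable) :
    ∃ T : Set X, T.Countable ∧ S ⊆ T ∧ ∀ x ∈ T, f x ⊆ T := by
  let s : ℕ → Set X := fun n => Nat.rec S (fun _ A => ⋃ x ∈ A, f x) n
  refine ⟨⋃ n, s n, countable_iUnion fun n => ?_, subset_iUnion s 0, fun x hx y hy => ?_⟩
  · induction n with
    | zero => exact hS
    | succ n ih => exact ih.biUnion fun x _ => hf x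
  · obtain ⟨n, hn⟩ := mem_iUnion.1 hx
    exact mem_iUnion.2 ⟨n + 1, mem_biUnion hn hy⟩

theorem exists_closed {S : Set (Raw L J)} (hS : S.Countable) :
    ∃ A : Set L, A.Countable ∧ d.Closed A ∧ ∀ p ∈ S, d.Valid p → d.InA A p := by
  let f : L ⊕ Raw L J → Set (L ⊕ Raw L J) := fun x => match x with
    | .inl β => Sum.inr '' (⋃ a, d.Rn β a) ∪ (fun ξ => Sum.inl (d.τ ξ)) '' Iio (d.blk β)
    | .inr p => (fun x => Sum.inl x.1) '' (p.1 : Set (L × Elt)) ∪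
        (fun x => Sum.inl x.1) '' (p.2 : Set (L × J)) ∪
        (fun x => Sum.inl (d.τ (d.η x.2))) '' (p.2 : Set (L × J)) ∪
        ⋃ x ∈ (p.2 : Set (L × J)), range fun y : ℕ × ℕ => Sum.inr (d.z x.2 y.1 y.2).1
  obtain ⟨T, h1, h2, h3⟩ := exists_countable_closure f (fun x => by
    cases x with
    | inl β =>
      exact ((countable_iUnion (d.Rn_countable β)).image _).union ((d.Iio_countable _).image _)
    | inr p =>
      exact (((p.1.countable_toSet.image _).union (p.2.countable_toSet.image _)).union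
        (p.2.countable_toSet.image _)).union
        (p.2.countable_toSet.biUnion fun _ _ => countable_range _)) (hS.image Sum.inr)
  have key0 : ∀ p, Sum.inr p ∈ T → (∀ β j n m, (β, j) ∈ p.2 →
      d.InA {β | Sum.inl β ∈ T} (d.z j n m).1) → d.InA {β | Sum.inl β ∈ T} p := fun p hp h =>
    ⟨p, fun β a ha => h3 _ hp (Or.inl (Or.inl (Or.inl ⟨_, ha, rfl⟩))),
      fun β a ha => h3 _ hp (Or.inl (Or.inl (Or.inr ⟨_, ha, rfl⟩))),
      fun β a ha => h3 _ hp (Or.inl (Or.inr ⟨_, ha, rfl⟩)), h⟩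
  have key1 : ∀ p, Sum.inr p ∈ T → ∀ β j n m, (β, j) ∈ p.2 → Sum.inr (d.z j n m).1 ∈ T :=
    fun p hp β j n m hj => h3 _ hp (Or.inr (mem_biUnion hj ⟨(n, m), rfl⟩))
  have key : ∀ γ p, Sum.inr p ∈ T → d.Valid p → SuppIn p (Iic γ) →
      d.InA {β | Sum.inl β ∈ T} p := by
    intro γ
    induction γ using WellFoundedLT.induction with
    | ind γ ih =>
    intro p a1 a2 a3
    refine key0 p a1 fun β j n m hj => ?_
    have hs := a2.side hj
    exact ih _ (hs.lt.trans_le (a3.2 β j hj)) _ (key1 p a1 β j n m hj) (hs.2.2.1 n m).2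
      (hs.2.2.1 n m).1
  have key' : ∀ p, Sum.inr p ∈ T → d.Valid p → d.InA {β | Sum.inl β ∈ T} p := fun p a1 a2 =>
    key0 p a1 fun β j n m hj => key _ _ (key1 p a1 β j n m hj) ((a2.side hj).2.2.1 n m).2
      ((a2.side hj).2.2.1 n m).1
  refine ⟨{β | Sum.inl β ∈ T}, h1.preimage Sum.inl_injective, fun β hβ =>
    ⟨fun a r hr _ hv => key' r (h3 _ hβ (Or.inl ⟨r, mem_iUnion.2 ⟨a, hr⟩, rfl⟩)) hv,
      fun ξ hξ => h3 _ hβ (Or.inr ⟨ξ, hξ, rfl⟩)⟩, fun p hp => key' p (h2 ⟨p, hp, rfl⟩)⟩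

end Data

end Pool.Agent.P.MP_27b523_gt
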