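import Pool.Agent.P.MP_27b523_gt.World

/-!
The set `XX` is fin-unbounded in the extension.
-/

open Set Function Filter

namespace Pool.Agent.P.MP_27b523_gt

open Pool.Agent.Lib.Helper87 Coded

theorem infinite_intervals {d : Cantor} (hd : {n | d n}.Infinite) {F : Set Cantor}
    (h : ∀ n0, ∃ v v', n0 ≤ v ∧ v < v' ∧ d v = true ∧ d v' = true ∧ ∀ x ∈ F, Om x v v') :
    {i | ∀ x ∈ F, ∀ n ∈ Ico (Nat.nth (d ·) i) (Nat.nth (d ·) (i + 1)), ¬ x n}.Infinite := by
  refine infinite_of_forall_exists_gt fun k => ?_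
  obtain ⟨v, v', h1, h2, h3, h4, h5⟩ := h (Nat.nth (d ·) k + 1)
  have e1 : Nat.nth (d ·) (Nat.count (d ·) v) = v := Nat.nth_count h3
  have e2 : Nat.nth (d ·) (Nat.count (d ·) v') = v' := Nat.nth_count h4
  have hm := Nat.nth_strictMono hd
  refine ⟨Nat.count (d ·) v, fun x hx n hn => ?_, hm.lt_iff_lt.1 (by rw [e1]; omega)⟩
  have h6 : Nat.count (d ·) v < Nat.count (d ·) v' := hm.lt_iff_lt.1 (by rwa [e1, e2])
  have h7 := hm.monotone (Nat.succ_le_of_lt h6)
  rw [e2] at h7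
  rw [e1] at hn
  rw [h5 x hx n hn.1 (hn.2.trans_le h7)]
  simp

theorem measurable_infinite {P : Type} [Preorder P] {x : World P → Cantor} (h : Measurable x) :
    Measurable fun w => {n | x w n}.Infinite := by
  simp only [infinite_iff_exists_gt]
  exact Measurable.forall fun k => Measurable.exists fun n =>
    (measurable_bit h n true).and measurable_const

variable {O L J O2 : Type} [LinearOrder O] [OrderBot O] [LinearOrder L] [WellFoundedLT L]

namespace Data

variable {d : Data O L J}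

theorem cohen_ne {γ γ' : L} (h : d.IsCohen γ) (h' : d.IsCohen γ') (hne : γ ≠ γ') :
    ∀ᶠ w in gen d.PP, ∃ n, 2 ≤ n ∧ tt γ w n = true ∧ tt γ' w n = false := by
  filter_upwards [ev_generic, ev_dense0 (fun p : d.PP => ∃ n, 2 ≤ n ∧ InT p.1 γ n ∧ OutT p.1 γ' n)
    fun p => by
      let k := p.1.1.sup (fun x => x.2.1) + 2
      have hk : ∀ β b, (β, b) ∈ p.1.1 → b.1 < k := fun β b hb => by
        have := Finset.le_sup (f := fun x : L × Elt => x.2.1) hb
        simp only [k] at *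
        omega
      obtain ⟨a1, a2⟩ := add_elt (a := (k + 1, 0, ∅)) p.2 (h'.adm _ _)
        (fun b hb => (hk _ _ hb).trans (Nat.lt_succ_self k))
        fun j hj => absurd (p.2.side hj) (h'.not_side j)
      obtain ⟨b1, b2⟩ := add_elt (a := (k, 0, ∅)) a1 (h.adm _ _)
        (fun b hb => hk _ _ ((mem_un1.1 hb).resolve_right (by simp [hne])))
        fun j hj => absurd (a1.side hj) (h.not_side j)
      refine ⟨⟨_, b1⟩, b2.trans a2, k, Nat.le_add_left _ _,
        ⟨_, mem_un1.2 (Or.inr (Finset.mem_singleton_self _)), rfl⟩, b2.outT ⟨fun b hb => ?_,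
          _, mem_un1.2 (Or.inr (Finset.mem_singleton_self _)), Nat.lt_succ_self k⟩⟩
      rcases mem_un1.1 hb with hb | hb
      · exact (hk _ _ hb).ne
      · simp only [Finset.mem_singleton, Prod.mk.injEq, true_and] at hb
        simp [hb]] with w hw ⟨p, h1, n, h2, h3, h4⟩
  exact ⟨n, h2, tt_of_has (w.has_of_mem h1) h3, tt_of_out hw (w.has_of_mem h1) h4⟩

/-- preservation in semantic form -/
theorem exists_closed_omit {x : World d.PP → Cantor} (hx : Measurable x)
    (hinf : ∀ w, {n | x w n}.Infinite) : ∃ A : Set L, A.Countable ∧ ∀ c : Finset L,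
      ∀ᶠ w in gen d.PP, (∀ γ ∈ c, γ ∉ A ∧ d.IsCohen γ) → ∀ n0, ∃ v v', n0 ≤ v ∧ v < v' ∧
        x w v = true ∧ x w v' = true ∧ ∀ γ ∈ c, Om (tt γ w) v v' := by
  choose B hB1 hB2 hB3 hB4 using fun n => d.ccc_PP.exists_antichain
    {p | Sem p (fun w => x w n = true) ∨ Sem p fun w => ¬ x w n = true}
  obtain ⟨A, h1, h2, h3⟩ := exists_closed (d := d)
    (countable_iUnion fun n => (hB2 n).image Subtype.val)
  have h4 : ∀ n, ∀ r ∈ B n, d.InA A r.1 := fun n r hr =>
    h3 _ (mem_iUnion.2 ⟨n, r, hr, rfl⟩) r.2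
  have h5 : ∀ᶠ w in gen d.PP, ∀ n, x w n = true →
      ∃ r ∈ B n, w.Has r ∧ Sem r fun w => x w n = true := by
    refine ev_call fun n => ?_
    filter_upwards [ev_dense0 (fun p => ∃ r ∈ B n, p ≤ r) fun p => by
      obtain ⟨q, a1, a2⟩ := (measurable_bit hx n true).decides p
      obtain ⟨r, a3, s, a4, a5⟩ := hB4 n q a2
      exact ⟨s, a4.trans a1, r, a3, a5⟩, ev_sem fun w => ¬ x w n = true]
      with w ⟨p, a1, r, a2, a3⟩ a4 a5
    exact ⟨r, a2, ⟨p, a1, a3⟩, (hB1 n a2).resolve_right fun h => a4 r ⟨p, a1, a3⟩ h a5⟩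
  refine ⟨A, h1, fun c => ev_imp fun hc => ev_call fun n0 => ev_of_dense fun p => ?_⟩
  obtain ⟨n, a1, r, m, q, ⟨hr, v, v', a2, a3, a4, a5⟩, a6, a7, a8, a9⟩ := preservation h2 p.2 c hc n0
    (fun n r m => ∃ hr : d.Valid r, ∃ v v', n ≤ v ∧ v < v' ∧ v' ≤ m ∧
      Sem (mkP r hr) fun w => x w v = true ∧ x w v' = true) fun n r hr => by
      obtain ⟨w, b1, hw, b2⟩ := exists_world (mkP r hr.1) (ev_generic.and h5)
      obtain ⟨v, b3, b4⟩ := (hinf w).exists_gt n
      obtain ⟨v', b5, b6⟩ := (hinf w).exists_gt v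
      obtain ⟨r1, c1, c2, c3⟩ := b2 v b3
      obtain ⟨r2, c4, c5, c6⟩ := b2 v' b5
      obtain ⟨s, d1, d2, d3⟩ := hw.has_and c2 c5
      obtain ⟨q, -, d4, d5⟩ := hw.dir s d1 _ b1
      exact ⟨_, v', pa_res h2 q.2, Le.res d5 hr.2, (pa_res h2 q.2).1, v, v', b4.le, b6, le_rfl,
        (c3.mono (Le.res (d4.trans d2) (h4 _ _ c1))).and
          (c6.mono (Le.res (d4.trans d3) (h4 _ _ c4)))⟩
  refine ⟨mkP q a6, a7, ((a5.mono (q := mkP q a6) a8).and (sem_has _)).imp ?_⟩
  filter_upwards [ev_generic] with w hw ⟨b1, b2⟩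
  exact ⟨v, v', a1.trans a2, a3, b1.1, b1.2, fun γ hγ k h1 h2 =>
    om_of_omit hw b2 (a9 γ hγ) k (a2.trans h1) (h2.trans_le a4)⟩

end Data

open Data

namespace Setup

variable [LinearOrder O2] (s : Setup O L J O2)

/-- the points coding the tower -/
noncomputable def ss (η : O) (w : World s.PP) : Cantor :=
  fun n => if n % 2 = 0 then tt (s.τ η) w (n / 2) else !tt (s.τ η) w (n / 2)

/-- the Cohen points -/
noncomputable def cc (a : O2) (w : World s.PP) : Cantor :=
  fun n => decide (2 ≤ n) && tt (s.coh a) w n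

/-- the points of the fin-unbounded set -/
noncomputable def xx : O ⊕ O2 → World s.PP → Cantor := Sum.elim s.ss s.cc

/-- the fin-unbounded set -/
def XX (w : World s.PP) : Set Cantor := {x | ∃ i, w.In i ∧ True ∧ s.xx i w = x}

theorem measurable_xx (i : O ⊕ O2) : Measurable (s.xx i) := by
  refine measurable_pi_iff.2 fun n => ?_
  cases i with
  | inl η =>
    exact (Measurable.of_discrete (f := fun b : Bool => if n % 2 = 0 then b else !b)).comp
      ((measurable_pi_apply (n / 2)).comp (measurable_tt _))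
  | inr a =>
    exact (Measurable.of_discrete (f := fun b : Bool => decide (2 ≤ n) && b)).comp
      ((measurable_pi_apply n).comp (measurable_tt _))

theorem fam_XX : Fam s.XX := fam_subtype s.measurable_xx _

theorem ss_even (η : O) (w : World s.PP) (n : ℕ) : s.ss η w (2 * n) = tt (s.τ η) w n := by
  simp [ss]

theorem ss_odd (η : O) (w : World s.PP) (n : ℕ) : s.ss η w (2 * n + 1) = !tt (s.τ η) w n := by
  have e1 : (2 * n + 1) % 2 = 1 := by omega
  have e2 : (2 * n + 1) / 2 = n := by omega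
  simp [ss, e1, e2]

theorem ev_infinite : ∀ᶠ w in gen s.PP, ∀ x ∈ s.XX w, {n | x n}.Infinite := by
  filter_upwards [ev_all fun a => ev_unb_cohen (s.coh_cohen a), ev_in_sum O O2] with w h1 h2
  rintro _ ⟨i, a1, -, rfl⟩
  refine infinite_of_forall_exists_gt fun k => ?_
  cases i with
  | inl η =>
    cases h : tt (s.τ η) w (k + 1)
    · exact ⟨2 * (k + 1) + 1, (s.ss_odd η w _).trans (by rw [h]; rfl), by omega⟩
    · exact ⟨2 * (k + 1), (s.ss_even η w _).trans h, by omega⟩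
  | inr a =>
    obtain ⟨n, b1, b2⟩ := (h1 a ((h2.2 a).1 a1)).infinite.exists_gt (k + 2)
    refine ⟨n, ?_, by omega⟩
    have : 2 ≤ n := by omega
    simpa [xx, cc, this] using b1

variable [WellFoundedLT O2]

theorem ev_card : ∀ᶠ w in gen s.PP, CardLE w.M (w.ordTop O2) (code (s.XX w)) := by
  filter_upwards [ev_cardLE (a := fun (a : O2) w => w.ord a) named_ord
    (b := fun a w => code (s.cc a w)) (fun a => namedC_real (s.measurable_xx (.inr a)))
    (Φ := fun _ _ => True) fun _ => measurable_const, ev_in_sum O O2,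
    ev_all fun a => ev_all fun b => ev_imp (A := a ≠ b) fun h =>
      cohen_ne (s.coh_cohen a) (s.coh_cohen b) (s.coh_inj.ne h)] with w h1 h2 h3
  refine h1 _ _ (fun z hz => by simpa using w.mem_ordTop.1 hz)
    (fun a ha _ => ⟨w.mem_ordTop.2 ⟨a, ha, rfl⟩,
      code_mem_code.2 ⟨.inr a, (h2.2 a).2 ha, trivial, rfl⟩⟩) fun a b ha hb _ _ => ?_
  rw [w.ord_inj ha hb, code_inj]
  refine ⟨fun e => e ▸ rfl, fun e => ?_⟩
  by_contra hc
  obtain ⟨n, a1, a2, a3⟩ := h3 a ha b hb hc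
  have := congrFun e n
  simp [cc, a1, a2, a3] at this

theorem ev_finUnbounded : ∀ᶠ w in gen s.PP, FinUnbounded w.M (w.ordTop O2) (s.XX w) := by
  classical
  suffices h : ∀ᶠ w in gen s.PP, ∀ y ∈ w.M, ∀ d : Cantor, code d = y → {n | d n}.Infinite →
      ∃ S ⊆ s.XX w, code S ∈ w.M ∧ (∃ α ∈ w.ordTop O2, CardLE w.M (code S) α) ∧
        ∀ F ⊆ s.XX w \ S, F.Finite →
        {i | ∀ x ∈ F, ∀ n ∈ Ico (Nat.nth (d ·) i) (Nat.nth (d ·) (i + 1)), ¬ x n}.Infinite by
    filter_upwards [h, s.ev_infinite, s.ev_card] with w h1 h2 h3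
    exact ⟨h2, h3, fun d hd => h1 _ hd d rfl⟩
  refine ev_all_named fun y hy => ?_
  obtain ⟨x0, hx0, hx1⟩ := hy.exists_real
  let x : World s.PP → Cantor := fun w => if {n | x0 w n}.Infinite then x0 w else fun _ => true
  have hx : Measurable x :=
    Measurable.ite (measurableSet_setOfPred.2 (measurable_infinite hx0)) hx0 measurable_const
  obtain ⟨A, h1, h2⟩ := exists_closed_omit hx fun w => by
    simp only [x]
    split_ifs with h
    · exact h
    · simpa using infinite_univ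
  obtain ⟨a, e, h3, h4⟩ := s.small _ (h1.preimage s.coh_inj)
  let S : World s.PP → Set Cantor := fun w => {z | ∃ b, w.In b ∧ b < a ∧ s.xx (e b) w = z}
  have hS : NamedC S :=
    (fam_subtype (fun b => s.measurable_xx (e b)) _).namedC fun _ => namedC_real
  filter_upwards [hS.ev_mem, ev_const a, ev_fun e, ev_in_sum O O2,
    ev_cardLE_ord (x := fun b w => code (s.xx (e b) w))
      (fun b => namedC_real (s.measurable_xx _)) a,
    ev_all fun i => ev_skolem fun b => b < a ∧ e b = i,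
    ev_all_finset fun c : Finset O2 => h2 (c.image s.coh)]
    with w a1 a2 a3 a4 a5 a6 a7 d hd hinf
  have hxd : x w = d := by simp only [x, hx1 w d hd, hinf, if_true]
  refine ⟨S w, fun z ⟨b, b1, _, b2⟩ => ⟨_, a3 b b1, trivial, b2⟩, a1,
    ⟨_, w.mem_ordTop.2 ⟨a, a2, rfl⟩, a5 _ fun z => ?_⟩, fun F hF hfin => ?_⟩
  · rw [mem_code_set]
    constructor
    · rintro ⟨_, ⟨b, b1, b2, rfl⟩, rfl⟩
      exact ⟨b, b1, b2, rfl⟩
    · rintro ⟨b, b1, b2, rfl⟩
      exact ⟨_, ⟨b, b1, b2, rfl⟩, rfl⟩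
  · have key : ∀ z : F, ∃ c, w.In c ∧ s.coh c ∉ A ∧ s.cc c w = z := by
      rintro ⟨z, hz⟩
      obtain ⟨⟨i, b1, -, rfl⟩, b2⟩ := hF hz
      have b3 : ¬ ∃ b, b < a ∧ e b = i := fun h => by
        obtain ⟨b, c1, c2, rfl⟩ := a6 i b1 h
        exact b2 ⟨b, c1, c2, rfl⟩
      cases i with
      | inl η => exact absurd (h3 η) b3
      | inr c => exact ⟨c, (a4.2 c).1 b1, fun h => b3 (h4 c h), rfl⟩
    choose f f1 f2 f3 using key
    have := hfin.fintype
    refine infinite_intervals hinf fun n0 => ?_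
    obtain ⟨v, v', b1, b2, b3, b4, b5⟩ := a7 (Finset.univ.image f) (fun c hc => by
        obtain ⟨z, -, rfl⟩ := Finset.mem_image.1 hc
        exact f1 z) (fun γ hγ => by
        obtain ⟨c, hc, rfl⟩ := Finset.mem_image.1 hγ
        obtain ⟨z, -, rfl⟩ := Finset.mem_image.1 hc
        exact ⟨f2 z, s.coh_cohen _⟩) n0
    refine ⟨v, v', b1, b2, hxd ▸ b3, hxd ▸ b4, fun z hz n c1 c2 => ?_⟩
    have := b5 _ (Finset.mem_image_of_mem _ (Finset.mem_image_of_mem f
      (Finset.mem_univ ⟨z, hz⟩))) n c1 c2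
    rw [← show s.cc (f ⟨z, hz⟩) w = z from f3 ⟨z, hz⟩]
    simp [cc, this]

end Setup

end Pool.Agent.P.MP_27b523_gt
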