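import Pool.Agent.P.MP_27b523_gt.Gamma
import Pool.Agent.P.MP_27b523_gt.Unb

/-!
The product fails the selection principle in the extension.
-/

open Set Function Filter

namespace Pool.Agent.P.MP_27b523_gt

open Pool.Agent.Lib.Helper87 Coded

/-- a closed set of infinite subsets of `ℕ` -/
def KK : Set Cantor := {x | ∀ n, x (2 * n + 1) = !x (2 * n)}

/-- the number of elements of the even part below `k` -/
def cnt (x : Cantor) (k : ℕ) : ℕ := Nat.count (fun i => x (2 * i) = true) k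

/-- the `e`-th element of the even part of the first coordinate is in the second coordinate -/
def HH (e : ℕ) (z : Cantor × Cantor) : Prop :=
  ∃ k, z.1 (2 * k) = true ∧ z.2 k = true ∧ cnt z.1 k = e

def EE (n j : ℕ) (z : Cantor × Cantor) : Prop :=
  z.1 ∈ KK ∧ HH (Nat.pair n j) z ∧ ∀ j' < j, ¬ HH (Nat.pair n j') z

def Op (n j : ℕ) : Set (Cantor × Cantor) := interior {z | ¬ EE n j z}

theorem continuous_cnt (k : ℕ) : Continuous fun x => cnt x k := by
  induction k with
  | zero => exact continuous_const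
  | succ k ih =>
    simp only [cnt, Nat.count_succ]
    exact ih.add ((continuous_of_discreteTopology
      (f := fun b : Bool => if b = true then 1 else 0)).comp (continuous_apply _))

theorem isOpen_cell (k e : ℕ) (b : Bool) :
    IsOpen {z : Cantor × Cantor | z.1 (2 * k) = true ∧ z.2 k = b ∧ cnt z.1 k = e} :=
  (isOpen_discrete {x : Bool × Bool × ℕ | x.1 = true ∧ x.2.1 = b ∧ x.2.2 = e}).preimage
    (f := fun z : Cantor × Cantor => (z.1 (2 * k), z.2 k, cnt z.1 k))
    (((continuous_apply _).comp continuous_fst).prodMk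
      (((continuous_apply _).comp continuous_snd).prodMk ((continuous_cnt k).comp continuous_fst)))

theorem mem_Op {z : Cantor × Cantor} (h : z.1 ∉ KK ∨ {k | z.1 (2 * k) = true}.Infinite) (n : ℕ) :
    ∃ j0, ∀ j, j0 ≤ j → z ∈ Op n j := by
  rcases h with h | h
  · obtain ⟨m, hm⟩ := not_forall.1 h
    refine ⟨0, fun j _ => mem_interior.2 ⟨{z | ¬ z.1 (2 * m + 1) = !z.1 (2 * m)},
      fun z hz h => hz (h.1 m), ?_, hm⟩⟩
    exact (isOpen_discrete {x : Bool × Bool | ¬ x.1 = !x.2}).preimage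
      (f := fun z : Cantor × Cantor => (z.1 (2 * m + 1), z.1 (2 * m)))
      (((continuous_apply _).comp continuous_fst).prodMk ((continuous_apply _).comp continuous_fst))
  · by_cases h1 : ∃ j0, HH (Nat.pair n j0) z
    · obtain ⟨j0, k, hk⟩ := h1
      exact ⟨j0 + 1, fun j hj => mem_interior.2 ⟨_, fun z hz h => h.2.2 j0 hj ⟨k, hz⟩,
        isOpen_cell k _ true, hk⟩⟩
    · refine ⟨0, fun j _ => mem_interior.2 ⟨_, fun z hz h => ?_,
        isOpen_cell (Nat.nth (fun k => z.1 (2 * k) = true) (Nat.pair n j)) (Nat.pair n j) false,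
        Nat.nth_mem_of_infinite h _, ?_, Nat.count_nth_of_infinite h _⟩⟩
      · obtain ⟨k, a1, a2, a3⟩ := h.2.1
        rw [Nat.count_injective a1 hz.1 (a3.trans hz.2.2.symm), hz.2.1] at a2
        exact absurd a2 (by simp)
      · rw [← Bool.not_eq_true]
        exact fun h' => h1 ⟨j, _, Nat.nth_mem_of_infinite h _, h', Nat.count_nth_of_infinite h _⟩

theorem ee_of {x y : Cantor} (h1 : x ∈ KK) (h2 : {k | x (2 * k) = true}.Infinite) {g : ℕ → ℕ}
    (h3 : ∀ k, y k = true ↔ x (2 * k) = true ∧ g (cnt x k).unpair.1 = (cnt x k).unpair.2)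
    (n : ℕ) : EE n (g n) (x, y) := by
  refine ⟨h1, ⟨_, Nat.nth_mem_of_infinite h2 (Nat.pair n (g n)), (h3 _).2
    ⟨Nat.nth_mem_of_infinite h2 _, ?_⟩, Nat.count_nth_of_infinite h2 _⟩, ?_⟩
  · rw [cnt, Nat.count_nth_of_infinite h2]
    simp
  · rintro j hj ⟨k, -, a2, a3⟩
    have := ((h3 k).1 a2).2
    simp only at a3
    rw [a3] at this
    simp only [Nat.unpair_pair] at this
    omega

theorem not_mem_KK {x : Cantor} (h : x ∈ FinSets) : x ∉ KK := by
  intro h'
  obtain ⟨k, hk⟩ := Finite.bddAbove h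
  cases e : x (2 * (k + 1))
  · have := hk (show x (2 * (k + 1) + 1) = true by rw [h' (k + 1), e]; rfl)
    omega
  · have := hk e
    omega

variable {O L J O2 : Type} [LinearOrder O] [OrderBot O] [LinearOrder L] [WellFoundedLT L]
  [WellFoundedLT O]

namespace Data

variable {d : Data O L J}

open Classical in
/-- a subset of `t` coding `g` -/
noncomputable def codeIn (t : Cantor) (g : ℕ → ℕ) : Cantor := fun k => decide (t k = true ∧
  g (Nat.count (fun i => t i = true) k).unpair.1 = (Nat.count (fun i => t i = true) k).unpair.2)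

theorem exists_code {g : World d.PP → ℕ → ℕ} (hg : ∀ n j, Measurable fun w => g w n = j) :
    ∃ j, d.NameOK (d.τ (d.η j)) (d.z j) ∧
      ∀ᶠ w in gen d.PP, yy j w = codeIn (tt (d.τ (d.η j)) w) (g w) := by
  choose B hB1 hB2 hB3 hB4 using fun n => d.ccc_PP.exists_antichain
    {p | ∃ j, Sem p fun w => g w n = j}
  obtain ⟨ξ, -, h1⟩ := exists_supp_bound (d := d)
    (countable_iUnion fun n => (hB2 n).image Subtype.val)
  have hl := isLowerSet_Iic (d.τ ξ)
  have h2 : ∀ n, ∀ r ∈ B n, d.InA (Iic (d.τ ξ)) r.1 := fun n r hr =>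
    r.2.inA hl ((h1 _ (mem_iUnion.2 ⟨n, r, hr, rfl⟩)).mono Iio_subset_Iic_self)
  have h3 : ∀ᶠ w in gen d.PP, ∀ n, ∃ r ∈ B n, w.Has r ∧ Sem r fun w' => g w' n = g w n := by
    refine ev_call fun n => ?_
    filter_upwards [ev_dense0 (fun p => ∃ r ∈ B n, p ≤ r) fun p => by
      obtain ⟨q, a1, a2⟩ := Sem.ex (hg n)
        (sem_of_ev (Eventually.of_forall fun w => ⟨_, rfl⟩) p)
      obtain ⟨r, a3, s, a4, a5⟩ := hB4 n q a2
      exact ⟨s, a4.trans a1, r, a3, a5⟩, ev_call fun j => ev_sem fun w => g w n = j]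
      with w ⟨p, a1, r, a2, a3⟩ a4
    obtain ⟨j, hj⟩ := hB1 n a2
    exact ⟨r, a2, ⟨p, a1, a3⟩, by rwa [a4 j r ⟨p, a1, a3⟩ hj]⟩
  obtain ⟨y, hy1, hy2⟩ := mkName (closed_lower hl) subset_rfl (qProp_Iic (d.τ ξ))
    (fun k r => ∃ hr, Sem (mkP r hr) fun w => codeIn (tt (d.τ ξ) w) (g w) k = true)
    (fun k r => ∃ hr, Sem (mkP r hr) fun w => codeIn (tt (d.τ ξ) w) (g w) k = false)
    (fun k r hr => by
      obtain ⟨w, a1, hw, a2, a3⟩ := exists_world (mkP r hr.1)
        (ev_generic.and (h3.and (ev_unb_tower ξ)))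
      obtain ⟨r1, b1, b2, b3⟩ := a2 (Nat.count (fun i => tt (d.τ ξ) w i = true) k).unpair.1
      obtain ⟨q1, b4, b5, b6⟩ := hw.has_and (w.has_of_mem a1) b2
      obtain ⟨q, b7, b8, b9⟩ := hw.dir_finset b4 (Finset.range (k + 1))
        (fun i p => (tt (d.τ ξ) w i = true ∧ InT p.1 (d.τ ξ) i) ∨
          (tt (d.τ ξ) w i = false ∧ OutT p.1 (d.τ ξ) i))
        (fun i p q h h' => h'.imp (fun h' => ⟨h'.1, Le.inT h h'.2⟩)
          fun h' => ⟨h'.1, Le.outT h h'.2⟩) fun i _ => by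
          cases e : tt (d.τ ξ) w i
          · exact (a3.out e).imp fun _ h => Or.inr ⟨rfl, h⟩
          · exact (tt_iff.1 e).imp fun _ h => Or.inl ⟨rfl, h⟩
      have c1 := pa_res (closed_lower hl) q.2
      have c2 : Sem (mkP _ c1.1) fun w' =>
          codeIn (tt (d.τ ξ) w') (g w') k = codeIn (tt (d.τ ξ) w) (g w) k := by
        refine ((b3.mono (q := mkP _ c1.1) (Le.res (b8.trans b6) (h2 _ _ b1))).and
          (sem_has _)).imp ?_
        filter_upwards [ev_generic] with w' hw' ⟨c3, c4⟩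
        have c5 : ∀ i ≤ k, tt (d.τ ξ) w' i = tt (d.τ ξ) w i := fun i hi => by
          rcases b9 i (Finset.mem_range.2 (Nat.lt_succ_of_le hi)) with h | h
          · rw [h.1, tt_of_has c4 (h.2.res (le_rfl : _ ≤ _))]
          · rw [h.1, tt_of_out hw' c4 (h.2.res (le_rfl : _ ≤ _))]
        have c6 : Nat.count (fun i => tt (d.τ ξ) w' i = true) k =
            Nat.count (fun i => tt (d.τ ξ) w i = true) k := by
          rw [Nat.count_eq_card_filter_range, Nat.count_eq_card_filter_range]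
          exact congrArg _ (Finset.filter_congr fun i hi => by
            rw [c5 i (Finset.mem_range.1 hi).le])
        simp only [codeIn, c5 k le_rfl, c6, c3]
      refine ⟨_, c1, Le.res (b8.trans b5) hr.2, ?_⟩
      cases e : codeIn (tt (d.τ ξ) w) (g w) k
      · exact Or.inr ⟨c1.1, e ▸ c2⟩
      · exact Or.inl ⟨c1.1, e ▸ c2⟩)
    (fun k r u u' a1 _ _ a2 a3 ⟨_, a4⟩ ⟨_, a5⟩ =>
      (a4.mono (q := mkP r a1.1) a2).not_not ((a5.mono (q := mkP r a1.1) a3).imp' fun w h => by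
        simp [h]))
  obtain ⟨j, rfl, rfl⟩ := d.surj ξ y
  refine ⟨j, hy1, ?_⟩
  filter_upwards [ev_zz_false hy1, ev_call fun k => ev_call fun b =>
    ev_sem fun w => codeIn (tt (d.τ (d.η j)) w) (g w) k = b] with w a1 a2
  have : zz j w = codeIn (tt (d.τ (d.η j)) w) (g w) := by
    funext k
    cases e : zz j w k
    · obtain ⟨p, b1, m, b2, b3⟩ := a1 k e
      obtain ⟨hr, b4⟩ := (hy2 k m).2.2 b2
      exact (a2 k _ _ ⟨p, b1, b3⟩ b4).symm
    · obtain ⟨p, b1, m, b2, b3⟩ := zz_iff.1 e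
      obtain ⟨hr, b4⟩ := (hy2 k m).2.1 b2
      exact (a2 k _ _ ⟨p, b1, b3⟩ b4).symm
  funext k
  simp only [yy, this, codeIn]
  cases tt (d.τ (d.η j)) w k <;> simp

end Data

open Data

namespace Setup

variable [LinearOrder O2] (s : Setup O L J O2)

/-- the product space -/
def ZZ (w : World s.PP) : Set (Cantor × Cantor) := (s.XX w ∪ FinSets) ×ˢ s.YY w

omit [WellFoundedLT O] in
theorem fam_ZZ : Fam s.ZZ := (s.fam_XX.union (fam_countable countable_finSets)).prod fam_YY

theorem ev_point {g : World s.PP → ℕ → ℕ} (hg : ∀ n j, Measurable fun w => g w n = j) :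
    ∀ᶠ w in gen s.PP, ∃ z ∈ s.ZZ w, ∀ n, z ∉ Op n (g w n) := by
  obtain ⟨j, h1, h2⟩ := exists_code hg
  filter_upwards [h2, ev_const j, ev_const (Sum.inl (s.η j) : O ⊕ O2), ev_unb_tower (s.η j)]
    with w a1 a2 a3 a4
  refine ⟨(s.ss (s.η j) w, yy j w), ⟨Or.inl ⟨_, a3, trivial, rfl⟩, Or.inr ⟨j, a2, h1, rfl⟩⟩,
    fun n h => interior_subset h (ee_of (fun n => by rw [ss_odd, ss_even]) ?_ (fun k => ?_) n)⟩
  · simpa only [ss_even] using a4.infinite
  · simp [a1, codeIn, cnt, ss_even]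

theorem ev_not_S1 : ∀ᶠ w in gen s.PP, ¬ S1GammaOmega w.M (s.ZZ w) := by
  classical
  have h1 : ∀ n j, NamedC fun w => s.ZZ w ∩ Op n j := fun n j =>
    s.fam_ZZ.namedC_inter (fun _ => namedC_real₂) isOpen_interior.measurableSet
  let 𝒰 : World s.PP → ℕ → Set (Set (Cantor × Cantor)) := fun w n =>
    {U | ∃ j, True ∧ s.ZZ w ∩ Op n j = U}
  have h2 : NamedC 𝒰 := namedC_seq fun n => namedC_set (h1 n) (Φ := fun _ _ => True)
    (fun _ => measurable_const) ((ev_ctype ℕ).mono fun w h z => by simp [𝒰, h])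
  have h3 : ∀ᶠ w in gen s.PP, ∀ y ∈ w.M, ∀ U : ℕ → Set (Cantor × Cantor), code U = y →
      (∀ n, U n ∈ 𝒰 w n) → ∃ z ∈ s.ZZ w, ∀ n, z ∉ U n := by
    refine ev_all_named fun y hy => ?_
    let Q : ℕ → World s.PP → ℕ → Prop := fun n w j =>
      ZFSet.pair (code n) (code (s.ZZ w ∩ Op n j)) ∈ y w
    have hQ : ∀ n j, Measurable fun w => Q n w j := fun n j =>
      Named.measurable_mem (Named.pair (named_nat n) (h1 n j)) hy
    have hex : ∀ n w, ∃ j, Q n w j ∨ ∀ j', ¬ Q n w j' := fun n w => by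
      by_cases h : ∃ j, Q n w j
      · exact h.imp fun _ => Or.inl
      · exact ⟨0, Or.inr (not_exists.1 h)⟩
    filter_upwards [s.ev_point (g := fun w n => Nat.find (hex n w)) fun n j =>
      measurableSet_setOfPred.1 (measurable_find (hex n) (fun k => measurableSet_setOfPred.2
        ((hQ n k).or (Measurable.forall fun j => (hQ n j).not))) (t := {j}) trivial)]
      with w ⟨z, a1, a2⟩ U hU a3
    refine ⟨z, a1, fun n h => a2 n ?_⟩
    obtain ⟨j, -, e⟩ := a3 n
    have a4 : ∀ j, Q n w j ↔ U n = s.ZZ w ∩ Op n j := fun j => by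
      simp only [Q, ← hU, pair_mem_code_seq]
    have a5 := (Nat.find_spec (hex n w)).resolve_right fun h => h j ((a4 j).2 e.symm)
    rw [(a4 _).1 a5] at h
    exact h.2
  filter_upwards [h2.ev_mem, h3, ev_in_sum O O2, ev_all fun η => ev_unb_tower (d := s.toData) η,
    ev_call fun j : ℕ => s.ev_point (g := fun _ _ => j) fun _ _ => measurable_const]
    with w a1 a2 a3 a4 a5 h
  obtain ⟨U, b1, b2, b3⟩ := h (𝒰 w) a1 fun n => ⟨by
    rintro _ ⟨j, -, rfl⟩
    exact ⟨_, isOpen_interior, rfl⟩, gamma_of_seq id (fun k => (finite_lt_nat k).subset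
      fun _ h => h.2) (fun k => ⟨k, trivial, le_rfl⟩) (fun z hz => by
        obtain ⟨j0, hj⟩ := mem_Op (z := z) (by
          rcases hz.1 with ⟨i, c1, -, c2⟩ | c1
          · cases i with
            | inl η =>
              right
              rw [← c2]
              simpa only [xx, Sum.elim_inl, ss_even] using (a4 η ((a3.1 η).1 c1)).infinite
            | inr a =>
              left
              intro hK
              have := hK 0
              rw [← c2] at this
              simp [xx, cc] at this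
          · exact Or.inl (not_mem_KK c1)) n
        exact ⟨j0, fun j _ h => ⟨hz, hj j h⟩⟩) fun j _ =>
          let ⟨z, c1, c2⟩ := a5 j; ⟨z, c1, fun h => c2 n h.2⟩⟩
  obtain ⟨z, c1, c2⟩ := a2 _ b1 U rfl b2
  obtain ⟨_, ⟨n, rfl⟩, c3⟩ := b3.2 {z} (singleton_subset_iff.2 c1) (finite_singleton z)
  exact c2 n (c3 rfl)

end Setup

theorem main : ∃ M : Set ZFSet.{0}, TransModelZFC M ∧ ∃ (κ : ZFSet.{0}) (X Y : Set Cantor),
    code X ∈ M ∧ code Y ∈ M ∧ RegularCard M κ ∧ FinUnbounded M κ X ∧ GammaProp M Y ∧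
      ¬ S1GammaOmega M ((X ∪ FinSets) ×ˢ Y) := by
  obtain ⟨O, L, J, O2, _, _, _, _, _, _, _, _, _, ⟨s⟩⟩ := exists_setup
  obtain ⟨w, h1, h2, h3, h4, h5, h6, h7⟩ := (ev_zfc.and
    ((s.fam_XX.namedC fun _ => namedC_real).ev_mem.and
    ((Data.fam_YY.namedC fun _ => namedC_real).ev_mem.and ((ev_regular s.ccc_PP s.reg).and
    (s.ev_finUnbounded.and (Data.ev_gamma.and s.ev_not_S1)))))).exists
  exact ⟨w.M, h1, _, _, _, h2, h3, h4, h5, h6, h7⟩

end Pool.Agent.P.MP_27b523_gt
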