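import Pool.Agent.P.MP_27b523_gt.World

/-!
The set `YY` has the `γ`-property in the extension.
-/

open Set Function Filter

namespace Pool.Agent.P.MP_27b523_gt

open Pool.Agent.Lib.Helper87 Coded

theorem gamma_of_seq {T ι : Type} {Y : Set T} {R : ι → Prop} (lev : ι → ℕ) {V : ι → Set T}
    (h1 : ∀ k, {i | R i ∧ lev i < k}.Finite) (h2 : ∀ k, ∃ i, R i ∧ k ≤ lev i)
    (h3 : ∀ y ∈ Y, ∃ k, ∀ i, R i → k ≤ lev i → y ∈ V i) (h4 : ∀ i, R i → ∃ y ∈ Y, y ∉ V i) :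
    GammaCover Y {U | ∃ i, R i ∧ V i = U} := by
  constructor
  · intro hfin
    have : ∀ U ∈ {U | ∃ i, R i ∧ V i = U}, ∀ᶠ k in atTop, ∀ i, R i → k ≤ lev i → V i ≠ U := by
      rintro _ ⟨i, a1, rfl⟩
      obtain ⟨y, b1, b2⟩ := h4 i a1
      obtain ⟨k, hk⟩ := h3 y b1
      filter_upwards [eventually_ge_atTop k] with k' hk' i' c1 c2 e
      exact b2 (e ▸ hk i' c1 (hk'.trans c2))
    obtain ⟨k, hk⟩ := ((eventually_all_finite hfin).2 this).exists
    obtain ⟨i, a1, a2⟩ := h2 k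
    exact hk _ ⟨i, a1, rfl⟩ i a1 a2 rfl
  · intro y hy
    obtain ⟨k, hk⟩ := h3 y hy
    refine ((h1 k).image V).subset ?_
    rintro _ ⟨⟨i, a1, rfl⟩, a2⟩
    exact ⟨i, ⟨a1, not_le.1 fun h => a2 (hk i a1 h)⟩, rfl⟩

theorem exists_level {V E : Set Cantor} (hV : IsOpen V) (hE : E.Finite) (h : E ⊆ V) :
    ∃ l, ∀ x ∈ E, ∀ x' : Cantor, (∀ n < l, x' n = x n) → x' ∈ V := by
  refine ((eventually_all_finite hE).2 fun x hx => ?_ : ∀ᶠ l in atTop, _).exists
  obtain ⟨I, u, h1, h2⟩ := isOpen_pi_iff.1 hV x (h hx)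
  filter_upwards [eventually_gt_atTop (I.sup id)] with l hl x' hx'
  refine h2 fun n hn => ?_
  rw [hx' n ((Finset.le_sup (f := id) hn).trans_lt hl)]
  exact (h1 n hn).2

theorem finite_below (k : ℕ) : {x : Cantor | ∀ n, k ≤ n → x n = false}.Finite := by
  refine Finite.of_finite_image (f := fun x (i : Fin k) => x i) (toFinite _) fun x hx y hy e => ?_
  funext n
  by_cases h : n < k
  · exact congrFun e ⟨n, h⟩
  · rw [hx n (not_lt.1 h), hy n (not_lt.1 h)]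

theorem omega_step {Y : Set Cantor} (hY : FinSets ⊆ Y) {𝒰 : Set (Set Cantor)} (h1 : OpenFam Y 𝒰)
    (h2 : OmegaCover Y 𝒰) {J : Type} (F : Finset J) (y : J → Cantor) (hy : ∀ j ∈ F, y j ∈ Y)
    (k : ℕ) : ∃ m W, ∃ U ∈ 𝒰, (∀ z ∈ Y, InW z W ∨ Om z k m → z ∈ U) ∧ ∀ j ∈ F, InW (y j) W := by
  classical
  have hE : (y '' F ∪ {x : Cantor | ∀ n, k ≤ n → x n = false}).Finite :=
    (F.finite_toSet.image y).union (finite_below k)
  obtain ⟨U, a1, a2⟩ := h2.2 _ (by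
    rintro _ (⟨j, hj, rfl⟩ | h)
    · exact hy j hj
    · refine hY ((finite_lt_nat k).subset fun n hn => ?_)
      by_contra h'
      simp [h n (not_lt.1 h')] at hn) hE
  obtain ⟨V, a3, rfl⟩ := h1 U a1
  obtain ⟨l, hl⟩ := exists_level a3 hE fun x hx => (a2 hx).2
  refine ⟨l, F.image fun j => (l, (Finset.range l).filter fun n => y j n = true), _, a1,
    fun z hz h => ⟨hz, ?_⟩, fun j hj => ⟨_, Finset.mem_image_of_mem _ hj, fun n hn => ?_⟩⟩
  · rcases h with ⟨c, b1, b2⟩ | h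
    · obtain ⟨j, b3, rfl⟩ := Finset.mem_image.1 b1
      refine hl (y j) (Or.inl ⟨j, b3, rfl⟩) z fun n hn => ?_
      have := b2 n hn
      simp only [Finset.mem_filter, Finset.mem_range, hn, true_and] at this
      exact Bool.eq_iff_iff.2 this
    · refine hl (fun n => if n < k then z n else false) (Or.inr fun n hn => if_neg (not_lt.2 hn)) z
        fun n hn => ?_
      split_ifs with h'
      · rfl
      · exact h n (not_lt.1 h') hn
  · simp only at hn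
    simp [hn]

variable {O L J : Type} [LinearOrder O] [OrderBot O] [LinearOrder L] [WellFoundedLT L]
  [WellFoundedLT O]

namespace Data

variable {d : Data O L J}

omit [WellFoundedLT O] in
/-- every point of `YY` is caught by almost all elements of a selector sequence -/
theorem ev_catch {ξ : O} {β : L} {b0 : Elt → Set (Raw L J)} (hβ : d.Rn β = d.selRn ξ b0)
    (hβ1 : d.blk β = ξ) (hβ2 : d.τ ξ < β) : ∀ᶠ w in gen d.PP, ∀ y ∈ d.YY w, ∃ k, ∀ p ∈ w.G, ∀ a,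
      (β, a) ∈ p.1.1 → k ≤ a.1 → InW y a.2.2 ∨ Om y a.1 a.2.1 := by
  have key : ∀ j, ∀ᶠ w in gen d.PP, d.NameOK (d.τ (d.η j)) (d.z j) → ∃ k, ∀ p ∈ w.G, ∀ a,
      (β, a) ∈ p.1.1 → k ≤ a.1 → InW (yy j w) a.2.2 ∨ Om (yy j w) a.1 a.2.1 := by
    refine fun j => ev_imp fun hj => ?_
    rcases lt_or_ge (d.η j) ξ with h | h
    · filter_upwards [ev_generic, ev_side_yw (β := β) (j := j)
        ⟨hβ1 ▸ h, fun e => absurd (hβ1 ▸ e) hβ2.ne', hj⟩] with w hw ⟨k, hk⟩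
      refine ⟨k, fun p a1 a a2 a3 => ?_⟩
      obtain ⟨q, b1, -, b2⟩ := hk p a1 a a2 a3
      exact Or.inl (inW_of_yw hw hj b1 b2)
    · filter_upwards [ev_generic, ev_tower (d := d) h] with w hw ⟨k, hk⟩
      refine ⟨k, fun p a1 a a2 a3 => Or.inr fun n b1 b2 => ?_⟩
      have := om_of_omit hw (w.has_of_mem a1) (sel_adm hβ p.2 a2).2 n b1 b2
      rw [← Bool.not_eq_true] at this ⊢
      exact fun h => this (hk n (a3.trans b1) (yy_iff.1 h).2)
  filter_upwards [ev_all key] with w hw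
  rintro y (hy | ⟨j, a1, a2, rfl⟩)
  · obtain ⟨k, hk⟩ := Finite.bddAbove hy
    refine ⟨k + 1, fun p _ a _ h => Or.inr fun n b1 _ => ?_⟩
    rw [← Bool.not_eq_true]
    intro h'
    have := hk h'
    omega
  · exact hw j a1 a2

theorem ev_gamma : ∀ᶠ w in gen d.PP, GammaProp w.M (d.YY w) := by
  suffices h : ∀ᶠ w in gen d.PP, ∀ x ∈ w.M, ∀ 𝒰 : Set (Set Cantor), code 𝒰 = x →
      OpenFam (d.YY w) 𝒰 → OmegaCover (d.YY w) 𝒰 →
        ∃ 𝒱 ⊆ 𝒰, code 𝒱 ∈ w.M ∧ GammaCover (d.YY w) 𝒱 from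
    h.mono fun w h 𝒰 h1 => h _ h1 𝒰 rfl
  refine ev_all_named fun y hy => ?_
  obtain ⟨I, U, u, Φ, hu, hΦ, hU, hdec⟩ := hy.exists_family (T := Cantor)
  let Θ : Elt → I → World d.PP → Prop := fun a i w =>
    Φ i w ∧ ∀ z ∈ d.YY w, InW z a.2.2 ∨ Om z a.1 a.2.1 → code z ∈ u i w
  have hΘ : ∀ a i, Measurable (Θ a i) := fun a i => (hΦ i).and (fam_YY.measurable_all
    fun x hx => ((measurable_inW hx _).or (measurable_om hx _ _)).imp
      (Named.measurable_mem (namedC_real hx) (hu i)))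
  choose B hB1 hB2 hB3 hB4 using fun a => d.ccc_PP.exists_antichain {p | ∃ i, Sem p (Θ a i)}
  have hB5 : ∀ a, Countable (B a) := fun a => (hB2 a).to_subtype
  choose idx hidx using fun x : Σ a, B a => hB1 x.1 x.2.2
  let b0 : Elt → Set (Raw L J) := fun a => Subtype.val '' B a
  have hb0 : ∀ a, (b0 a).Countable := fun a => (hB2 a).image _
  obtain ⟨ξ, hξ1, hξ2⟩ := exists_supp_bound (d := d) (countable_iUnion hb0)
  obtain ⟨β, hβ1, hβ2, hβ⟩ := d.book ξ hξ1 _ (selRn_countable ξ hb0)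
  let Ψ : World d.PP → Prop := fun w => ∀ F : Finset J, w.In F → (∀ j ∈ F, d.SideOK β j) → ∀ k,
    ∃ m W i, w.In i ∧ Θ (k, m, W) i w ∧ ∀ j ∈ F, InW (yy j w) W
  have hΨ : Measurable Ψ := measurable_all_in fun F => measurable_const.imp
    (Measurable.forall fun k => Measurable.exists fun m => Measurable.exists fun W =>
      measurable_ex_in fun i => (hΘ _ i).and (measurableSet_setOfPred.1 (by
        have := F.measurableSet_biInter fun j _ =>
          measurableSet_setOfPred.2 (measurable_inW (measurable_yy (d := d) j) W)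
        convert this
        ext w
        simp)))
  have hA : ∀ p, Sem p Ψ → Sem p (Unb β) := by
    intro p hp
    have : ∀ k, ∀ q ≤ p, ∃ r ≤ q, ∃ a : Elt, k ≤ a.1 ∧ (β, a) ∈ r.1.1 := by
      intro k q hq
      obtain ⟨r, a, c1, c2, c3, c4⟩ := sel_dense (b0 := b0) (fun a r hr => ⟨by
        obtain ⟨r, -, rfl⟩ := hr
        exact r.2, hξ2 r (mem_iUnion.2 ⟨a, hr⟩)⟩) hβ hβ1 hβ2 q.2 (fun F hF k => by
          obtain ⟨w, a1, a2, a3, a4, a5, a6⟩ := (hp.mono hq).exists (ev_generic.and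
            ((ev_const F).and ((ev_call fun a => ev_all fun i => ev_forced (hΘ a i)).and
              ((eventually_all_finset F).2 fun j hj => ev_yw (hF j hj).2.2))))
          obtain ⟨m, W, i, b1, b2, b3⟩ := a2 F a4 hF k
          obtain ⟨q1, b4, b5⟩ := a5 _ i b1 b2
          obtain ⟨q2, b6, b7, b8⟩ := a3.dir_finset a1 F (fun j p => d.YW p.1 j W)
            (fun j p q h h' => h'.mono h) fun j hj => a6 j hj W (b3 j hj)
          obtain ⟨q3, -, b9, b10⟩ := a3.dir q1 b4 q2 b6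
          obtain ⟨r, c1, q4, c2, c3⟩ := hB4 _ q3 ⟨i, b5.mono b9⟩
          exact ⟨q4.1, m, W, r.1, q4.2, c2.trans (b10.trans b7), ⟨r, c1, rfl⟩, c3,
            fun j hj => (b8 j hj).mono (c2.trans b10)⟩) k
      exact ⟨⟨r, c1⟩, c2, a, c3, c4⟩
    filter_upwards [ev_call fun k => ev_dense_has fun r : d.PP =>
      ∃ a : Elt, k ≤ a.1 ∧ (β, a) ∈ r.1.1] with w h1 h2 k
    obtain ⟨r, a1, -, a2⟩ := h1 k p h2 (this k)
    exact ⟨r, a1, a2⟩
  let Act : (Σ a, B a) → World d.PP → Prop := fun x w =>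
    w.Has x.2.1 ∧ w.Frc fun p => (β, x.1) ∈ p.1.1
  have hAct : ∀ x, Measurable (Act x) := fun x =>
    (measurable_has _).and (measurable_frc fun _ _ h h' => Le.sub1 h h')
  let v : World d.PP → ZFSet.{0} := fun w => ZFSet.range fun x : {x // Act x w} => u (idx x) w
  have hv : Named v := named_of_mem_iff (fun x => hu (idx x)) hAct (by
    filter_upwards [ev_ctype (Σ a, B a)] with w h z
    simp [v, h])
  filter_upwards [ev_generic, hdec, hv.ev_mem, ev_forced hΨ, ev_sem (Unb β),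
    ev_call fun x => ev_const (idx x), ev_call fun x : Σ a, B a => ev_sem (Θ x.1 (idx x)),
    ev_all fun F : Finset J => ev_countable_set (P := d.PP) F.countable_toSet,
    ev_catch hβ hβ1 hβ2] with w hw h1 h2 h3 h4 h5 h6 h7 h8 𝒰 e hopen homega
  obtain ⟨h9, h10⟩ := h1 𝒰 e
  have hΨw : Ψ w := by
    intro F a1 a2 k
    obtain ⟨m, W, V, b1, b2, b3⟩ := omega_step subset_union_left hopen homega F (fun j => yy j w)
      (fun j hj => Or.inr ⟨j, h7 F a1 j hj, (a2 j hj).2.2, rfl⟩) k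
    obtain ⟨i, c1, c2, rfl⟩ := h10 V b1
    exact ⟨m, W, i, c1, ⟨c2, fun z hz h => (hU _ _ _).1 (b2 z hz h)⟩, b3⟩
  have hunb : Unb β w := let ⟨p, a1, a2⟩ := h3 hΨw; h4 p (w.has_of_mem a1) (hA p a2)
  have hΘw : ∀ x, Act x w → Θ x.1 (idx x) w := fun x hx => h6 x _ hx.1 (hidx x)
  have hmem : ∀ x, Act x w → code (U (idx x) w) = u (idx x) w ∧ U (idx x) w ∈ 𝒰 :=
    fun x hx => h9 _ (h5 x) (hΘw x hx).1
  refine ⟨{V | ∃ x, Act x w ∧ U (idx x) w = V}, ?_, ?_, gamma_of_seq (fun x => x.1.1)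
    (fun k => ?_) (fun k => ?_) (fun y hy => ?_) fun x hx => ?_⟩
  · rintro _ ⟨x, hx, rfl⟩
    exact (hmem x hx).2
  · convert h2
    ext z
    simp only [mem_code_set, v, ZFSet.mem_range, Subtype.exists, exists_prop]
    constructor
    · rintro ⟨_, ⟨x, hx, rfl⟩, rfl⟩
      exact ⟨x, hx, (hmem x hx).1.symm⟩
    · rintro ⟨x, hx, rfl⟩
      exact ⟨_, ⟨x, hx, rfl⟩, (hmem x hx).1⟩
  · obtain ⟨p, a1, a, a2, a3⟩ := hunb k
    refine Finite.of_finite_image (f := Sigma.fst) ((stem p.1 β).finite_toSet.subset ?_) ?_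
    · rintro _ ⟨x, ⟨⟨-, q, b1, b2⟩, b3⟩, rfl⟩
      obtain ⟨r, -, c1, c2⟩ := hw.dir p a1 q b1
      by_contra hc
      have := Le.lt c1 (Le.sub1 c2 b2) (fun h => hc (mem_stem.2 h)) a3
      omega
    · rintro ⟨a, r⟩ ⟨⟨b1, -⟩, -⟩ ⟨a', r'⟩ ⟨⟨b2, -⟩, -⟩ (rfl : a = a')
      obtain ⟨s, -, c1⟩ := hw.has_and b1 b2
      by_contra hc
      exact hB3 a r.2 r'.2 (fun e => hc (by rw [Subtype.ext e])) ⟨s, c1⟩
  · obtain ⟨p, a1, a, a2, a3⟩ := hunb k
    obtain ⟨_, ⟨r, b1, rfl⟩, b2⟩ := (sel_adm hβ p.2 a3).1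
    exact ⟨⟨a, r, b1⟩, ⟨⟨p, a1, b2⟩, p, a1, a3⟩, a2⟩
  · obtain ⟨k, hk⟩ := h8 y hy
    refine ⟨k, fun x hx h => (hU _ _ _).2 ((hΘw x hx).2 y hy ?_)⟩
    obtain ⟨p, a1, a2⟩ := hx.2
    exact hk p a1 _ a2 h
  · by_contra hc
    push Not at hc
    obtain ⟨V, -, e'⟩ := hopen _ (hmem x hx).2
    have : U (idx x) w = d.YY w := subset_antisymm (e' ▸ inter_subset_left) hc
    exact homega.1 (this ▸ (hmem x hx).2)

end Data

end Pool.Agent.P.MP_27b523_gt
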