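import Pool.Agent.P.MP_27b523_gt.Dens

/-!
Existence of the data of the iteration.
-/

open Set Function Cardinal

namespace Pool.Agent.P.MP_27b523_gt

theorem exists_strict_bound {c : Cardinal.{0}} (hc : c.IsRegular) {S : Set c.ord.ToType}
    (hS : #S < c) : ∃ e, ∀ s ∈ S, s < e := by
  refine not_isCofinal_iff.1 fun h => ?_
  have := Order.cof_le h
  rw [Ordinal.cof_toType, hc.cof_ord] at this
  exact absurd hS (not_lt.2 this)

theorem mk_Iio_lt' {c : Cardinal.{0}} (i : c.ord.ToType) : #(Iio i) < c := by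
  simpa using mk_Iio_lt i

theorem exists_surj_of_le {A B : Type} [Nonempty B] (h : #B ≤ #A) :
    ∃ f : A → B, Surjective f := by
  obtain ⟨e⟩ := (Cardinal.le_def _ _).1 h
  exact ⟨invFun e, invFun_surjective e.injective⟩

theorem exists_enum {X : Type} {S : Set X} (h : S.Countable) :
    ∃ f : ℕ → Option X, ∀ r, (∃ n, f n = some r) ↔ r ∈ S := by
  obtain ⟨f, hf⟩ := ((h.image some).insert none).exists_eq_range (insert_nonempty _ _)
  refine ⟨f, fun r => ?_⟩
  have : some r ∈ range f ↔ r ∈ S := by rw [← hf]; simp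
  exact this

/-- all the data -/
structure Setup (O L J O2 : Type) [LinearOrder O] [OrderBot O] [LinearOrder L] [LinearOrder O2]
    extends Data O L J where
  coh : O2 → L
  coh_inj : Injective coh
  coh_cohen : ∀ a, toData.IsCohen (coh a)
  reg : ∀ (a : O2) (f : O2 → Set O2), (∀ b, (f b).Countable) → ∃ e, ∀ b < a, ∀ c ∈ f b, c < e
  small : ∀ C : Set O2, C.Countable → ∃ (a : O2) (e : O2 → O ⊕ O2),
    (∀ ξ, ∃ b < a, e b = .inl ξ) ∧ ∀ c ∈ C, ∃ b < a, e b = .inr c

theorem exists_setup : ∃ (O L J O2 : Type) (_ : LinearOrder O) (_ : OrderBot O)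
    (_ : WellFoundedLT O) (_ : LinearOrder L) (_ : WellFoundedLT L) (_ : LinearOrder O2)
    (_ : WellFoundedLT O2) (_ : Nonempty O2) (_ : NoMaxOrder O2), Nonempty (Setup O L J O2) := by
  classical
  let κ1 : Cardinal.{0} := ℵ₁
  let κ2 : Cardinal.{0} := Order.succ κ1
  let θ : Cardinal.{0} := 2 ^ κ2
  have h01 : ℵ₀ < κ1 := aleph0_lt_aleph_one
  have h12 : κ1 < κ2 := Order.lt_succ _
  have h2θ : κ2 < θ := cantor _
  have h0θ : ℵ₀ ≤ θ := (h01.trans (h12.trans h2θ)).le
  have r1 : κ1.IsRegular := isRegular_aleph_one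
  have r2 : κ2.IsRegular := isRegular_succ h01.le
  have hpow : θ ^ ℵ₀ = θ := by
    rw [← power_mul, mul_eq_left (h01.trans h12).le (h01.trans h12).le aleph0_ne_zero]
  let O := κ1.ord.ToType
  let O2 := κ2.ord.ToType
  let K := θ.ord.ToType
  have cO : #O = κ1 := mk_ord_toType _
  have cO2 : #O2 = κ2 := mk_ord_toType _
  have cK : #K = θ := mk_ord_toType _
  have iO : Infinite O := infinite_iff.2 (cO ▸ h01.le)
  have iO2 : Infinite O2 := infinite_iff.2 (cO2 ▸ (h01.trans h12).le)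
  have iK : Infinite K := infinite_iff.2 (cK ▸ h0θ)
  let bO : OrderBot O := WellFoundedLT.toOrderBot _
  let bK : OrderBot K := WellFoundedLT.toOrderBot _
  let L := O ×ₗ K
  have cL : #L = θ := by
    change #(O × K) = θ
    rw [mk_prod, lift_id, lift_id, cO, cK, mul_eq_right h0θ (h12.trans h2θ).le (h01.pos.trans_le' le_rfl).ne']
  have iL : Infinite L := infinite_iff.2 (cL ▸ h0θ)
  have cR : #(Raw L K) = θ := by
    have cE : #Elt = ℵ₀ := mk_eq_aleph0 _
    rw [mk_prod, lift_id, lift_id, mk_finset_of_infinite, mk_finset_of_infinite, mk_prod L Elt,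
      mk_prod L K, lift_id, lift_id, lift_id, cL, cK, cE, mul_aleph0_eq h0θ, mul_eq_self h0θ,
      mul_eq_self h0θ]
  have iR : Infinite (Raw L K) := infinite_iff.2 (cR ▸ h0θ)
  obtain ⟨sJ, hsJ⟩ : ∃ f : K → O × (ℕ → ℕ → Raw L K × Bool), Surjective f := by
    refine exists_surj_of_le (le_of_eq ?_)
    have : #(Raw L K × Bool) = θ := by
      rw [mk_prod, lift_id, lift_id, cR, mk_bool]
      exact mul_eq_left h0θ ((natCast_lt_aleph0 (n := 2)).le.trans h0θ) two_ne_zero
    rw [mk_prod, lift_id, lift_id, ← power_def, ← power_def, this, mk_nat, hpow, hpow, cO, cK,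
      mul_eq_right h0θ (h12.trans h2θ).le (h01.pos.trans_le' le_rfl).ne']
  obtain ⟨bk, hbk⟩ : ∃ f : K → (Elt → ℕ → Option (Raw L K)), Surjective f := by
    refine exists_surj_of_le (le_of_eq ?_)
    have cE : #Elt = ℵ₀ := mk_eq_aleph0 _
    rw [← power_def, ← power_def, mk_option, cR, add_one_eq h0θ, mk_nat, hpow, cE, hpow, cK]
  obtain ⟨g⟩ : Nonempty (({⊥}ᶜ : Set K) ≃ K) := by
    rw [← Cardinal.eq]
    exact mk_compl_of_infinite _ (by rw [mk_singleton, cK]; exact one_lt_aleph0.trans_le h0θ)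
  obtain ⟨e2⟩ : Nonempty (O2 ↪ K) := (Cardinal.le_def _ _).1 (by rw [cO2, cK]; exact h2θ.le)
  let Rn : L → Elt → Set (Raw L K) := fun β a =>
    if h : (ofLex β).2 = ⊥ then {r | TowOK a ∧ r = (∅, ∅)}
    else if (ofLex β).1 = ⊥ then {(∅, ∅)} else {r | ∃ n, bk (g ⟨(ofLex β).2, h⟩) a n = some r}
  refine ⟨O, L, K, O2, inferInstance, bO, inferInstance, inferInstance, inferInstance,
    inferInstance, inferInstance, inferInstance, Cardinal.noMaxOrder (h01.trans h12).le, ⟨{
      blk := fun β => (ofLex β).1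
      τ := fun ξ => toLex (ξ, ⊥)
      η := fun j => (sJ j).1
      z := fun j => (sJ j).2
      Rn := Rn
      τ_lt := fun ξ β h => Prod.Lex.lt_iff.2 (Or.inl h)
      blk_τ := fun _ => rfl
      surj := fun ξ y => let ⟨j, hj⟩ := hsJ (ξ, y); ⟨j, by rw [hj], by rw [hj]⟩
      Rn_countable := fun β a => ?_
      Rn_tower := fun ξ a r => by simp [Rn]
      book := fun ξ hξ R hR => ?_
      bdd := fun S hS => ?_
      Iio_countable := fun ξ => ?_
      coh := fun a => toLex (⊥, (g.symm (e2 a)).1)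
      coh_inj := fun a b h => ?_
      coh_cohen := fun a => ⟨fun b => ?_, rfl⟩
      reg := fun a f hf => ?_
      small := fun C hC => ?_ }⟩⟩
  · simp only [Rn]
    split_ifs
    · exact (countable_singleton (∅, ∅)).mono fun r hr => hr.2
    · exact countable_singleton _
    · exact ((countable_range _).preimage (Option.some_injective _)).mono fun r hr => hr
  · choose f hf using fun a => exists_enum (hR a)
    obtain ⟨k, hk⟩ := hbk f
    have h1 : (g.symm k).1 ≠ ⊥ := (g.symm k).2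
    refine ⟨toLex (ξ, (g.symm k).1), rfl, Prod.Lex.lt_iff.2 (Or.inr ⟨rfl, bot_lt_iff_ne_bot.2 h1⟩),
      funext fun a => ?_⟩
    ext r
    simp [Rn, h1, hξ, hk, hf]
  · obtain ⟨ξ, hξ⟩ := exists_strict_bound r1 (S := insert ⊥ ((fun β : L => (ofLex β).1) '' S))
      ((le_aleph0_iff_set_countable.2 ((hS.image _).insert _)).trans_lt h01)
    exact ⟨ξ, (hξ _ (mem_insert _ _)).ne', fun β hβ =>
      Prod.Lex.lt_iff.2 (Or.inl (hξ _ (Or.inr ⟨β, hβ, rfl⟩)))⟩
  · exact le_aleph0_iff_set_countable.1 (lt_aleph_one_iff.1 (mk_Iio_lt' ξ))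
  · exact e2.injective (g.symm.injective (Subtype.ext (congrArg (fun β : L => (ofLex β).2) h)))
  · have h1 : (g.symm (e2 a)).1 ≠ ⊥ := (g.symm (e2 a)).2
    simp [Rn, h1]
  · obtain ⟨e, he⟩ := exists_strict_bound r2 (S := ⋃ b ∈ Iio a, f b) (by
      refine (mk_biUnion_le _ _).trans_lt ?_
      refine mul_lt_of_lt r2.aleph0_le (mk_Iio_lt' a) ?_
      exact (ciSup_le' fun b : Iio a => le_aleph0_iff_set_countable.2 (hf b)).trans_lt (h01.trans h12))
    exact ⟨e, fun b hb c hc => he c (mem_biUnion hb hc)⟩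
  · have := hC.to_subtype
    obtain ⟨i⟩ : Nonempty (O ⊕ C ↪ O2) := (Cardinal.le_def _ _).1 (by
      rw [cO2, mk_sum, lift_id, lift_id, cO]
      exact (add_lt_of_lt r2.aleph0_le h12 (mk_le_aleph0.trans_lt (h01.trans h12))).le)
    obtain ⟨a, ha⟩ := exists_strict_bound r2 (S := range i) (by
      refine mk_range_le.trans_lt ?_
      rw [mk_sum, lift_id, lift_id, cO]
      exact add_lt_of_lt r2.aleph0_le h12 (mk_le_aleph0.trans_lt (h01.trans h12)))
    refine ⟨a, fun b => Sum.map id Subtype.val (invFun i b), fun ξ =>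
      ⟨i (.inl ξ), ha _ (mem_range_self _), ?_⟩, fun c hc =>
      ⟨i (.inr ⟨c, hc⟩), ha _ (mem_range_self _), ?_⟩⟩
    · simp only [leftInverse_invFun i.injective _]; rfl
    · simp only [leftInverse_invFun i.injective _]; rfl

end Pool.Agent.P.MP_27b523_gt
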