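import Mathlib

/-!
A finite support iteration of Mathias type posets, described directly.
-/

open Set

namespace Pool.Agent.P.MP_27b523_gt

/-- codes for clopen sets: finite unions of cylinders -/
abbrev Clop : Type := Finset (ℕ × Finset ℕ)

/-- stem elements `(k, m, W)` -/
abbrev Elt : Type := ℕ × ℕ × Clop

/-- raw conditions: stems and side conditions -/
abbrev Raw (L J : Type) : Type := Finset (L × Elt) × Finset (L × J)

/-- admissible elements at a tower coordinate -/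
def TowOK (a : Elt) : Prop := ∀ c ∈ a.2.2, a.1 < c.1 ∧ a.1 ∈ c.2

/-- the data of the iteration -/
structure Data (O L J : Type) [LinearOrder O] [OrderBot O] [LinearOrder L] where
  blk : L → O
  τ : O → L
  η : J → O
  z : J → ℕ → ℕ → Raw L J × Bool
  Rn : L → Elt → Set (Raw L J)
  τ_lt : ∀ ξ β, ξ < blk β → τ ξ < β
  blk_τ : ∀ ξ, blk (τ ξ) = ξ
  surj : ∀ ξ (y : ℕ → ℕ → Raw L J × Bool), ∃ j, η j = ξ ∧ z j = y
  Rn_countable : ∀ β a, (Rn β a).Countable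
  Rn_tower : ∀ ξ a r, r ∈ Rn (τ ξ) a ↔ TowOK a ∧ r = (∅, ∅)
  book : ∀ ξ ≠ ⊥, ∀ R : Elt → Set (Raw L J), (∀ a, (R a).Countable) →
    ∃ β, blk β = ξ ∧ τ ξ < β ∧ Rn β = R
  bdd : ∀ S : Set L, S.Countable → ∃ ξ ≠ ⊥, ∀ β ∈ S, β < τ ξ
  Iio_countable : ∀ ξ : O, (Iio ξ).Countable

variable {O L J : Type} [LinearOrder O] [OrderBot O] [LinearOrder L]

/-- `n` is in the generic real at `β` -/
def InT (q : Raw L J) (β : L) (n : ℕ) : Prop := ∃ a, (β, a) ∈ q.1 ∧ a.1 = n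

/-- `n` is not in the generic real at `β` -/
def OutT (q : Raw L J) (β : L) (n : ℕ) : Prop :=
  (∀ a, (β, a) ∈ q.1 → a.1 ≠ n) ∧ ∃ a, (β, a) ∈ q.1 ∧ n < a.1

/-- the generic real at `β` omits `[n, m)` -/
def Omit (q : Raw L J) (β : L) (n m : ℕ) : Prop :=
  (∀ a, (β, a) ∈ q.1 → a.1 < n ∨ m ≤ a.1) ∧ ∃ a, (β, a) ∈ q.1 ∧ m ≤ a.1

/-- support -/
def SuppIn (p : Raw L J) (I : Set L) : Prop :=
  (∀ β a, (β, a) ∈ p.1 → β ∈ I) ∧ ∀ β j, (β, j) ∈ p.2 → β ∈ I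

omit [LinearOrder L] in
theorem SuppIn.mono {p : Raw L J} {I I' : Set L} (h : SuppIn p I) (hI : I ⊆ I') : SuppIn p I' :=
  ⟨fun β a h' => hI (h.1 β a h'), fun β a h' => hI (h.2 β a h')⟩

namespace Data

variable (d : Data O L J)

section step
variable (R : Raw L J → Raw L J → Prop)

def Zd' (q : Raw L J) (j : J) (n : ℕ) (b : Bool) : Prop :=
  ∃ m, (d.z j n m).2 = b ∧ R q (d.z j n m).1

def YW' (q : Raw L J) (j : J) (W : Clop) : Prop :=
  ∃ c ∈ W, ∀ n < c.1, (n ∈ c.2 → d.Zd' R q j n true ∧ InT q (d.τ (d.η j)) n) ∧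
    (n ∉ c.2 → d.Zd' R q j n false ∨ OutT q (d.τ (d.η j)) n)

def Step (q p : Raw L J) : Prop :=
  p.1 ⊆ q.1 ∧ p.2 ⊆ q.2 ∧ ∀ β a, (β, a) ∈ q.1 → (β, a) ∉ p.1 →
    (∀ b, (β, b) ∈ p.1 → b.1 < a.1) ∧ ∀ j, (β, j) ∈ p.2 → d.YW' R q j a.2.2

variable {d R} {R' : Raw L J → Raw L J → Prop}

theorem YW'.imp {q q' : Raw L J} {j : J} {W : Clop} (h : d.YW' R q j W)
    (h1 : ∀ n m, R q (d.z j n m).1 → R' q' (d.z j n m).1)
    (h2 : ∀ n, InT q (d.τ (d.η j)) n → InT q' (d.τ (d.η j)) n)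
    (h3 : ∀ n, OutT q (d.τ (d.η j)) n → OutT q' (d.τ (d.η j)) n) : d.YW' R' q' j W := by
  obtain ⟨c, hc, h⟩ := h
  refine ⟨c, hc, fun n hn => ⟨fun h' => ?_, fun h' => ?_⟩⟩
  · obtain ⟨⟨m, a1, a2⟩, a3⟩ := (h n hn).1 h'
    exact ⟨⟨m, a1, h1 _ _ a2⟩, h2 _ a3⟩
  · rcases (h n hn).2 h' with ⟨m, a1, a2⟩ | a3
    · exact Or.inl ⟨m, a1, h1 _ _ a2⟩
    · exact Or.inr (h3 _ a3)

theorem Step.imp {q p : Raw L J} (h : d.Step R q p) (h1 : ∀ w, R q w → R' q w) :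
    d.Step R' q p :=
  ⟨h.1, h.2.1, fun β a ha ha' => ⟨(h.2.2 β a ha ha').1, fun j hj =>
    ((h.2.2 β a ha ha').2 j hj).imp (fun _ _ => h1 _) (fun _ => id) fun _ => id⟩⟩

end step

/-- the order -/
def Le (q p : Raw L J) : Prop := ∀ R, (∀ q p, d.Step R q p → R q p) → R q p

/-- `q` decides the `n`-th bit of the name `z j` -/
def Zd (q : Raw L J) (j : J) (n : ℕ) (b : Bool) : Prop := d.Zd' d.Le q j n b

/-- `q` forces the point named by `j` into `W` -/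
def YW (q : Raw L J) (j : J) (W : Clop) : Prop := d.YW' d.Le q j W

variable {d}

theorem le_of_step {q p : Raw L J} (h : d.Step d.Le q p) : d.Le q p :=
  fun R hR => hR _ _ (h.imp fun _ hw => hw R hR)

theorem Le.ind {R : Raw L J → Raw L J → Prop}
    (h : ∀ q p, d.Step (fun a b => d.Le a b ∧ R a b) q p → R q p) {q p : Raw L J}
    (hle : d.Le q p) : R q p :=
  (hle (fun a b => d.Le a b ∧ R a b) fun q p hs =>
    ⟨le_of_step (hs.imp fun _ hw => hw.1), h q p hs⟩).2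

theorem Le.step {q p : Raw L J} (hle : d.Le q p) : d.Step d.Le q p :=
  hle.ind (R := d.Step d.Le) fun _ _ hs => hs.imp fun _ hw => hw.1

theorem Le.sub1 {q p : Raw L J} (h : d.Le q p) : p.1 ⊆ q.1 := h.step.1
theorem Le.sub2 {q p : Raw L J} (h : d.Le q p) : p.2 ⊆ q.2 := h.step.2.1
theorem Le.lt {q p : Raw L J} (h : d.Le q p) {β : L} {a b : Elt} (h1 : (β, a) ∈ q.1)
    (h2 : (β, a) ∉ p.1) (h3 : (β, b) ∈ p.1) : b.1 < a.1 := (h.step.2.2 β a h1 h2).1 b h3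
theorem Le.yw {q p : Raw L J} (h : d.Le q p) {β : L} {a : Elt} {j : J} (h1 : (β, a) ∈ q.1)
    (h2 : (β, a) ∉ p.1) (h3 : (β, j) ∈ p.2) : d.YW q j a.2.2 := (h.step.2.2 β a h1 h2).2 j h3

theorem le_intro {q p : Raw L J} (h1 : p.1 ⊆ q.1) (h2 : p.2 ⊆ q.2)
    (h3 : ∀ β a, (β, a) ∈ q.1 → (β, a) ∉ p.1 →
      (∀ b, (β, b) ∈ p.1 → b.1 < a.1) ∧ ∀ j, (β, j) ∈ p.2 → d.YW q j a.2.2) : d.Le q p :=
  le_of_step ⟨h1, h2, h3⟩

theorem le_of_agree {q p : Raw L J} (h1 : p.1 ⊆ q.1) (h2 : p.2 ⊆ q.2)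
    (h3 : ∀ β a, (β, a) ∈ q.1 → (β, a) ∉ p.1 → (∀ b, (β, b) ∉ p.1) ∧ ∀ j, (β, j) ∉ p.2) :
    d.Le q p :=
  le_intro h1 h2 fun β a ha ha' => ⟨fun b hb => absurd hb ((h3 β a ha ha').1 b),
    fun j hj => absurd hj ((h3 β a ha ha').2 j)⟩

theorem le_refl (p : Raw L J) : d.Le p p :=
  le_of_agree subset_rfl subset_rfl fun _ _ h h' => absurd h h'

theorem le_empty (p : Raw L J) : d.Le p (∅, ∅) :=
  le_of_agree (Finset.empty_subset _) (Finset.empty_subset _) fun _ _ _ _ => by simp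

theorem Le.inT {q p : Raw L J} (h : d.Le q p) {β : L} {n : ℕ} (h' : InT p β n) : InT q β n :=
  let ⟨a, h1, h2⟩ := h'; ⟨a, h.sub1 h1, h2⟩

theorem Le.outT {q p : Raw L J} (h : d.Le q p) {β : L} {n : ℕ} (h' : OutT p β n) :
    OutT q β n := by
  obtain ⟨h1, b, h2, h3⟩ := h'
  refine ⟨fun a ha => ?_, b, h.sub1 h2, h3⟩
  by_cases ha' : (β, a) ∈ p.1
  · exact h1 a ha'
  · exact (h3.trans (h.lt ha ha' h2)).ne'

theorem Le.omit {q p : Raw L J} (h : d.Le q p) {β : L} {n m : ℕ} (h' : Omit p β n m) :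
    Omit q β n m := by
  obtain ⟨h1, b, h2, h3⟩ := h'
  refine ⟨fun a ha => ?_, b, h.sub1 h2, h3⟩
  by_cases ha' : (β, a) ∈ p.1
  · exact h1 a ha'
  · exact Or.inr (h3.trans (h.lt ha ha' h2).le)

theorem Le.trans {q p o : Raw L J} (h1 : d.Le q p) (h2 : d.Le p o) : d.Le q o := by
  refine h2.ind (R := fun p o => ∀ q, d.Le q p → d.Le q o) (fun p o hs q hq => ?_) q h1
  refine le_intro (hs.1.trans hq.sub1) (hs.2.1.trans hq.sub2) fun β a ha ha' => ?_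
  by_cases hp : (β, a) ∈ p.1
  · exact ⟨(hs.2.2 β a hp ha').1, fun j hj => ((hs.2.2 β a hp ha').2 j hj).imp
      (fun _ _ h => h.2 q hq) (fun _ => hq.inT) fun _ => hq.outT⟩
  · exact ⟨fun b hb => hq.lt ha hp (hs.1 hb), fun j hj => hq.yw ha hp (hs.2.1 hj)⟩

theorem Zd.mono {q p : Raw L J} {j : J} {n : ℕ} {b : Bool} (h : d.Zd p j n b) (hq : d.Le q p) :
    d.Zd q j n b := let ⟨m, h1, h2⟩ := h; ⟨m, h1, hq.trans h2⟩

theorem YW.mono {q p : Raw L J} {j : J} {W : Clop} (h : d.YW p j W) (hq : d.Le q p) :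
    d.YW q j W := YW'.imp h (fun _ _ h => hq.trans h) (fun _ => hq.inT) fun _ => hq.outT

variable (d)

/-- total consistent names for reals, relative to a notion of validity -/
def NameOK' (V : Raw L J → Prop) (l : L) (y : ℕ → ℕ → Raw L J × Bool) : Prop :=
  (∀ n m, SuppIn (y n m).1 (Iic l) ∧ V (y n m).1) ∧
  (∀ n p, SuppIn p (Iic l) → V p → ∃ q m, SuppIn q (Iic l) ∧ V q ∧ d.Le q p ∧ d.Le q (y n m).1) ∧
  ∀ n m m' q, SuppIn q (Iic l) → V q → d.Le q (y n m).1 → d.Le q (y n m').1 →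
    (y n m).2 = (y n m').2

theorem nameOK'_congr {V V' : Raw L J → Prop} {l : L} {y : ℕ → ℕ → Raw L J × Bool}
    (h : ∀ q, SuppIn q (Iic l) → (V q ↔ V' q)) (h' : d.NameOK' V l y) : d.NameOK' V' l y := by
  refine ⟨fun n m => ⟨(h'.1 n m).1, (h _ (h'.1 n m).1).1 (h'.1 n m).2⟩, fun n p h1 h2 => ?_,
    fun n m m' q h1 h2 => h'.2.2 n m m' q h1 ((h q h1).2 h2)⟩
  obtain ⟨q, m, a1, a2, a3⟩ := h'.2.1 n p h1 ((h p h1).2 h2)
  exact ⟨q, m, a1, (h q a1).1 a2, a3⟩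

section wf
variable [WellFoundedLT L]

/-- validity at one coordinate -/
def ValidAt : L → Raw L J → Prop :=
  (wellFounded_lt (α := L)).fix fun β V p =>
    (∀ a, (β, a) ∈ p.1 → ∃ r ∈ d.Rn β a, SuppIn r (Iio β) ∧
      (∀ γ (h : γ < β), V γ h r) ∧ d.Le p r) ∧
    ∀ j, (β, j) ∈ p.2 → d.η j < d.blk β ∧
      (β = d.τ (d.blk β) → ∀ n m, d.z j n m = ((∅, ∅), true)) ∧
      d.NameOK' (fun q => ∀ γ (h : γ < β), V γ h q) (d.τ (d.η j)) (d.z j)

theorem validAt_eq (β : L) (p : Raw L J) : d.ValidAt β p ↔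
    (∀ a, (β, a) ∈ p.1 → ∃ r ∈ d.Rn β a, SuppIn r (Iio β) ∧
      (∀ γ, γ < β → d.ValidAt γ r) ∧ d.Le p r) ∧
    ∀ j, (β, j) ∈ p.2 → d.η j < d.blk β ∧
      (β = d.τ (d.blk β) → ∀ n m, d.z j n m = ((∅, ∅), true)) ∧
      d.NameOK' (fun q => ∀ γ, γ < β → d.ValidAt γ q) (d.τ (d.η j)) (d.z j) := by
  rw [ValidAt, WellFounded.fix_eq]

/-- conditions -/
def Valid (p : Raw L J) : Prop := ∀ β, d.ValidAt β p

def NameOK (l : L) (y : ℕ → ℕ → Raw L J × Bool) : Prop := d.NameOK' d.Valid l y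

def Adm (β : L) (a : Elt) (p : Raw L J) : Prop :=
  ∃ r ∈ d.Rn β a, SuppIn r (Iio β) ∧ d.Valid r ∧ d.Le p r

def SideOK (β : L) (j : J) : Prop :=
  d.η j < d.blk β ∧ (β = d.τ (d.blk β) → ∀ n m, d.z j n m = ((∅, ∅), true)) ∧
    d.NameOK (d.τ (d.η j)) (d.z j)

variable {d}

theorem valid_iff_lt {q : Raw L J} {β : L} (h : SuppIn q (Iio β)) :
    (∀ γ, γ < β → d.ValidAt γ q) ↔ d.Valid q := by
  refine ⟨fun h' γ => ?_, fun h' γ _ => h' γ⟩
  by_cases hγ : γ < β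
  · exact h' γ hγ
  · rw [validAt_eq]
    exact ⟨fun a ha => absurd (h.1 _ _ ha) hγ, fun a ha => absurd (h.2 _ _ ha) hγ⟩

theorem validAt_iff {p : Raw L J} {β : L} : d.ValidAt β p ↔
    (∀ a, (β, a) ∈ p.1 → d.Adm β a p) ∧ ∀ j, (β, j) ∈ p.2 → d.SideOK β j := by
  rw [validAt_eq]
  refine and_congr (forall₂_congr fun a _ => ?_) (forall₂_congr fun j _ => ?_)
  · refine exists_congr fun r => and_congr_right fun _ => and_congr_right fun h => ?_
    rw [valid_iff_lt h]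
  · refine and_congr_right fun h => and_congr_right fun _ => ?_
    have hlt := d.τ_lt _ _ h
    have : ∀ q : Raw L J, SuppIn q (Iic (d.τ (d.η j))) →
        ((∀ γ, γ < β → d.ValidAt γ q) ↔ d.Valid q) :=
      fun q hq => valid_iff_lt (hq.mono fun x hx => lt_of_le_of_lt hx hlt)
    exact ⟨d.nameOK'_congr this, d.nameOK'_congr fun q hq => (this q hq).symm⟩

theorem Valid.adm {p : Raw L J} (h : d.Valid p) {β : L} {a : Elt} (ha : (β, a) ∈ p.1) :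
    d.Adm β a p := (validAt_iff.1 (h β)).1 a ha

theorem Valid.side {p : Raw L J} (h : d.Valid p) {β : L} {j : J} (hj : (β, j) ∈ p.2) :
    d.SideOK β j := (validAt_iff.1 (h β)).2 j hj

theorem valid_intro {p : Raw L J} (h1 : ∀ β a, (β, a) ∈ p.1 → d.Adm β a p)
    (h2 : ∀ β j, (β, j) ∈ p.2 → d.SideOK β j) : d.Valid p :=
  fun β => validAt_iff.2 ⟨h1 β, h2 β⟩

theorem Adm.mono {β : L} {a : Elt} {p q : Raw L J} (h : d.Adm β a p) (hq : d.Le q p) :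
    d.Adm β a q := let ⟨r, h1, h2, h3, h4⟩ := h; ⟨r, h1, h2, h3, hq.trans h4⟩

theorem valid_empty : d.Valid (∅, ∅) := valid_intro (by simp) (by simp)

theorem SideOK.lt {β : L} {j : J} (h : d.SideOK β j) : d.τ (d.η j) < β := d.τ_lt _ _ h.1

end wf

variable {d}

/-- hereditarily supported in `A` -/
inductive InA (d : Data O L J) (A : Set L) : Raw L J → Prop
  | mk (p : Raw L J) : (∀ β a, (β, a) ∈ p.1 → β ∈ A) → (∀ β j, (β, j) ∈ p.2 → β ∈ A) →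
    (∀ β j, (β, j) ∈ p.2 → d.τ (d.η j) ∈ A) →
    (∀ β j n m, (β, j) ∈ p.2 → InA d A (d.z j n m).1) → InA d A p

variable (d) in
def AName (A : Set L) (j : J) : Prop := d.τ (d.η j) ∈ A ∧ ∀ n m, d.InA A (d.z j n m).1

theorem inA_iff {A : Set L} {p : Raw L J} : d.InA A p ↔
    (∀ β a, (β, a) ∈ p.1 → β ∈ A) ∧ ∀ β j, (β, j) ∈ p.2 → β ∈ A ∧ d.AName A j := by
  constructor
  · rintro ⟨_, h1, h2, h3, h4⟩
    exact ⟨h1, fun β j h => ⟨h2 β j h, h3 β j h, fun n m => h4 β j n m h⟩⟩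
  · rintro ⟨h1, h2⟩
    exact ⟨p, h1, fun β j h => (h2 β j h).1, fun β j h => (h2 β j h).2.1,
      fun β j n m h => (h2 β j h).2.2 n m⟩

theorem InA.suppIn {A : Set L} {p : Raw L J} (h : d.InA A p) : SuppIn p A :=
  ⟨(inA_iff.1 h).1, fun β j hj => ((inA_iff.1 h).2 β j hj).1⟩

theorem InA.aname {A : Set L} {p : Raw L J} (h : d.InA A p) {β : L} {j : J}
    (hj : (β, j) ∈ p.2) : d.AName A j := ((inA_iff.1 h).2 β j hj).2

theorem InA.mono {A B : Set L} {p : Raw L J} (h : d.InA A p) (hAB : A ⊆ B) : d.InA B p := by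
  induction h with
  | mk p h1 h2 h3 _ ih =>
    exact ⟨p, fun β a h => hAB (h1 β a h), fun β a h => hAB (h2 β a h),
      fun β a h => hAB (h3 β a h), ih⟩

theorem InA.inter {A B : Set L} {p : Raw L J} (h : d.InA A p) (h' : d.InA B p) :
    d.InA (A ∩ B) p := by
  induction h with
  | mk p h1 h2 h3 _ ih =>
    obtain ⟨_, a1, a2, a3, a4⟩ := h'
    exact ⟨p, fun β a h => ⟨h1 β a h, a1 β a h⟩, fun β a h => ⟨h2 β a h, a2 β a h⟩,
      fun β a h => ⟨h3 β a h, a3 β a h⟩, fun β j n m h => ih β j n m h (a4 β j n m h)⟩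

theorem AName.mono {A B : Set L} {j : J} (h : d.AName A j) (hAB : A ⊆ B) : d.AName B j :=
  ⟨hAB h.1, fun n m => (h.2 n m).mono hAB⟩

theorem AName.inter {A B : Set L} {j : J} (h : d.AName A j) (h' : d.AName B j) :
    d.AName (A ∩ B) j := ⟨⟨h.1, h'.1⟩, fun n m => (h.2 n m).inter (h'.2 n m)⟩

theorem InA.of_subset {A : Set L} {p q : Raw L J} (h : d.InA A p) (h1 : q.1 ⊆ p.1)
    (h2 : q.2 ⊆ p.2) : d.InA A q :=
  inA_iff.2 ⟨fun β a ha => (inA_iff.1 h).1 β a (h1 ha), fun β j hj => (inA_iff.1 h).2 β j (h2 hj)⟩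

theorem inA_empty (A : Set L) : d.InA A (∅, ∅) := inA_iff.2 ⟨by simp, by simp⟩

open Classical in
variable (d) in
/-- the `A`-part of a condition -/
noncomputable def res (A : Set L) (p : Raw L J) : Raw L J :=
  (p.1.filter fun x => x.1 ∈ A, p.2.filter fun x => x.1 ∈ A ∧ d.AName A x.2)

theorem mem_res1 {A : Set L} {p : Raw L J} {β : L} {a : Elt} :
    (β, a) ∈ (d.res A p).1 ↔ (β, a) ∈ p.1 ∧ β ∈ A := by simp [res]

theorem mem_res2 {A : Set L} {p : Raw L J} {β : L} {j : J} :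
    (β, j) ∈ (d.res A p).2 ↔ (β, j) ∈ p.2 ∧ β ∈ A ∧ d.AName A j := by simp [res]

theorem res_sub1 {A : Set L} {p : Raw L J} : (d.res A p).1 ⊆ p.1 :=
  fun ⟨_, _⟩ h => (mem_res1.1 h).1

theorem res_sub2 {A : Set L} {p : Raw L J} : (d.res A p).2 ⊆ p.2 :=
  fun ⟨_, _⟩ h => (mem_res2.1 h).1

theorem res_inA (A : Set L) (p : Raw L J) : d.InA A (d.res A p) :=
  inA_iff.2 ⟨fun _ _ h => (mem_res1.1 h).2, fun _ _ h => (mem_res2.1 h).2⟩

theorem InA.res {A : Set L} {p : Raw L J} (h : d.InA A p) (B : Set L) : d.InA A (d.res B p) :=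
  h.of_subset res_sub1 res_sub2

theorem le_res (A : Set L) (p : Raw L J) : d.Le p (d.res A p) :=
  le_of_agree res_sub1 res_sub2 fun _ _ h1 h2 =>
    ⟨fun _ hb => h2 (mem_res1.2 ⟨h1, (mem_res1.1 hb).2⟩),
      fun _ hb => h2 (mem_res1.2 ⟨h1, (mem_res2.1 hb).2.1⟩)⟩

theorem _root_.Pool.Agent.P.MP_27b523_gt.InT.res {A : Set L} {p : Raw L J} {β : L} {n : ℕ}
    (h : InT p β n) (hβ : β ∈ A) : InT (d.res A p) β n :=
  let ⟨a, h1, h2⟩ := h; ⟨a, mem_res1.2 ⟨h1, hβ⟩, h2⟩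

theorem _root_.Pool.Agent.P.MP_27b523_gt.OutT.res {A : Set L} {p : Raw L J} {β : L} {n : ℕ}
    (h : OutT p β n) (hβ : β ∈ A) : OutT (d.res A p) β n :=
  let ⟨h0, a, h1, h2⟩ := h; ⟨fun b hb => h0 b (res_sub1 hb), a, mem_res1.2 ⟨h1, hβ⟩, h2⟩

theorem Le.res {A : Set L} {q w : Raw L J} (h : d.Le q w) (hw : d.InA A w) :
    d.Le (d.res A q) w := by
  refine h.ind (R := fun q w => d.InA A w → d.Le (d.res A q) w) (fun q w hs hw => ?_) hw
  refine le_intro (fun ⟨β, a⟩ h => mem_res1.2 ⟨hs.1 h, hw.suppIn.1 _ _ h⟩)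
    (fun ⟨β, j⟩ h => mem_res2.2 ⟨hs.2.1 h, hw.suppIn.2 _ _ h, hw.aname h⟩) fun β a ha ha' => ?_
  have := hs.2.2 β a (res_sub1 ha) ha'
  exact ⟨this.1, fun j hj => (this.2 j hj).imp (fun n m h => h.2 ((hw.aname hj).2 n m))
    (fun _ h => h.res (hw.aname hj).1) fun _ h => h.res (hw.aname hj).1⟩

theorem YW.res {A : Set L} {q : Raw L J} {j : J} {W : Clop} (h : d.YW q j W)
    (hj : d.AName A j) : d.YW (d.res A q) j W :=
  YW'.imp h (fun n m h => h.res (hj.2 n m)) (fun _ h => h.res hj.1) fun _ h => h.res hj.1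

variable [WellFoundedLT L]

variable (d) in
/-- closed sets of coordinates -/
def Closed (A : Set L) : Prop :=
  ∀ β ∈ A, (∀ a, ∀ r ∈ d.Rn β a, SuppIn r (Iio β) → d.Valid r → d.InA A r) ∧
    ∀ ξ < d.blk β, d.τ ξ ∈ A

theorem Valid.res {A : Set L} (hA : d.Closed A) {p : Raw L J} (h : d.Valid p) :
    d.Valid (d.res A p) := by
  refine valid_intro (fun β a ha => ?_) fun β j hj => h.side (res_sub2 hj)
  obtain ⟨r, h1, h2, h3, h4⟩ := h.adm (res_sub1 ha)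
  exact ⟨r, h1, h2, h3, h4.res ((hA β (mem_res1.1 ha).2).1 a r h1 h2 h3)⟩

theorem inA_lower_aux {I : Set L} (hI : IsLowerSet I) (γ : L) :
    ∀ p, d.Valid p → SuppIn p (Iic γ) → SuppIn p I → d.InA I p := by
  induction γ using WellFoundedLT.induction with
  | ind γ ih =>
  intro p h1 h2 h3
  refine inA_iff.2 ⟨h3.1, fun β j hj => ⟨h3.2 β j hj, ?_⟩⟩
  have hs := h1.side hj
  have hI' := hI hs.lt.le (h3.2 β j hj)
  exact ⟨hI', fun n m => ih _ (hs.lt.trans_le (h2.2 β j hj)) _ (hs.2.2.1 n m).2 (hs.2.2.1 n m).1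
    ((hs.2.2.1 n m).1.mono fun x hx => hI hx hI')⟩

theorem NameOK.aname {I : Set L} (hI : IsLowerSet I) {j : J}
    (h : d.NameOK (d.τ (d.η j)) (d.z j)) (hj : d.τ (d.η j) ∈ I) : d.AName I j :=
  ⟨hj, fun n m => inA_lower_aux hI _ _ (h.1 n m).2 (h.1 n m).1
    ((h.1 n m).1.mono fun _ hx => hI hx hj)⟩

theorem Valid.inA {I : Set L} (hI : IsLowerSet I) {p : Raw L J} (h : d.Valid p)
    (h' : SuppIn p I) : d.InA I p :=
  inA_iff.2 ⟨h'.1, fun β j hj => ⟨h'.2 β j hj,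
    (h.side hj).2.2.aname hI (hI (h.side hj).lt.le (h'.2 β j hj))⟩⟩

theorem closed_lower {I : Set L} (hI : IsLowerSet I) : d.Closed I :=
  fun _ hβ => ⟨fun _ _ _ h1 h2 => h2.inA hI (h1.mono fun _ hx => hI (le_of_lt hx) hβ),
    fun _ hξ => hI (d.τ_lt _ _ hξ).le hβ⟩

theorem Closed.inter {A B : Set L} (hA : d.Closed A) (hB : d.Closed B) : d.Closed (A ∩ B) :=
  fun β hβ => ⟨fun a r h1 h2 h3 => ((hA β hβ.1).1 a r h1 h2 h3).inter ((hB β hβ.2).1 a r h1 h2 h3),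
    fun ξ hξ => ⟨(hA β hβ.1).2 ξ hξ, (hB β hβ.2).2 ξ hξ⟩⟩

theorem Valid.mem_res2 {I : Set L} (hI : IsLowerSet I) {p : Raw L J} (h : d.Valid p) {β : L}
    {j : J} (hj : (β, j) ∈ p.2) (hβ : β ∈ I) : (β, j) ∈ (d.res I p).2 :=
  Data.mem_res2.2 ⟨hj, hβ, (h.side hj).2.2.aname hI (hI (h.side hj).lt.le hβ)⟩

omit [WellFoundedLT L] in
theorem res_suppIn (A : Set L) (p : Raw L J) : SuppIn (d.res A p) A := (res_inA A p).suppIn

omit [WellFoundedLT L] in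
open Classical in
/-- union of conditions -/
noncomputable def un (q p : Raw L J) : Raw L J := (q.1 ∪ p.1, q.2 ∪ p.2)

omit [WellFoundedLT L] in
theorem mem_un1 {q p : Raw L J} {x : L × Elt} : x ∈ (un q p).1 ↔ x ∈ q.1 ∨ x ∈ p.1 := by
  simp [un]

omit [WellFoundedLT L] in
theorem mem_un2 {q p : Raw L J} {x : L × J} : x ∈ (un q p).2 ↔ x ∈ q.2 ∨ x ∈ p.2 := by
  simp [un]

omit [WellFoundedLT L] in
theorem _root_.Pool.Agent.P.MP_27b523_gt.SuppIn.un {q p : Raw L J} {I : Set L} (h : SuppIn q I)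
    (h' : SuppIn p I) : SuppIn (un q p) I :=
  ⟨fun β a ha => (mem_un1.1 ha).elim (h.1 β a) (h'.1 β a),
    fun β a ha => (mem_un2.1 ha).elim (h.2 β a) (h'.2 β a)⟩

omit [WellFoundedLT L] in
theorem InA.un {q p : Raw L J} {A : Set L} (h : d.InA A q) (h' : d.InA A p) :
    d.InA A (un q p) :=
  inA_iff.2 ⟨fun β a ha => (mem_un1.1 ha).elim ((inA_iff.1 h).1 β a) ((inA_iff.1 h').1 β a),
    fun β a ha => (mem_un2.1 ha).elim ((inA_iff.1 h).2 β a) ((inA_iff.1 h').2 β a)⟩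

theorem valid_un {q p : Raw L J} (hq : d.Valid q) (hp : d.Valid p) (h1 : d.Le (un q p) q)
    (h2 : d.Le (un q p) p) : d.Valid (un q p) :=
  valid_intro (fun _ _ ha => (mem_un1.1 ha).elim (fun h => (hq.adm h).mono h1)
    fun h => (hp.adm h).mono h2) fun _ _ hj => (mem_un2.1 hj).elim hq.side hp.side

/-- amalgamation -/
theorem amalg {I : Set L} (hI : IsLowerSet I) {q p : Raw L J} (hq : d.Valid q)
    (hqI : SuppIn q I) (hp : d.Valid p) (h : d.Le q (d.res I p)) :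
    d.Valid (un q p) ∧ d.Le (un q p) q ∧ d.Le (un q p) p := by
  have h1 : d.Le (un q p) q := by
    refine le_of_agree (fun _ h => mem_un1.2 (Or.inl h)) (fun _ h => mem_un2.2 (Or.inl h))
      fun β a ha ha' => ?_
    have h2 : β ∉ I := fun hβ =>
      ha' (h.sub1 (mem_res1.2 ⟨(mem_un1.1 ha).resolve_left ha', hβ⟩))
    exact ⟨fun b hb => h2 (hqI.1 _ _ hb), fun b hb => h2 (hqI.2 _ _ hb)⟩
  have h2 : d.Le (un q p) p := by
    refine le_intro (fun _ h => mem_un1.2 (Or.inr h)) (fun _ h => mem_un2.2 (Or.inr h))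
      fun β a ha ha' => ?_
    have h3 : (β, a) ∈ q.1 := (mem_un1.1 ha).resolve_right ha'
    have h4 : β ∈ I := hqI.1 _ _ h3
    have h5 : (β, a) ∉ (d.res I p).1 := fun h => ha' (res_sub1 h)
    exact ⟨fun b hb => h.lt h3 h5 (mem_res1.2 ⟨hb, h4⟩),
      fun j hj => (h.yw h3 h5 (hp.mem_res2 hI hj h4)).mono h1⟩
  exact ⟨valid_un hq hp h1 h2, h1, h2⟩

/-- adding side conditions -/
theorem add_sides {p : Raw L J} (hp : d.Valid p) (F : Finset (L × J))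
    (hF : ∀ β j, (β, j) ∈ F → d.SideOK β j) :
    d.Valid (un p (∅, F)) ∧ d.Le (un p (∅, F)) p := by
  have h1 : d.Le (un p (∅, F)) p :=
    le_of_agree (fun _ h => mem_un1.2 (Or.inl h)) (fun _ h => mem_un2.2 (Or.inl h))
      fun β a ha ha' => absurd ((mem_un1.1 ha).resolve_right (by simp)) ha'
  exact ⟨valid_intro (fun _ _ ha => (hp.adm ((mem_un1.1 ha).resolve_right (by simp))).mono h1)
    fun _ _ hj => (mem_un2.1 hj).elim hp.side (hF _ _), h1⟩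

/-- adding a stem element -/
theorem add_elt {p : Raw L J} (hp : d.Valid p) {β : L} {a : Elt} (h1 : d.Adm β a p)
    (h2 : ∀ b, (β, b) ∈ p.1 → b.1 < a.1) (h3 : ∀ j, (β, j) ∈ p.2 → d.YW p j a.2.2) :
    d.Valid (un p ({(β, a)}, ∅)) ∧ d.Le (un p ({(β, a)}, ∅)) p := by
  have h4 : d.Le (un p ({(β, a)}, ∅)) (d.res (Iio β) p) := by
    refine le_of_agree (fun _ h => mem_un1.2 (Or.inl (res_sub1 h)))
      (fun _ h => mem_un2.2 (Or.inl (res_sub2 h))) fun γ b hb hb' => ?_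
    have : γ ∉ Iio β := by
      intro hγ
      rcases mem_un1.1 hb with hb | hb
      · exact hb' (mem_res1.2 ⟨hb, hγ⟩)
      · simp only [Finset.mem_singleton, Prod.mk.injEq] at hb
        exact absurd hγ (by simp [hb.1])
    exact ⟨fun _ h => this (mem_res1.1 h).2, fun _ h => this (mem_res2.1 h).2.1⟩
  have h5 : d.Le (un p ({(β, a)}, ∅)) p := by
    refine le_intro (fun _ h => mem_un1.2 (Or.inl h)) (fun _ h => mem_un2.2 (Or.inl h))
      fun γ b hb hb' => ?_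
    have := (mem_un1.1 hb).resolve_left hb'
    simp only [Finset.mem_singleton, Prod.mk.injEq] at this
    obtain ⟨rfl, rfl⟩ := this
    exact ⟨h2, fun j hj => ((h3 j hj).res
      ((hp.side hj).2.2.aname (isLowerSet_Iio _) (hp.side hj).lt)).mono h4⟩
  refine ⟨valid_intro (fun γ b hb => ?_)
    fun _ _ hj => hp.side ((mem_un2.1 hj).resolve_right (by simp)), h5⟩
  rcases mem_un1.1 hb with hb | hb
  · exact (hp.adm hb).mono h5
  · simp only [Finset.mem_singleton, Prod.mk.injEq] at hb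
    obtain ⟨rfl, rfl⟩ := hb
    exact h1.mono h5

end Data

end Pool.Agent.P.MP_27b523_gt
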