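import Pool.Agent.P.MP_27b523_gt.Ccc

/-!
The preservation theorem.
-/

open Set Function

namespace Pool.Agent.P.MP_27b523_gt

variable {O L J : Type} [LinearOrder O] [OrderBot O] [LinearOrder L] [WellFoundedLT L]

namespace Data

variable (d : Data O L J)

/-- Cohen coordinates -/
def IsCohen (γ : L) : Prop := (∀ a, (∅, ∅) ∈ d.Rn γ a) ∧ d.blk γ = ⊥

def Test (A : Set L) (j j' : J) : Prop :=
  d.η j' = d.η j ∧ d.AName A j' ∧ d.NameOK (d.τ (d.η j')) (d.z j')

def DenseD (A I : Set L) (p : Raw L J) (T : Finset J)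
    (D : ℕ → Raw L J → Finset (J × Clop) → ℕ → Prop) : Prop :=
  ∀ n r0 (σ : J → J), d.PA (A ∩ I) r0 → d.Le r0 (d.res A p) → (∀ j ∈ T, d.Test A j (σ j)) →
    ∃ r C m, D n r C m ∧ d.PA (A ∩ I) r ∧ d.Le r r0 ∧ ∀ x ∈ C, x.1 ∈ T → d.YW r (σ x.1) x.2

def Concl (I : Set L) (p : Raw L J) (T : Finset J) (c : Finset L) (n0 : ℕ)
    (D : ℕ → Raw L J → Finset (J × Clop) → ℕ → Prop) : Prop :=
  ∃ n ≥ n0, ∃ r C m q, D n r C m ∧ d.Valid q ∧ SuppIn q I ∧ d.Le q p ∧ d.Le q r ∧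
    (∀ x ∈ C, x.1 ∈ T → d.YW q x.1 x.2) ∧ ∀ γ ∈ c, Omit q γ n m

/-- the statement, with levels of the tuple in `I'` -/
def St (A I I' : Set L) : Prop :=
  ∀ p T c n0 D, d.Valid p → SuppIn p I →
    (∀ j ∈ T, d.τ (d.η j) ∈ A ∧ d.τ (d.η j) ∈ I' ∧ d.NameOK (d.τ (d.η j)) (d.z j)) →
    (∀ γ ∈ c, γ ∈ I ∧ γ ∉ A ∧ d.IsCohen γ) → d.DenseD A I p T D → d.Concl I p T c n0 D

variable {d} {A : Set L}

theorem st_lower {I : Set L} (hI : IsLowerSet I) (h : ∀ γ ∈ I, d.St A (Iic γ) (Iic γ)) :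
    d.St A I I := by
  classical
  intro p T c n0 D hp hpI hT hc hD
  let E : Finset L := p.1.image Prod.fst ∪ p.2.image Prod.fst ∪ T.image (fun j => d.τ (d.η j)) ∪ c
  have e1 : ∀ β a, (β, a) ∈ p.1 → β ∈ E := fun β a h => by
    simp only [E, Finset.mem_union]
    exact Or.inl (Or.inl (Or.inl (Finset.mem_image_of_mem _ h)))
  have e2 : ∀ β a, (β, a) ∈ p.2 → β ∈ E := fun β a h => by
    simp only [E, Finset.mem_union]
    exact Or.inl (Or.inl (Or.inr (Finset.mem_image_of_mem _ h)))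
  have e3 : ∀ j ∈ T, d.τ (d.η j) ∈ E := fun j h => by
    simp only [E, Finset.mem_union]
    exact Or.inl (Or.inr (Finset.mem_image_of_mem _ h))
  have e4 : ∀ γ ∈ c, γ ∈ E := fun j h => Finset.mem_union_right _ h
  have e5 : ∀ γ ∈ E, γ ∈ I := by
    intro γ hγ
    simp only [E, Finset.mem_union, Finset.mem_image] at hγ
    rcases hγ with ((⟨x, h, rfl⟩ | ⟨x, h, rfl⟩) | ⟨x, h, rfl⟩) | h
    exacts [hpI.1 _ _ h, hpI.2 _ _ h, (hT x h).2.1, (hc _ h).1]
  rcases E.eq_empty_or_nonempty with hE | hE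
  · rw [hE] at e1 e2 e3 e4
    have hp' : p = (∅, ∅) := Prod.ext
      (Finset.eq_empty_of_forall_notMem fun x hx => by simpa using e1 _ _ hx)
      (Finset.eq_empty_of_forall_notMem fun x hx => by simpa using e2 _ _ hx)
    obtain ⟨r, C, m, a1, a2, a3, -⟩ := hD n0 (∅, ∅) id ⟨valid_empty, inA_empty _⟩
      (by rw [hp']; exact le_res _ _) fun j hj => by simpa using e3 j hj
    exact ⟨n0, le_rfl, r, C, m, r, a1, a2.1, a2.2.suppIn.mono inter_subset_right,
      hp' ▸ le_empty r, le_refl r, fun x _ hx => by simpa using e3 _ hx,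
      fun γ hγ => by simpa using e4 γ hγ⟩
  · let γ := E.max' hE
    have hγ : ∀ β ∈ E, β ∈ Iic γ := fun β hβ => E.le_max' β hβ
    have hγI : Iic γ ⊆ I := fun β hβ => hI hβ (e5 _ (E.max'_mem hE))
    obtain ⟨n, hn, r', C, m, q', ⟨r, a1, a2, rfl⟩, a3, a4, a5, a6, a7, a8⟩ :=
      h γ (e5 _ (E.max'_mem hE)) p T c n0
        (fun n r' C m => ∃ r, D n r C m ∧ d.PA (A ∩ I) r ∧ r' = d.res (Iic γ) r) hp
        ⟨fun β a h => hγ _ (e1 β a h), fun β a h => hγ _ (e2 β a h)⟩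
        (fun j hj => ⟨(hT j hj).1, hγ _ (e3 j hj), (hT j hj).2.2⟩)
        (fun β hβ => ⟨hγ _ (e4 β hβ), (hc β hβ).2⟩) (by
          intro n r0 σ h1 h2 h3
          obtain ⟨r, C, m, b1, b2, b3, b4⟩ := hD n r0 σ
            (h1.mono (inter_subset_inter_right _ hγI)) h2 h3
          refine ⟨_, C, m, ⟨r, b1, b2, rfl⟩, ⟨b2.1.res (closed_lower (isLowerSet_Iic γ)),
            ((b2.2.mono inter_subset_left).res _).inter (res_inA _ _)⟩,
            b3.res (h1.2.mono inter_subset_right), fun x hx hx' => (b4 x hx hx').res ?_⟩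
          exact (h3 _ hx').2.2.aname (isLowerSet_Iic γ) (by
            rw [(h3 _ hx').1]; exact hγ _ (e3 _ hx')))
    obtain ⟨b1, b2, b3⟩ := amalg (isLowerSet_Iic γ) a3 a4 a2.1 a6
    exact ⟨n, hn, r, C, m, _, a1, b1, (a4.mono hγI).un (a2.2.suppIn.mono inter_subset_right),
      b2.trans a5, b3, fun x hx hx' => (a7 x hx hx').mono b2, fun β hβ => b2.omit (a8 β hβ)⟩

theorem IsCohen.not_side {γ : L} (h : d.IsCohen γ) (j : J) : ¬ d.SideOK γ j :=
  fun h' => not_lt_bot (h.2 ▸ h'.1)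

theorem IsCohen.adm {γ : L} (h : d.IsCohen γ) (a : Elt) (p : Raw L J) : d.Adm γ a p :=
  ⟨_, h.1 a, ⟨by simp, by simp⟩, valid_empty, le_empty p⟩

theorem st_succ_not_mem (hA : d.Closed A) {β : L} (hβ : β ∉ A) (h : d.St A (Iio β) (Iio β)) :
    d.St A (Iic β) (Iio β) := by
  classical
  intro p T c n0 D hp hpI hT hc hD
  have hAβ : A ∩ Iic β = A ∩ Iio β := by
    ext x
    exact and_congr_right fun hx => ⟨fun h => lt_of_le_of_ne h fun e => hβ (e ▸ hx), le_of_lt⟩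
  have hcl := closed_lower (d := d) (isLowerSet_Iio β)
  obtain ⟨n, hn, r, C, m, q', a1, a3, a4, a5, a6, a7, a8⟩ :=
    h (d.res (Iio β) p) T (c.erase β) (max n0 (p.1.sup (fun x => x.2.1) + 1)) D (hp.res hcl)
      (res_suppIn _ _) hT
      (fun γ hγ => ⟨lt_of_le_of_ne (hc γ (Finset.mem_of_mem_erase hγ)).1
        (Finset.ne_of_mem_erase hγ), (hc γ (Finset.mem_of_mem_erase hγ)).2⟩) (by
        intro n r0 σ h1 h2 h3
        rw [← hAβ] at h1 ⊢
        refine hD n r0 σ h1 (h2.trans (Le.res (Le.res (le_res A p) ?_) (res_inA _ _))) h3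
        refine (hp.res hA).inA (isLowerSet_Iio β) ?_
        have h4 : SuppIn (d.res A p) (A ∩ Iic β) :=
          ⟨fun γ a h => ⟨(mem_res1.1 h).2, hpI.1 _ _ (res_sub1 h)⟩,
            fun γ a h => ⟨(mem_res2.1 h).2.1, hpI.2 _ _ (res_sub2 h)⟩⟩
        rw [hAβ] at h4
        exact h4.mono inter_subset_right)
  obtain ⟨b1, b2, b3⟩ := amalg (isLowerSet_Iio β) a3 a4 hp a5
  have b4 : SuppIn (un q' p) (Iic β) := (a4.mono Iio_subset_Iic_self).un hpI
  by_cases hβc : β ∈ c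
  · have hstem : ∀ b, (β, b) ∈ (un q' p).1 → b.1 < n := by
      intro b hb
      rcases mem_un1.1 hb with hb | hb
      · exact absurd (a4.1 _ _ hb) (lt_irrefl β)
      · have := Finset.le_sup (f := fun x : L × Elt => x.2.1) hb
        have := le_of_max_le_right hn
        simp only at *
        omega
    have hco := (hc β hβc).2.2
    obtain ⟨c1, c2⟩ := add_elt (a := (max m n, 0, ∅)) b1 (hco.adm _ _)
      (fun b hb => (hstem b hb).trans_le (le_max_right _ _))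
      fun j hj => absurd (b1.side hj) (hco.not_side j)
    refine ⟨n, le_of_max_le_left hn, r, C, m, _, a1, c1, b4.un ⟨by simp, by simp⟩,
      c2.trans b3, c2.trans (b2.trans a6), fun x hx hx' => (a7 x hx hx').mono (c2.trans b2),
      fun γ hγ => ?_⟩
    by_cases e : γ = β
    · subst e
      refine ⟨fun a ha => ?_, _, mem_un1.2 (Or.inr (Finset.mem_singleton_self _)),
        le_max_left _ _⟩
      rcases mem_un1.1 ha with ha | ha
      · exact Or.inl (hstem a ha)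
      · simp only [Finset.mem_singleton, Prod.mk.injEq, true_and] at ha
        rw [ha]
        exact Or.inr (le_max_left _ _)
    · exact (c2.trans b2).omit (a8 γ (Finset.mem_erase.2 ⟨e, hγ⟩))
  · refine ⟨n, le_of_max_le_left hn, r, C, m, _, a1, b1, b4, b3, b2.trans a6,
      fun x hx hx' => (a7 x hx hx').mono b2, fun γ hγ => b2.omit (a8 γ ?_)⟩
    exact Finset.mem_erase.2 ⟨fun e => hβc (e ▸ hγ), hγ⟩

theorem st_succ_mem (hA : d.Closed A) {β : L} (hβ : β ∈ A) (h : d.St A (Iio β) (Iio β)) :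
    d.St A (Iic β) (Iio β) := by
  classical
  intro p T c n0 D hp hpI hT hc hD
  have hcl := closed_lower (d := d) (isLowerSet_Iio β)
  let F : Finset J := (p.2.filter fun x => x.1 = β ∧ ¬ d.AName A x.2).image Prod.snd
  have hF : ∀ j, j ∈ F ↔ (β, j) ∈ p.2 ∧ ¬ d.AName A j := by
    intro j
    simp only [F, Finset.mem_image, Finset.mem_filter, Prod.exists, exists_eq_right]
    constructor
    · rintro ⟨_, h1, rfl, h2⟩
      exact ⟨h1, h2⟩
    · rintro ⟨h1, h2⟩
      exact ⟨β, h1, rfl, h2⟩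
  have hsub : A ∩ Iio β ⊆ A ∩ Iic β := inter_subset_inter_right _ Iio_subset_Iic_self
  have hresA : d.PA (A ∩ Iic β) (d.res A p) :=
    ⟨hp.res hA, (res_inA _ _).inter ((hp.inA (isLowerSet_Iic β) hpI).res _)⟩
  obtain ⟨n, hn, r', C', m, q', ⟨r, C, a1, a2, a2', rfl, a9, a10⟩, a3, a4, a5, a6, a7, a8⟩ :=
    h (d.res (Iio β) p) (T ∪ F) c n0
      (fun n r' C' m => ∃ r C, D n r C m ∧ d.PA (A ∩ Iic β) r ∧ d.Le r (d.res A p) ∧
        r' = d.res (Iio β) r ∧ (∀ x ∈ C, x.1 ∈ T → x ∈ C') ∧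
        ∀ a, (β, a) ∈ r.1 → (β, a) ∉ p.1 → ∀ j ∈ F, (j, a.2.2) ∈ C') (hp.res hcl)
      (res_suppIn _ _) (fun j hj => by
        rcases Finset.mem_union.1 hj with hj | hj
        · exact hT j hj
        · have := hp.side ((hF j).1 hj).1
          exact ⟨(hA β hβ).2 _ this.1, this.lt, this.2.2⟩)
      (fun γ hγ => ⟨lt_of_le_of_ne (hc γ hγ).1 fun e => (hc γ hγ).2.1 (e ▸ hβ), (hc γ hγ).2⟩) (by
        intro n r0 σ h1 h2 h3
        have b0 : d.Le r0 (d.res (Iio β) (d.res A p)) :=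
          h2.trans (Le.res (Le.res ((le_res A p).trans (le_res _ _)) (res_inA _ _))
            ((res_inA _ _).res _))
        obtain ⟨b1, b2, b3⟩ := amalg (isLowerSet_Iio β) h1.1
          (h1.2.suppIn.mono inter_subset_right) hresA.1 b0
        have hside : ∀ j ∈ F, d.SideOK β (σ j) := by
          intro j hj
          have ht := h3 j (Finset.mem_union_right _ hj)
          have hs := hp.side ((hF j).1 hj).1
          refine ⟨ht.1 ▸ hs.1, fun e => absurd ⟨(hA β hβ).2 _ hs.1, fun n m => ?_⟩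
            ((hF j).1 hj).2, ht.2.2⟩
          rw [hs.2.1 e]
          exact inA_empty A
        obtain ⟨c1, c2⟩ := add_sides b1 (F.image fun j => (β, σ j)) fun γ j hj => by
          obtain ⟨k, hk, e⟩ := Finset.mem_image.1 hj
          obtain ⟨rfl, rfl⟩ := Prod.mk.inj e
          exact hside k hk
        have c3 : d.InA (A ∩ Iic β) (un (un r0 (d.res A p)) (∅, F.image fun j => (β, σ j))) := by
          refine ((h1.2.mono hsub).un hresA.2).un (inA_iff.2 ⟨by simp, fun γ j hj => ?_⟩)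
          obtain ⟨k, hk, e⟩ := Finset.mem_image.1 hj
          obtain ⟨rfl, rfl⟩ := Prod.mk.inj e
          exact ⟨⟨hβ, le_rfl⟩, (h3 k (Finset.mem_union_right _ hk)).2.1.inter
            ((hside k hk).2.2.aname (isLowerSet_Iic _) (hside k hk).lt.le)⟩
        obtain ⟨r, C, m, d1, d2, d3, d4⟩ := hD n _ σ ⟨c1, c3⟩ (c2.trans b3)
          fun j hj => h3 j (Finset.mem_union_left _ hj)
        let C2 : Finset (J × Clop) := ((r.1.filter fun x => x.1 = β ∧ x ∉ p.1) ×ˢ F).image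
          fun x => (x.2, x.1.2.2.2)
        have haname : ∀ j ∈ T ∪ F, d.AName (Iio β) (σ j) := by
          intro j hj
          refine (h3 j hj).2.2.aname (isLowerSet_Iio β) ?_
          rw [(h3 j hj).1]
          rcases Finset.mem_union.1 hj with hj | hj
          · exact (hT j hj).2.1
          · exact (hp.side ((hF j).1 hj).1).lt
        refine ⟨_, C.filter (fun x => x.1 ∈ T) ∪ C2, m,
          ⟨r, C, d1, d2, d3.trans (c2.trans b3), rfl, fun x hx hx' =>
            Finset.mem_union_left _ (Finset.mem_filter.2 ⟨hx, hx'⟩), fun a ha ha' j hj =>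
            Finset.mem_union_right _ (Finset.mem_image.2 ⟨((β, a), j), Finset.mem_product.2
              ⟨Finset.mem_filter.2 ⟨ha, rfl, ha'⟩, hj⟩, rfl⟩)⟩,
          ⟨d2.1.res hcl, ((d2.2.mono inter_subset_left).res _).inter (res_inA _ _)⟩,
          (d3.trans (c2.trans b2)).res (h1.2.mono inter_subset_right), fun x hx hx' => ?_⟩
        refine YW.res ?_ (haname _ hx')
        rcases Finset.mem_union.1 hx with hx | hx
        · exact d4 x (Finset.mem_filter.1 hx).1 (Finset.mem_filter.1 hx).2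
        · obtain ⟨⟨⟨γ, a⟩, j⟩, h4, rfl⟩ := Finset.mem_image.1 hx
          obtain ⟨h5, h6⟩ := Finset.mem_product.1 h4
          obtain ⟨h7, h8, h9⟩ := Finset.mem_filter.1 h5
          simp only at h8 h6
          subst h8
          refine d3.yw h7 (fun h => ?_)
            (mem_un2.2 (Or.inr (Finset.mem_image_of_mem (fun j => (γ, σ j)) h6)))
          rcases mem_un1.1 h with h | h
          · rcases mem_un1.1 h with h | h
            · exact lt_irrefl γ (h1.2.suppIn.1 _ _ h).2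
            · exact h9 (res_sub1 h)
          · simp at h)
  obtain ⟨b1, b2, b3⟩ := amalg (isLowerSet_Iio β) a3 a4 a2.1 a6
  obtain ⟨c1, c2⟩ := add_sides b1 p.2 fun _ _ h => hp.side h
  have hs : SuppIn (un (un q' r) (∅, p.2)) (Iic β) :=
    ((a4.mono Iio_subset_Iic_self).un (a2.2.suppIn.mono inter_subset_right)).un ⟨by simp, hpI.2⟩
  refine ⟨n, hn, r, C, m, _, a1, c1, hs, ?_, c2.trans b3,
    fun x hx hx' => (a7 x (a9 x hx hx') (Finset.mem_union_left _ hx')).mono (c2.trans b2),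
    fun γ hγ => (c2.trans b2).omit (a8 γ hγ)⟩
  refine le_intro (fun ⟨γ, a⟩ ha => ?_) (fun x hx => mem_un2.2 (Or.inr hx)) fun γ a ha ha' => ?_
  · rcases lt_or_eq_of_le (show γ ≤ β from hpI.1 _ _ ha) with h | rfl
    · exact (c2.trans b2).sub1 (a5.sub1 (mem_res1.2 ⟨ha, h⟩))
    · exact (c2.trans b3).sub1 (a2'.sub1 (mem_res1.2 ⟨ha, hβ⟩))
  · have ha1 : (γ, a) ∈ (un q' r).1 := (mem_un1.1 ha).resolve_right (by simp)
    rcases lt_or_eq_of_le (show γ ≤ β from hs.1 _ _ ha) with h | rfl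
    · have ha2 : (γ, a) ∈ q'.1 := by
        rcases mem_un1.1 ha1 with h' | h'
        · exact h'
        · exact a6.sub1 (mem_res1.2 ⟨h', h⟩)
      have ha3 : (γ, a) ∉ (d.res (Iio β) p).1 := fun h => ha' (res_sub1 h)
      exact ⟨fun b hb => a5.lt ha2 ha3 (mem_res1.2 ⟨hb, h⟩), fun j hj =>
        (a5.yw ha2 ha3 (hp.mem_res2 (isLowerSet_Iio β) hj h)).mono (c2.trans b2)⟩
    · have ha2 : (γ, a) ∈ r.1 :=
        (mem_un1.1 ha1).resolve_left fun h => lt_irrefl γ (a4.1 _ _ h)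
      have ha3 : (γ, a) ∉ (d.res A p).1 := fun h => ha' (res_sub1 h)
      refine ⟨fun b hb => a2'.lt ha2 ha3 (mem_res1.2 ⟨hb, hβ⟩), fun j hj => ?_⟩
      by_cases hj' : d.AName A j
      · exact (a2'.yw ha2 ha3 (mem_res2.2 ⟨hj, hβ, hj'⟩)).mono (c2.trans b3)
      · have hjF := (hF j).2 ⟨hj, hj'⟩
        exact (a7 _ (a10 a ha2 ha' j hjF) (Finset.mem_union_right _ hjF)).mono (c2.trans b2)

theorem qProp_of_st {β : L} (h : d.St A (Iic β) (Iio β)) : d.QProp (A ∩ Iic β) β := by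
  intro E hE p h1 h2
  obtain ⟨n, -, r, C, m, q, a1, a2, a3, a4, a5, -⟩ := h p ∅ ∅ 0 (fun _ r _ _ => E r) h1 h2
    (by simp) (by simp) fun n r0 σ b1 _ _ => by
      obtain ⟨r, c1, c2, c3⟩ := hE r0 b1
      exact ⟨r, ∅, 0, c3, c1, c2, by simp⟩
  exact ⟨q, r, a2, a3, a4, a5, a1⟩

end Data

end Pool.Agent.P.MP_27b523_gt
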