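import Pool.Agent.P.MP_27b523_gt.Inst
import Pool.Agent.P.MP_27b523_gt.Defs
import Pool.Agent.Lib.Helper87.Codes

/-!
The generic objects.
-/

open Set Function Filter

namespace Pool.Agent.P.MP_27b523_gt

open Pool.Agent.Lib.Helper87 Coded

section fam
variable {P : Type} [Preorder P] {S T : Type} [MeasurableSpace S] [MeasurableSpace T]

/-- sets indexed by the elements of `N` -/
def Fam (A : World P → Set T) : Prop :=
  ∃ (I : Type) (x : I → World P → T), (∀ i, Measurable (x i)) ∧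
    ∀ᶠ w in gen P, ∀ z, z ∈ A w ↔ ∃ i, w.In i ∧ x i w = z

theorem Fam.union {A B : World P → Set T} (h : Fam A) (h' : Fam B) : Fam fun w => A w ∪ B w := by
  obtain ⟨I, x, a1, a2⟩ := h
  obtain ⟨I', x', b1, b2⟩ := h'
  refine ⟨I ⊕ I', Sum.elim x x', fun i => by cases i <;> simp [a1, b1], ?_⟩
  filter_upwards [a2, b2, ev_in_sum I I'] with w c1 c2 c3 z
  simp [c1, c2, c3.1, c3.2]

theorem Fam.prod {A : World P → Set S} {B : World P → Set T} (h : Fam A) (h' : Fam B) :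
    Fam fun w => A w ×ˢ B w := by
  obtain ⟨I, x, a1, a2⟩ := h
  obtain ⟨I', x', b1, b2⟩ := h'
  refine ⟨I × I', fun i w => (x i.1 w, x' i.2 w), fun i => (a1 _).prodMk (b1 _), ?_⟩
  filter_upwards [a2, b2, ev_in_prod I I'] with w c1 c2 c3 ⟨z, z'⟩
  simp only [mem_prod, c1, c2, c3, Prod.exists, Prod.mk.injEq]
  constructor
  · rintro ⟨⟨i, d1, d2⟩, j, d3, d4⟩
    exact ⟨i, j, ⟨d1, d3⟩, d2, d4⟩
  · rintro ⟨i, j, ⟨d1, d3⟩, d2, d4⟩
    exact ⟨⟨i, d1, d2⟩, j, d3, d4⟩

theorem fam_countable {A : Set T} (hA : A.Countable) : Fam fun _ : World P => A := by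
  have := hA.to_subtype
  refine ⟨A, fun i _ => i.1, fun _ => measurable_const, ?_⟩
  filter_upwards [ev_ctype A] with w h z
  simp [h]

theorem fam_subtype {I : Type} {x : I → World P → T} (hx : ∀ i, Measurable (x i)) (Q : I → Prop) :
    Fam fun w => {z | ∃ i, w.In i ∧ Q i ∧ x i w = z} := by
  refine ⟨{i // Q i}, fun i => x i.1, fun i => hx _, ?_⟩
  filter_upwards [ev_in_subtype Q] with w h z
  simp [h]

theorem Fam.measurable_all {A : World P → Set T} (h : Fam A) {Φ : T → World P → Prop}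
    (hΦ : ∀ x : World P → T, Measurable x → Measurable fun w => Φ (x w) w) :
    Measurable fun w => ∀ z ∈ A w, Φ z w := by
  obtain ⟨I, x, a1, a2⟩ := h
  refine (measurable_all_in fun i => hΦ _ (a1 i)).congr_ev ?_
  filter_upwards [a2] with w h
  constructor
  · intro h1 i hi
    exact h1 _ ((h _).2 ⟨i, hi, rfl⟩)
  · intro h1 z hz
    obtain ⟨i, hi, rfl⟩ := (h _).1 hz
    exact h1 i hi

theorem Fam.namedC_inter [Coded T] {A : World P → Set T} (h : Fam A)
    (hT : ∀ x : World P → T, Measurable x → NamedC x) {V : Set T} (hV : MeasurableSet V) :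
    NamedC fun w => A w ∩ V := by
  obtain ⟨I, x, a1, a2⟩ := h
  refine namedC_set (fun i => hT _ (a1 i)) (Φ := fun i w => x i w ∈ V)
    (fun i => measurableSet_setOfPred.1 (a1 i hV)) ?_
  filter_upwards [a2] with w h z
  simp only [mem_inter_iff, h]
  constructor
  · rintro ⟨⟨i, b1, rfl⟩, b2⟩
    exact ⟨i, b1, b2, rfl⟩
  · rintro ⟨i, b1, b2, rfl⟩
    exact ⟨⟨i, b1, rfl⟩, b2⟩

theorem Fam.namedC [Coded T] {A : World P → Set T} (h : Fam A)
    (hT : ∀ x : World P → T, Measurable x → NamedC x) : NamedC A := by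
  simpa using h.namedC_inter hT MeasurableSet.univ

theorem namedC_real₂ {x : World P → Cantor × Cantor} (h : Measurable x) : NamedC x :=
  (namedC_real h.fst).prod (namedC_real h.snd)

open Classical in
theorem measurable_decide {Φ : ℕ → World P → Prop} (h : ∀ n, Measurable (Φ n)) :
    Measurable fun w n => decide (Φ n w) :=
  measurable_pi_iff.2 fun n => measurable_to_bool (by
    convert measurableSet_setOfPred.2 (h n) using 1
    ext w
    simp)

theorem measurable_bit {x : World P → Cantor} (h : Measurable x) (n : ℕ) (b : Bool) :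
    Measurable fun w => x w n = b :=
  measurableSet_setOfPred.1 (((measurable_pi_apply n).comp h) (t := {b}) trivial)

end fam

theorem countable_finSets : FinSets.Countable := by
  classical
  refine (countable_range fun s : Finset ℕ => fun n => decide (n ∈ s)).mono fun x hx => ?_
  refine ⟨Finite.toFinset hx, funext fun n => ?_⟩
  simp

/-- membership in a clopen set -/
def InW (y : Cantor) (W : Clop) : Prop := ∃ c ∈ W, ∀ n < c.1, (y n = true ↔ n ∈ c.2)

/-- omitting an interval -/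
def Om (y : Cantor) (k m : ℕ) : Prop := ∀ n, k ≤ n → n < m → y n = false

theorem measurable_inW {P : Type} [Preorder P] {x : World P → Cantor} (h : Measurable x)
    (W : Clop) : Measurable fun w => InW (x w) W :=
  Measurable.exists fun _ => measurable_const.and (Measurable.forall fun n =>
    measurable_const.imp ((measurable_bit h n true).iff measurable_const))

theorem measurable_om {P : Type} [Preorder P] {x : World P → Cantor} (h : Measurable x)
    (k m : ℕ) : Measurable fun w => Om (x w) k m :=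
  Measurable.forall fun n => measurable_const.imp (measurable_const.imp (measurable_bit h n false))

variable {O L J : Type} [LinearOrder O] [OrderBot O] [LinearOrder L] [WellFoundedLT L]

namespace Data

variable (d : Data O L J)

/-- the forcing notion -/
def PP : Type := {p : Raw L J // d.Valid p}

instance : Preorder d.PP where
  le q p := d.Le q.1 p.1
  le_refl p := le_refl p.1
  le_trans _ _ _ h1 h2 := Le.trans h1 h2

instance : Nonempty d.PP := ⟨⟨_, valid_empty⟩⟩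

theorem ccc_PP : CCC d.PP := by
  intro S hS
  refine countable_of_injective_of_countable_image Subtype.val_injective.injOn
    (ccc (d := d) (S := Subtype.val '' S) ?_ ?_)
  · rintro _ ⟨p, -, rfl⟩
    exact p.2
  · rintro _ ⟨p, hp, rfl⟩ _ ⟨q, hq, rfl⟩ hne ⟨r, h1, h2, h3⟩
    exact hS hp hq (fun e => hne (congrArg _ e)) ⟨⟨r, h1⟩, h2, h3⟩

variable {d}

/-- a condition -/
def mkP (p : Raw L J) (h : d.Valid p) : d.PP := ⟨p, h⟩

open Classical in
/-- the generic reals -/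
noncomputable def tt (β : L) (w : World d.PP) : Cantor :=
  fun n => decide (w.Frc fun p => InT p.1 β n)

open Classical in
/-- the values of names -/
noncomputable def zz (j : J) (w : World d.PP) : Cantor :=
  fun n => decide (w.Frc fun p => d.Zd p.1 j n true)

/-- the points of the `γ`-set -/
noncomputable def yy (j : J) (w : World d.PP) : Cantor :=
  fun n => zz j w n && tt (d.τ (d.η j)) w n

theorem measurable_tt (β : L) : Measurable (tt (d := d) β) :=
  measurable_decide fun _ => measurable_frc fun _ _ h h' => Le.inT h h'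

theorem measurable_zz (j : J) : Measurable (zz (d := d) j) :=
  measurable_decide fun _ => measurable_frc fun _ _ h h' => Zd.mono h' h

theorem measurable_yy (j : J) : Measurable (yy (d := d) j) :=
  measurable_pi_iff.2 fun n => (Measurable.of_discrete (f := fun x : Bool × Bool => x.1 && x.2)).comp
    (((measurable_pi_apply n).comp (measurable_zz j)).prodMk
      ((measurable_pi_apply n).comp (measurable_tt _)))

variable {w : World d.PP}

theorem tt_iff {β : L} {n : ℕ} : tt β w n = true ↔ w.Frc fun p => InT p.1 β n := by simp [tt]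

theorem zz_iff {j : J} {n : ℕ} : zz j w n = true ↔ w.Frc fun p => d.Zd p.1 j n true := by simp [zz]

theorem yy_iff {j : J} {n : ℕ} :
    yy j w n = true ↔ zz j w n = true ∧ tt (d.τ (d.η j)) w n = true := by simp [yy]

theorem tt_of_has {p : d.PP} (hp : w.Has p) {β : L} {n : ℕ} (h : InT p.1 β n) :
    tt β w n = true := let ⟨q, h1, h2⟩ := hp; tt_iff.2 ⟨q, h1, Le.inT h2 h⟩

theorem tt_of_out (hw : w.Generic) {p : d.PP} (hp : w.Has p) {β : L} {n : ℕ} (h : OutT p.1 β n) :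
    tt β w n = false := by
  rw [← Bool.not_eq_true, tt_iff]
  rintro ⟨q, h1, h2⟩
  obtain ⟨r, -, a1, a2⟩ := hw.has_and hp (w.has_of_mem h1)
  obtain ⟨a, b1, b2⟩ := Le.inT a2 h2
  exact (Le.outT a1 h).1 a b1 b2

theorem om_of_omit (hw : w.Generic) {p : d.PP} (hp : w.Has p) {β : L} {k m : ℕ}
    (h : Omit p.1 β k m) : Om (tt β w) k m := by
  intro n h1 h2
  rw [← Bool.not_eq_true, tt_iff]
  rintro ⟨q, h3, h4⟩
  obtain ⟨r, -, a1, a2⟩ := hw.has_and hp (w.has_of_mem h3)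
  obtain ⟨a, b1, b2⟩ := Le.inT a2 h4
  have := (Le.omit a1 h).1 a b1
  omega

/-- the generic sequence at `β` is unbounded -/
def Unb (β : L) (w : World d.PP) : Prop := ∀ k, ∃ p ∈ w.G, ∃ a, k ≤ a.1 ∧ (β, a) ∈ p.1.1

theorem Unb.infinite {β : L} (h : Unb β w) : {n | tt β w n}.Infinite := by
  refine infinite_of_forall_exists_gt fun k => ?_
  obtain ⟨p, h1, a, h2, h3⟩ := h (k + 1)
  exact ⟨a.1, tt_iff.2 ⟨p, h1, a, h3, rfl⟩, h2⟩

theorem Unb.out {β : L} (h : Unb β w) {n : ℕ} (hn : tt β w n = false) :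
    w.Frc fun p => OutT p.1 β n := by
  obtain ⟨p, h1, a, h2, h3⟩ := h (n + 1)
  refine ⟨p, h1, fun b hb e => ?_, a, h3, h2⟩
  rw [tt_iff.2 ⟨p, h1, b, hb, e⟩] at hn
  exact absurd hn (by simp)

theorem ev_unb {β : L} (h : ∀ p, d.Valid p → ∀ k, ∃ q a, d.Valid q ∧ d.Le q p ∧ k ≤ a.1 ∧
    (β, a) ∈ q.1) : ∀ᶠ w in gen d.PP, Unb β w :=
  ev_call fun k => ev_dense0 _ fun p =>
    let ⟨q, a, h1, h2, h3, h4⟩ := h p.1 p.2 k; ⟨⟨q, h1⟩, h2, a, h3, h4⟩

theorem ev_unb_tower [WellFoundedLT O] (ξ : O) : ∀ᶠ w in gen d.PP, Unb (d.τ ξ) w :=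
  ev_unb fun p hp k =>
    let ⟨q, a, h1, h2, h3, h4, _⟩ := extTower ξ p hp k; ⟨q, a, h1, h2, h3, h4⟩

theorem ev_unb_cohen {γ : L} (h : d.IsCohen γ) : ∀ᶠ w in gen d.PP, Unb γ w :=
  ev_unb fun _ hp k => ext_cohen h hp k

theorem zz_of_false (hw : w.Generic) {j : J} (hj : d.NameOK (d.τ (d.η j)) (d.z j)) {p : d.PP}
    (hp : w.Has p) {n : ℕ} (h : d.Zd p.1 j n false) : zz j w n = false := by
  rw [← Bool.not_eq_true, zz_iff]
  rintro ⟨q, h1, m', h2, h3⟩
  obtain ⟨m, h4, h5⟩ := h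
  obtain ⟨r, -, a1, a2⟩ := hw.has_and hp (w.has_of_mem h1)
  have hl := isLowerSet_Iic (d.τ (d.η j))
  have := hj.2.2 n m m' _ (res_suppIn _ _) (r.2.res (closed_lower hl))
    ((Le.trans a1 h5).res ((hj.aname hl (le_rfl : _ ≤ _)).2 n m))
    ((Le.trans a2 h3).res ((hj.aname hl (le_rfl : _ ≤ _)).2 n m'))
  rw [h4, h2] at this
  exact absurd this (by simp)

theorem inW_of_yw (hw : w.Generic) {j : J} (hj : d.NameOK (d.τ (d.η j)) (d.z j)) {p : d.PP}
    (hp : p ∈ w.G) {W : Clop} (h : d.YW p.1 j W) : InW (yy j w) W := by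
  obtain ⟨c, h1, h2⟩ := h
  refine ⟨c, h1, fun n hn => ⟨fun h => ?_, fun h => ?_⟩⟩
  · by_contra hc
    rw [yy_iff] at h
    rcases (h2 n hn).2 hc with h3 | h3
    · rw [zz_of_false hw hj (w.has_of_mem hp) h3] at h
      exact absurd h.1 (by simp)
    · rw [tt_of_out hw (w.has_of_mem hp) h3] at h
      exact absurd h.2 (by simp)
  · exact yy_iff.2 ⟨zz_iff.2 ⟨p, hp, ((h2 n hn).1 h).1⟩, tt_iff.2 ⟨p, hp, ((h2 n hn).1 h).2⟩⟩

theorem NameOK.decide_any {j : J} (h : d.NameOK (d.τ (d.η j)) (d.z j)) {p : Raw L J}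
    (hp : d.Valid p) (n : ℕ) : ∃ q b, d.Valid q ∧ d.Le q p ∧ d.Zd q j n b := by
  have hl := isLowerSet_Iic (d.τ (d.η j))
  obtain ⟨q, b, a1, a2, a3, a4⟩ := h.decide (hp.res (closed_lower hl)) (res_suppIn _ _) n
  obtain ⟨b1, b2, b3⟩ := amalg hl a1 a2 hp a3
  exact ⟨_, b, b1, b3, a4.mono b2⟩

theorem ev_zz_false {j : J} (hj : d.NameOK (d.τ (d.η j)) (d.z j)) :
    ∀ᶠ w in gen d.PP, ∀ n, zz j w n = false → w.Frc fun p => d.Zd p.1 j n false := by
  refine ev_call fun n => ?_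
  filter_upwards [ev_dense0 (fun p : d.PP => ∃ b, d.Zd p.1 j n b) fun p => by
    obtain ⟨q, b, h1, h2, h3⟩ := hj.decide_any p.2 n
    exact ⟨⟨q, h1⟩, h2, b, h3⟩] with w ⟨p, h1, b, h2⟩ h3
  cases b
  · exact ⟨p, h1, h2⟩
  · rw [zz_iff.2 ⟨p, h1, h2⟩] at h3
    exact absurd h3 (by simp)

theorem ev_yw [WellFoundedLT O] {j : J} (hj : d.NameOK (d.τ (d.η j)) (d.z j)) :
    ∀ᶠ w in gen d.PP, ∀ W, InW (yy j w) W → w.Frc fun p => d.YW p.1 j W := by
  filter_upwards [ev_generic, ev_nonempty, ev_zz_false hj, ev_unb_tower (d.η j)]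
    with w hw ⟨p0, h0⟩ h1 h2 W ⟨c, h3, h4⟩
  obtain ⟨p, a1, -, a2⟩ := hw.dir_finset h0 (Finset.range c.1)
    (fun n p => (n ∈ c.2 → d.Zd p.1 j n true ∧ InT p.1 (d.τ (d.η j)) n) ∧
      (n ∉ c.2 → d.Zd p.1 j n false ∨ OutT p.1 (d.τ (d.η j)) n))
    (fun n p q h h' => ⟨fun a => ⟨Zd.mono (h'.1 a).1 h, Le.inT h (h'.1 a).2⟩,
      fun a => (h'.2 a).imp (Zd.mono · h) (Le.outT h)⟩) (fun n hn => by
      have h5 := h4 n (Finset.mem_range.1 hn)
      by_cases h6 : n ∈ c.2
      · obtain ⟨b1, b2⟩ := yy_iff.1 (h5.2 h6)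
        obtain ⟨p, b3, b4⟩ := hw.frc_and (fun _ _ h h' => Zd.mono h' h)
          (fun _ _ h h' => Le.inT h h') (zz_iff.1 b1) (tt_iff.1 b2)
        exact ⟨p, b3, fun _ => b4, fun h => absurd h6 h⟩
      · have h7 : ¬ yy j w n = true := fun h => h6 (h5.1 h)
        rw [yy_iff, not_and_or, Bool.not_eq_true, Bool.not_eq_true] at h7
        rcases h7 with h7 | h7
        · obtain ⟨p, b1, b2⟩ := h1 n h7
          exact ⟨p, b1, fun h => absurd h h6, fun _ => Or.inl b2⟩
        · obtain ⟨p, b1, b2⟩ := h2.out h7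
          exact ⟨p, b1, fun h => absurd h h6, fun _ => Or.inr b2⟩)
  exact ⟨p, a1, c, h3, fun n hn => a2 n (Finset.mem_range.2 hn)⟩

theorem ev_side {β : L} {j : J} (h : d.SideOK β j) :
    ∀ᶠ w in gen d.PP, ∃ p ∈ w.G, (β, j) ∈ p.1.2 :=
  ev_dense0 _ fun p => by
    obtain ⟨h1, h2⟩ := add_sides p.2 {(β, j)} fun γ i hi => by
      obtain ⟨rfl, rfl⟩ := Prod.mk.inj (Finset.mem_singleton.1 hi)
      exact h
    exact ⟨⟨_, h1⟩, h2, mem_un2.2 (Or.inr (Finset.mem_singleton_self _))⟩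

/-- late elements of the generic sequence respect a side condition -/
theorem ev_side_yw {β : L} {j : J} (h : d.SideOK β j) :
    ∀ᶠ w in gen d.PP, ∃ k, ∀ p ∈ w.G, ∀ a, (β, a) ∈ p.1.1 → k ≤ a.1 →
      ∃ q ∈ w.G, (β, a) ∈ q.1.1 ∧ d.YW q.1 j a.2.2 := by
  filter_upwards [ev_generic, ev_side h] with w hw ⟨p0, h1, h2⟩
  refine ⟨p0.1.1.sup (fun x => x.2.1) + 1, fun p h3 a h4 h5 => ?_⟩
  obtain ⟨q, a1, a2, a3⟩ := hw.dir p0 h1 p h3
  refine ⟨q, a1, Le.sub1 a3 h4, Le.yw a2 (Le.sub1 a3 h4) (fun h => ?_) h2⟩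
  have := Finset.le_sup (f := fun x : L × Elt => x.2.1) h
  simp only at this
  omega

/-- the tower -/
theorem ev_tower {ξ ξ' : O} (h : ξ ≤ ξ') :
    ∀ᶠ w in gen d.PP, ∃ k, ∀ n, k ≤ n → tt (d.τ ξ') w n = true → tt (d.τ ξ) w n = true := by
  rcases h.eq_or_lt with rfl | h
  · exact Eventually.of_forall fun _ => ⟨0, fun _ _ h => h⟩
  obtain ⟨j, rfl, -, h2⟩ := exists_top_side (d := d) h
  filter_upwards [ev_side_yw h2] with w ⟨k, hk⟩
  refine ⟨k, fun n h3 h4 => ?_⟩
  obtain ⟨p, a1, a, a2, rfl⟩ := tt_iff.1 h4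
  obtain ⟨q, b1, b2, b3⟩ := hk p a1 a a2 h3
  exact tt_iff.2 ⟨q, b1, b3.inT (q.2.adm b2).towOK⟩

variable (d) in
/-- the `γ`-set -/
def YY (w : World d.PP) : Set Cantor :=
  FinSets ∪ {y | ∃ j, w.In j ∧ d.NameOK (d.τ (d.η j)) (d.z j) ∧ yy j w = y}

theorem fam_YY : Fam d.YY := (fam_countable countable_finSets).union (fam_subtype measurable_yy _)

end Data

end Pool.Agent.P.MP_27b523_gt
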